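import Pool.Agent.FMQ.St

/-!
# Project FMQ, module CLF: closure properties for algebras
-/

set_option autoImplicit false

open CategoryTheory AlgebraicGeometry Polynomial

namespace Pool.Agent.FMQ

open Pool.Agent.Lib_helper55.Beil (Var)
open UQ (Pt Mo di gp im IDim DimLE sp spol sdbl sdia sas squo szer cone PSub Units)

theorem t_CLF : S_CLF := by
  intro k _ P hP
  exact
    { iso := fun e h => hP.cls0.iso e h
      triv := fun A _ _ _ h => hP.cls0.triv A h
      glue := fun a z u s hZ hU => hP.cls0.glue a z u ⟨s.surj, s.ker, s.away⟩ hZ hU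
      opn := fun a z u s hA hZ => hP.cls0.opn a z u ⟨s.surj, s.ker, s.away⟩ hA hZ
      line := fun A _ _ _ h => hP.line A h }

end Pool.Agent.FMQ
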