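import Pool.Agent.FMQ.St

/-!
# FMQ, module CUR: curves (helper37)
-/

set_option autoImplicit false

open CategoryTheory AlgebraicGeometry Polynomial

namespace Pool.Agent.FMQ

open Pool.Agent.Lib_helper55.Beil (Var)
open UQ (Pt Mo di gp im IDim DimLE sp)
open FMO (At Comp CompX)

theorem t_CUR : M_CUR := by
  intro hCIN k _
  refine ⟨?_, ?_⟩
  · exact QCV.dimLE_of_DL (QCV.dl_field k)
  · intro m hm X hX x
    refine @(hCIN k m).2 hm _ _ (X.toResidue x).toAlgebra ?_
    have h := hX x
    rw [Nat.cast_one] at h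
    exact h

end Pool.Agent.FMQ
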