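import Pool.Agent.FMQ.St

/-!
# DBL: double covers of a stratum
-/

set_option autoImplicit false

open CategoryTheory AlgebraicGeometry Polynomial

namespace Pool.Agent.FMQ

open FMO (Comp Few Univ Kp)
open UQ (dp)

namespace DBLAux

theorem eval_dp {A B : Type} [CommRing A] [CommRing B] (i : A →+* B) (x : B) (b : A) :
    (dp 0 (-b)).eval₂ i x = x ^ 2 - i b := by
  unfold dp
  rw [eval₂_add, eval₂_add, eval₂_mul, eval₂_pow, eval₂_X, eval₂_C, eval₂_C, map_zero, map_neg]
  ring

theorem root_sq {A : Type} [CommRing A] (b : A) :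
    AdjoinRoot.root (dp 0 (-b)) ^ 2 = AdjoinRoot.of (dp 0 (-b)) b := by
  have h := AdjoinRoot.eval₂_root (dp 0 (-b))
  rw [eval_dp] at h
  exact sub_eq_zero.1 h

section

variable {k : Type} [Field k] {V ι : Type}

theorem card_rename (p : MvPolynomial V k) :
    (MvPolynomial.rename (some : V → Option V) p).support.card ≤ p.support.card := by
  classical
  rw [MvPolynomial.support_rename_of_injective (Option.some_injective V)]
  exact Finset.card_image_le

/-- the system `f` and the equation `t ^ 2 = τ` -/
noncomputable def sq (f : ι → MvPolynomial V k) (τ : MvPolynomial V k) :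
    Option ι → MvPolynomial (Option V) k
  | some i => MvPolynomial.rename some (f i)
  | none => MvPolynomial.X none ^ 2 - MvPolynomial.rename some τ

theorem few {f : ι → MvPolynomial V k} {τ : MvPolynomial V k} {m : ℕ} (h : Few m f)
    (hτ : τ.support.card ≤ 1) : Few m (sq f τ) := by
  classical
  obtain ⟨t, h1, h2, h3⟩ := h
  refine ⟨t.map Function.Embedding.some, by rwa [Finset.card_map], ?_, ?_⟩
  · intro j hj
    obtain ⟨i, hi, rfl⟩ := Finset.mem_map.1 hj
    exact (card_rename (f i)).trans (h2 i hi)
  · rintro (_ | i) hj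
    · refine (Finset.card_le_card (MvPolynomial.support_sub (Option V) _ _)).trans ?_
      refine (Finset.card_union_le _ _).trans ?_
      rw [MvPolynomial.support_X_pow, Finset.card_singleton]
      have := (card_rename τ).trans hτ
      omega
    · refine (card_rename (f i)).trans (h3 i fun hi => hj ?_)
      exact Finset.mem_map.2 ⟨i, hi, rfl⟩

variable {C : Type} [CommRing C] [Algebra k C]

/-- the values of the variables in the double cover -/
noncomputable def vr (φ : V → C) (b : C) : Option V → AdjoinRoot (dp 0 (-b))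
  | some v => AdjoinRoot.of _ (φ v)
  | none => AdjoinRoot.root _

theorem aeval_vr (φ : V → C) (b : C) (p : MvPolynomial V k) :
    MvPolynomial.aeval (vr φ b) (MvPolynomial.rename some p)
      = AdjoinRoot.of (dp 0 (-b)) (MvPolynomial.aeval φ p) := by
  rw [MvPolynomial.aeval_rename]
  have h := MvPolynomial.comp_aeval_apply (R := k) (f := φ)
    (AdjoinRoot.ofAlgHom k (dp 0 (-b))) p
  exact h.symm

/-- the double cover is universal -/
theorem univ {f : ι → MvPolynomial V k} {τ : MvPolynomial V k} {U Z : Set V} {φ : V → C}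
    (h : Univ f U Z C φ) (hu : IsUnit (MvPolynomial.aeval φ τ)) :
    Univ (sq f τ) (insert none (some '' U)) (some '' Z)
      (AdjoinRoot (dp 0 (-MvPolynomial.aeval φ τ))) (vr φ (MvPolynomial.aeval φ τ)) where
  sat := by
    rintro (_ | i)
    · show MvPolynomial.aeval _ (MvPolynomial.X none ^ 2 - MvPolynomial.rename some τ) = 0
      rw [map_sub, map_pow, MvPolynomial.aeval_X, aeval_vr]
      exact sub_eq_zero.2 (root_sq _)
    · show MvPolynomial.aeval _ (MvPolynomial.rename some (f i)) = 0
      rw [aeval_vr, h.sat, map_zero]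
  unit := by
    rintro v (rfl | ⟨v, hv, rfl⟩)
    · have h1 : IsUnit (AdjoinRoot.root (dp 0 (-MvPolynomial.aeval φ τ)) ^ 2) := by
        rw [root_sq]
        exact hu.map _
      exact (isUnit_pow_iff two_ne_zero).1 h1
    · exact (h.unit v hv).map (AdjoinRoot.of (dp 0 (-MvPolynomial.aeval φ τ)))
  zero := by
    rintro _ ⟨v, hv, rfl⟩
    show AdjoinRoot.of _ (φ v) = 0
    rw [h.zero v hv, map_zero]
  lift := by
    intro D _ _ ψ h1 h2 h3
    obtain ⟨g, hg⟩ := h.lift D (fun v => ψ (some v))
      (fun j => by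
        have := h1 (some j)
        change MvPolynomial.aeval ψ (MvPolynomial.rename some (f j)) = 0 at this
        rwa [MvPolynomial.aeval_rename] at this)
      (fun v hv => h2 _ (Or.inr ⟨v, hv, rfl⟩)) (fun v hv => h3 _ ⟨v, hv, rfl⟩)
    have h4 : g (MvPolynomial.aeval φ τ) = ψ none ^ 2 := by
      have h5 := h1 none
      change MvPolynomial.aeval ψ (MvPolynomial.X none ^ 2 - MvPolynomial.rename some τ) = 0 at h5
      rw [map_sub, map_pow, MvPolynomial.aeval_X, MvPolynomial.aeval_rename] at h5
      rw [MvPolynomial.comp_aeval_apply]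
      have h6 : (fun v => g (φ v)) = ψ ∘ some := funext hg
      rw [h6]
      exact (sub_eq_zero.1 h5).symm
    refine ⟨AdjoinRoot.liftAlgHom _ g (ψ none) ?_, ?_⟩
    · refine (eval_dp _ _ _).trans ?_
      exact sub_eq_zero.2 h4.symm
    · rintro (_ | v)
      · exact AdjoinRoot.liftAlgHom_root _ _ _ _
      · exact (AdjoinRoot.liftAlgHom_of _ _ _ _ _).trans (hg v)
  ext := by
    intro D _ _ g g' h1
    refine AdjoinRoot.algHom_ext' ?_ (h1 none)
    refine h.ext D _ _ fun v => ?_
    exact h1 (some v)

end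

end DBLAux

open DBLAux in
theorem t_DBL : M_DBL := by
  intro hS k _ P hP m hm hK V _ ι f hf U Z hUZ C _ _ _ φ hφ τ hτ hu hfin
  refine hS k P hP m hm hK (Option V) (Option ι) (sq f τ) (few hf hτ)
    (insert none (some '' U)) (some '' Z) ?_ _ _ (univ hφ hu)
  rintro (_ | v)
  · exact Or.inl (Or.inl rfl)
  · rcases hUZ v with h | h
    · exact Or.inl (Or.inr ⟨v, h, rfl⟩)
    · exact Or.inr ⟨v, h, rfl⟩

end Pool.Agent.FMQ
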