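import Pool.Agent.FMQ.St

/-!
# FMQ, statements, second part: systems of Delsarte type, quadratic forms over a small base

Same rules as in `St.lean`: `theorem t_XXX : S_XXX` (or `M_XXX : S_YYY → ... → S_XXX`) in `Pool/Agent/FMQ/XXX.lean`, import
`Pool.Agent.FMQ.St2`, auxiliary lemmas in namespace `Pool.Agent.FMQ.XXXAux`.
-/

set_option autoImplicit false

open CategoryTheory AlgebraicGeometry Polynomial Multiplicative

namespace Pool.Agent.FMQ

open Pool.Agent.Lib_helper55.Beil (Var)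
open UQ (Pt Mo di gp im IDim DimLE sp spol sdbl sdia sas squo szer cone PSub Units)
open FMO (At Sm Comp CompX Hom Act Add Few Univ Kp Inv val)
open LFQ (BM SPj Fam Zp)

universe v

/-! ### universal algebras for characters -/

/-- `C` with the character `χ` of `G` is universal for the relations `1 + c_j χ(u_j) + c'_j χ(v_j) = 0`. -/
structure GU {k : Type} [Field k] {G : Type} [AddCommGroup G] {J : Type} (u v : J → G)
    (c c' : J → k) (C : Type) [CommRing C] [Algebra k C] (χ : Multiplicative G →* Cˣ) : Prop where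
  sat : ∀ j, 1 + c j • (χ (ofAdd (u j)) : C) + c' j • (χ (ofAdd (v j)) : C) = 0
  lift : ∀ (D : Type) [CommRing D] [Algebra k D] (ψ : Multiplicative G →* Dˣ),
    (∀ j, 1 + c j • (ψ (ofAdd (u j)) : D) + c' j • (ψ (ofAdd (v j)) : D) = 0) →
    ∃ g : C →ₐ[k] D, ∀ a, g (χ a : C) = (ψ a : D)
  ext : ∀ (D : Type) [CommRing D] [Algebra k D] (g h : C →ₐ[k] D),
    (∀ a, g (χ a : C) = h (χ a : C)) → g = h

/-- GUX (60 lines), existence and uniqueness. PROOF. `MonoidAlgebra k (Multiplicative G)` modulo the relations; it is finitely generated because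
`G` is (search `MonoidAlgebra.finiteType`). -/
def S_GUX : Prop := ∀ (k : Type) [Field k] (G : Type) [AddCommGroup G] (J : Type) (u v : J → G)
  (c c' : J → k),
  (AddGroup.FG G → ∃ (C : Type) (_ : CommRing C) (_ : Algebra k C) (_ : Algebra.FiniteType k C)
    (χ : Multiplicative G →* Cˣ), GU u v c c' C χ) ∧
  ∀ (C D : Type) [CommRing C] [Algebra k C] [CommRing D] [Algebra k D]
    (χ : Multiplicative G →* Cˣ) (ψ : Multiplicative G →* Dˣ), GU u v c c' C χ →
    GU u v c c' D ψ → ∃ e : C ≃ₐ[k] D, ∀ a, e (χ a : C) = (ψ a : D)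

/-- GX1 (120 lines), adjunction of a root. `G₁ = θ(G) + ℤ x`, `t` the order of `x` modulo `θ(G)`, `t x = θ(g)`. PROOF. `C₁ = AdjoinRoot (X ^ t - C (χ g))`
(monic of degree `t ≥ 1`, so free of rank `t`; the root is a unit because its power is). `χ₁ (θ a + i x) = χ(a) root ^ i`: well defined, because `θ a + i x = θ b + j x`
implies `t ∣ i - j` and `a - b = ((j - i) / t) g`. Universal: `ψ₁` restricts to `ψ₁ ∘ θ`, `lift` of `C`, and `ψ₁ x` is a root. -/
def S_GX1 : Prop := ∀ (k : Type) [Field k] (G G₁ : Type) [AddCommGroup G] [AddCommGroup G₁]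
  (θ : G →+ G₁) (_ : Function.Injective θ) (x : G₁) (t : ℕ) (_ : 0 < t) (g : G) (_ : t • x = θ g)
  (_ : ∀ y : G₁, ∃ (a : G) (i : ℤ), y = θ a + i • x)
  (_ : ∀ i : ℤ, i • x ∈ θ.range → (t : ℤ) ∣ i) (J : Type) (u v : J → G) (c c' : J → k) (C : Type)
  [CommRing C] [Algebra k C] [Nontrivial C] (χ : Multiplicative G →* Cˣ), GU u v c c' C χ →
  ∃ (C₁ : Type) (_ : CommRing C₁) (_ : Algebra k C₁) (_ : Algebra C C₁) (_ : IsScalarTower k C C₁)
    (_ : Module.Free C C₁) (_ : Module.Finite C C₁) (χ₁ : Multiplicative G₁ →* C₁ˣ),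
    Module.finrank C C₁ = t ∧ GU (fun j => θ (u j)) (fun j => θ (v j)) c c' C₁ χ₁

/-- GXT (150 lines), subgroups of finite index. PROOF. Strong induction on the index of `θ(G)` in `G'` (finite, because `G'` is finitely generated and the quotient is
torsion). Index one: `θ` is bijective, `C ≃ C'` (`GUX`, second part, after the transport of `C'` along `θ`): `Clo.iso`. Otherwise take `x ∉ θ(G)`, `t` its order
modulo `θ(G)`, `G₁ = θ(G) + ℤ x` (a subgroup of `G'`), `C₁` by `GX1` (of finite type over `k`: finite over `C`), the induction hypothesis for `G₁ → G'` gives `P C₁`, and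
`FreeCl` gives `P C` (if `C` is trivial then `Clo.empty`; otherwise `finrank = t > 0`). -/
def S_GXT : Prop := ∀ (k : Type) [Field k] (P : Var k → Prop), LFQ.Clo P → FreeCl P →
  ∀ (G G' : Type) [AddCommGroup G] [AddCommGroup G'] (_ : AddGroup.FG G') (θ : G →+ G')
  (_ : Function.Injective θ) (_ : ∀ y : G', ∃ t : ℤ, t ≠ 0 ∧ t • y ∈ θ.range) (J : Type)
  (u v : J → G) (c c' : J → k) (C : Type) [CommRing C] [Algebra k C] [Algebra.FiniteType k C]
  (χ : Multiplicative G →* Cˣ), GU u v c c' C χ → ∀ (C' : Type) [CommRing C'] [Algebra k C']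
  [Algebra.FiniteType k C'] (χ' : Multiplicative G' →* C'ˣ),
  GU (fun j => θ (u j)) (fun j => θ (v j)) c c' C' χ' → P (sp k C') → P (sp k C)

def M_GXT : Prop := S_GUX → S_GX1 → S_GXT

/-- LAT (100 lines), lattices (only Mathlib). PROOF. `S = {x | ∃ t ≠ 0, t x ∈ span d}`; `G ⧸ S` is finitely generated and torsion free, so free: `G = S ⊕ S'`, `S' ≃ ℤ ^ q`
(compare `Pool/Agent/GZT/TorA.lean`). `θ(x + x') = (the coordinates of N x in the basis d of span d, the coordinates of x')`. Injective: `N x = 0` implies `x = 0`.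
Finite index: `θ(d i) = N e_i`, `θ(S') = ℤ ^ q`. -/
def S_LAT : Prop := ∀ (G : Type) [AddCommGroup G] [Module.Free ℤ G] [Module.Finite ℤ G] (I : Type)
  [Finite I] [DecidableEq I] (d : I → G) (N : ℕ) (_ : 0 < N) (_ : LinearIndependent ℤ d)
  (_ : ∀ (x : G) (t : ℤ), t ≠ 0 → t • x ∈ Submodule.span ℤ (Set.range d) →
    (N : ℤ) • x ∈ Submodule.span ℤ (Set.range d)),
  ∃ (q : ℕ) (θ : G →+ (I ⊕ Fin q → ℤ)), Function.Injective θ ∧
    (∀ y : I ⊕ Fin q → ℤ, ∃ t : ℤ, t ≠ 0 ∧ t • y ∈ θ.range) ∧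
    ∀ i, θ (d i) = Pi.single (Sum.inl i) (N : ℤ)

/-! ### products of Fermat curves -/

/-- FR1 (150 lines), strata of products of Fermat curves. PROOF. Induction on the number of elements of `U` and of `Z`. (a) `v ∈ U ∩ Z`: `C` is trivial (`empty`). (b) `v ∈ Z`, `v ∉ U`: let
`d`, `d'` be `c`, `c'` with the coefficient of the variable `v` replaced by zero. A universal algebra `C₁` for `ferm N d d'`, `U`, `Z \ {v}` (`EXU`) is isomorphic to `C[X]`
(`C[X]` is universal: the variable `v` does not occur in `ferm N d d'`), `P C₁` by induction, so `P C` (`unline`). (c) `v ∈ U`, `v ∉ Z`: let `A` be universal for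
`U \ {v}`, `Z` (`EXU`); `A ⧸ (φ v)` is universal for `U \ {v}`, `insert v Z` and `Localization.Away (φ v)` for `U`, `Z` (`Univ.quotient`, `Univ.localization` in
`Pool/Agent/FMO/STR.lean`): `Clo.cls0.opn`. (`U = Z = ∅`: `Fermat`, `UNI`, `UNQ`.) For the termination: first `Z` with `U = ∅`, then `U`, with all `Z`, `c`, `c'`. -/
def S_FR1 : Prop := ∀ (k : Type) [Field k] (P : Var k → Prop), LFQ.Clo P → ∀ (N m : ℕ), 0 < N →
  (∀ X, Fermat N m X → P X) → ∀ (M : ℕ) (c c' : Fin M → k), Nat.card {j // c j * c' j ≠ 0} ≤ m →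
  ∀ (U Z : Set (Fin (M + M))) (C : Type) [CommRing C] [Algebra k C] [Algebra.FiniteType k C]
  (φ : Fin (M + M) → C), Univ (ferm N c c') U Z C φ → P (sp k C)

def M_FR1 : Prop := S_EXU → S_UNQ → S_FR1

/-- FR2 (150 lines), the universal algebra for a group with the relations of Fermat curves. PROOF. Let `M = M₃ + M₂` and `c̃ = (c, d)`, `c̃' = (c', 0)`, `A` universal for
`ferm N c̃ c̃'`, `U = univ`, `Z = ∅` (`EXU`), `P A` by `FR1`, and `P` of the Laurent polynomial ring `A[z_1^(±1), ..., z_q^(±1)]` (`FMO.LAU`). The Laurent polynomial ring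
`C[y_1^(±1), ..., y_(M₂)^(±1)]` is isomorphic to it (both are universal for the characters of `ℤ ^ (2 M₃ + 2 M₂ + q)` with the same relations), and `P` descends from it to `C` by
`GMD` (`M₂` times). -/
def S_FR2 : Prop := ∀ (k : Type) [Field k] (P : Var k → Prop), LFQ.Clo P → ∀ (N m : ℕ), 0 < N →
  (∀ X, Fermat N m X → P X) → ∀ (M₃ M₂ q : ℕ), M₃ ≤ m → ∀ (c c' : Fin M₃ → k) (d : Fin M₂ → k)
  (C : Type) [CommRing C] [Algebra k C] [Algebra.FiniteType k C]
  (χ : Multiplicative (((Fin M₃ ⊕ Fin M₃) ⊕ Fin M₂) ⊕ Fin q → ℤ) →* Cˣ),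
  GU (J := Fin M₃ ⊕ Fin M₂)
    (Sum.elim (fun j => Pi.single (Sum.inl (Sum.inl (Sum.inl j))) (N : ℤ))
      fun j => Pi.single (Sum.inl (Sum.inr j)) (N : ℤ))
    (Sum.elim (fun j => Pi.single (Sum.inl (Sum.inl (Sum.inr j))) (N : ℤ)) fun _ => 0)
    (Sum.elim c d) (Sum.elim c' fun _ => 0) C χ → P (sp k C)

def M_FR2 : Prop := S_EXU → S_GMD → S_CLF → FMO.S_LAU → S_FR1 → S_FR2

/-! ### strata of systems with at most three monomials -/

/-- The exponent as a function on `U`. -/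
def rs {n : ℕ} (U : Set (Fin n)) (α : Fin n →₀ ℕ) : U → ℤ := fun v => (α v : ℤ)

/-- The surviving monomials of the equations: `M₃` equations with three (`α₀`, `α₁`, `α₂`), `M₂` equations with two (`β₀`, `β₁`). -/
structure Srv {k : Type} [Field k] {n r : ℕ} (f : Fin r → MvPolynomial (Fin n) k)
    (U : Set (Fin n)) (M₃ M₂ : ℕ) (j₃ : Fin M₃ → Fin r) (j₂ : Fin M₂ → Fin r)
    (α₀ α₁ α₂ : Fin M₃ → (Fin n →₀ ℕ)) (β₀ β₁ : Fin M₂ → (Fin n →₀ ℕ)) : Prop where
  inj₃ : Function.Injective j₃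
  inj₂ : Function.Injective j₂
  disj : ∀ i l, j₃ i ≠ j₂ l
  mem₃ : ∀ i α, (α ∈ (f (j₃ i)).support ∧ ∀ v, v ∉ U → α v = 0) ↔
    α = α₀ i ∨ α = α₁ i ∨ α = α₂ i
  ne₃ : ∀ i, α₀ i ≠ α₁ i ∧ α₀ i ≠ α₂ i ∧ α₁ i ≠ α₂ i
  mem₂ : ∀ i α, (α ∈ (f (j₂ i)).support ∧ ∀ v, v ∉ U → α v = 0) ↔ α = β₀ i ∨ α = β₁ i
  ne₂ : ∀ i, β₀ i ≠ β₁ i

/-- GUT (200 lines), a stratum. PROOF. `j₃`, `j₂` enumerate the equations with three, two surviving monomials (supported in `U`); no equation has exactly one, because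
`C` is nontrivial. `χ` = the character with `χ(e_v) = φ v` (units). `sat`: `aeval φ (f j) = ∑ c_α χ(α)` over the surviving `α` (the others contain a variable which is zero),
divide by `c_(α₀) χ(α₀)`. `lift`: from `ψ : U → ℤ → Dˣ` get `ψ' v = ψ(e_v)` for `v ∈ U`, `0` otherwise, and `Univ.lift`. `ext`: `Univ.ext` (`φ v = 0` for `v ∉ U`, because `v ∈ Z`). -/
def S_GUT : Prop := ∀ (k : Type) [Field k] (n r : ℕ) (f : Fin r → MvPolynomial (Fin n) k)
  (_ : ∀ j, (f j).support.card ≤ 3) (U Z : Set (Fin n)) (_ : ∀ v, v ∈ U ∨ v ∈ Z) (C : Type)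
  [CommRing C] [Algebra k C] [Nontrivial C] (φ : Fin n → C), Univ f U Z C φ →
  ∃ (M₃ M₂ : ℕ) (j₃ : Fin M₃ → Fin r) (j₂ : Fin M₂ → Fin r) (α₀ α₁ α₂ : Fin M₃ → (Fin n →₀ ℕ))
    (β₀ β₁ : Fin M₂ → (Fin n →₀ ℕ)) (c c' : Fin M₃ → k) (d : Fin M₂ → k)
    (χ : Multiplicative (U → ℤ) →* Cˣ), Srv f U M₃ M₂ j₃ j₂ α₀ α₁ α₂ β₀ β₁ ∧
    GU (J := Fin M₃ ⊕ Fin M₂)
      (Sum.elim (fun i => rs U (α₁ i) - rs U (α₀ i)) fun i => rs U (β₁ i) - rs U (β₀ i))
      (Sum.elim (fun i => rs U (α₂ i) - rs U (α₀ i)) fun _ => 0)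
      (Sum.elim c d) (Sum.elim c' fun _ => 0) C χ

/-- SDI (150 lines), independence on the strata. PROOF. A linear combination `∑ a_i (α₁ i - α₀ i) + b_i (α₂ i - α₀ i) + ∑ d_i (β₁ i - β₀ i)` is `tot z` on `U` (and zero outside `U`), where
`z (j₃ i)` has the values `- a_i - b_i`, `a_i`, `b_i` at `α₀ i`, `α₁ i`, `α₂ i`, and `z (j₂ i)` the values `- d_i`, `d_i`, and `z j = 0` for the other `j`; `Rel f z`. So `Dels.ind` gives
the linear independence. Torsion: if `t x` is such a combination, extend `x` by zero to `Fin n`; `Dels.exp` gives `z'` with `N x = tot z'`; then `t z'` and `N z` have the same total, so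
`t z' = N z` (`Dels.ind` for the difference), so `z'` is supported in the surviving monomials of the `j₃ i`, `j₂ i`, and gives the combination for `N x`. `M₃` is at most the number of the
equations with three monomials. -/
def S_SDI : Prop := ∀ (k : Type) [Field k] (n r N : ℕ) (f : Fin r → MvPolynomial (Fin n) k)
  (_ : Dels N f) (_ : ∀ j, (f j).support.card ≤ 3) (U : Set (Fin n)) (M₃ M₂ : ℕ)
  (j₃ : Fin M₃ → Fin r) (j₂ : Fin M₂ → Fin r) (α₀ α₁ α₂ : Fin M₃ → (Fin n →₀ ℕ))
  (β₀ β₁ : Fin M₂ → (Fin n →₀ ℕ)), Srv f U M₃ M₂ j₃ j₂ α₀ α₁ α₂ β₀ β₁ →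
  let d : (Fin M₃ ⊕ Fin M₃) ⊕ Fin M₂ → (U → ℤ) :=
    Sum.elim (Sum.elim (fun i => rs U (α₁ i) - rs U (α₀ i)) fun i => rs U (α₂ i) - rs U (α₀ i))
      fun i => rs U (β₁ i) - rs U (β₀ i)
  LinearIndependent ℤ d ∧
    (∀ (x : U → ℤ) (t : ℤ), t ≠ 0 → t • x ∈ Submodule.span ℤ (Set.range d) →
      (N : ℤ) • x ∈ Submodule.span ℤ (Set.range d)) ∧
    M₃ ≤ ∑ j, ((f j).support.card - 2)

/-- ONE (200 lines), one step of the elimination. PROOF. `f j = M₁ + M₂ + g` with terms `M₁`, `M₂` of exponents `α`, `β` (`α ≠ β` in the support) and `g` the rest. In the variables `Fin (n + 1)`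
(`x_i = X (castSucc i)`, `s = X (last n)`): `f' (castSucc j) = s + g`, `f' (castSucc i) = f i` for `i ≠ j`, `f' (last r) = s - M₁ - M₂`. The algebras are isomorphic (`s ↦ M₁ + M₂`). The numbers of monomials:
`card - 1` and `3`. `Dels`: write `z (castSucc j) = (b_s; b_γ)`, `z (last r) = (a_s; a_α, a_β)`. `ind`: the coordinate `s` of `tot z` is `a_s + b_s = 0`, so `a_α + a_β + ∑ b_γ = 0` and
`(a_α, a_β, b_γ)` is a relation for `f j` with the same total: all are zero, then `a_s = b_s = 0`. `exp`: `t x = tot z`, `x = (x', x_s)`, `t x_s = a_s + b_s`; then `t (x' + x_s α)` is the total of `(a_α + t x_s, a_β, b_γ)`, the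
sum of the coefficients is zero, so `N (x' + x_s α)` is the total of some `(a'_α, a'_β, b'_γ)` (and the other equations), and `N x` is the total of `A_α = a'_α - N x_s`, `A_β = a'_β`, `A_s = - A_α - A_β`,
`B_γ = b'_γ`, `B_s = - ∑ B_γ`. -/
def S_ONE : Prop := ∀ (k : Type) [Field k] (n r N : ℕ) (f : Fin r → MvPolynomial (Fin n) k)
  (_ : Dels N f) (j : Fin r) (_ : 4 ≤ (f j).support.card),
  ∃ f' : Fin (r + 1) → MvPolynomial (Fin (n + 1)) k, Dels N f' ∧
    (f' (Fin.castSucc j)).support.card + 1 = (f j).support.card ∧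
    (f' (Fin.last r)).support.card = 3 ∧
    (∀ i, i ≠ j → (f' (Fin.castSucc i)).support.card = (f i).support.card) ∧
    Nonempty ((MvPolynomial (Fin n) k ⧸ Ideal.span (Set.range f)) ≃ₐ[k]
      (MvPolynomial (Fin (n + 1)) k ⧸ Ideal.span (Set.range f')))

/-- THR (60 lines), elimination. PROOF. Induction on `∑ j, (card - 3)`, `ONE`. -/
def S_THR : Prop := ∀ (k : Type) [Field k] (n r N : ℕ) (f : Fin r → MvPolynomial (Fin n) k),
  Dels N f → ∃ (n' r' : ℕ) (f' : Fin r' → MvPolynomial (Fin n') k), Dels N f' ∧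
    (∀ j, (f' j).support.card ≤ 3) ∧
    ∑ j, ((f' j).support.card - 2) = ∑ j, ((f j).support.card - 2) ∧
    Nonempty ((MvPolynomial (Fin n) k ⧸ Ideal.span (Set.range f)) ≃ₐ[k]
      (MvPolynomial (Fin n') k ⧸ Ideal.span (Set.range f')))

def M_THR : Prop := S_ONE → S_THR

/-- DEL (100 lines), systems of Delsarte type. PROOF. `THR` (isomorphic algebra: `Clo.iso`), then `FMO.STR` (with `FMO.UNI`, `CLF`). A stratum `C`: trivial: `empty`; otherwise `GUT`, `SDI`, `LAT` for
`G = (U → ℤ)`, the family `d` and `N` (`q`, `θ`); `C'` universal for `G' = (I ⊕ Fin q → ℤ)` and the relations `θ ∘ u`, `θ ∘ v` (`GUX`), `P C'` by `FR2`, `P C` by `GXT`. -/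
def S_DEL : Prop := ∀ (k : Type) [Field k] (P : Var k → Prop), LFQ.Clo P → FreeCl P →
  ∀ (N m : ℕ), 0 < N → (∀ X, Fermat N m X → P X) → ∀ (n r : ℕ)
  (f : Fin r → MvPolynomial (Fin n) k), Dels N f → ∑ j, ((f j).support.card - 2) ≤ m →
  P (szer k k f)

def M_DEL : Prop := FMO.S_STR → S_CLF → S_THR → S_GUT → S_SDI → S_LAT → S_GUX → S_GXT → S_FR2 →
  S_DEL

/-! ### quadratic forms over a small base, projective varieties, the point -/

/-- QUF (300 lines), a quadratic form over a small base. PROOF. Let `F(I)`, `I` an ideal of `A`, be the statement for the base `A ⧸ I` (the form with coefficients in `A ⧸ I`); noetherian induction on `I`; as for the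
quadratic forms over a base in `Pool/Agent/QCV`, `Pool/Agent/LFQ` (`Cls1`, search `Cls1`, `gen`, `gram` there). Reduce to `A ⧸ I` a domain `D` with fraction field `K` (nilpotents: `LFQ.Clo.red`; several minimal primes: cut
`Spec` by an element which is in all minimal primes but one). Diagonalise the form over `K` (`2 ≠ 0`): after a linear change of the variables, defined and invertible over `D_s`, `s ≠ 0`, it is `∑ a_i x_i ^ 2`, `i < r`,
`a_i` units of `D_s`, `r` the rank; the closed part `s = 0` of `Spec D` by induction (`Clo.cls0.glue`). `P (sp k D_s)` holds because all residue fields have `Φ`. `r = 2 h` even: at every prime `q` of `D_s` the rank is also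
`r`, the number `(-1) ^ (r / 2) d` in `Disc` is `(-1) ^ h ∏ a_i` times a square (principal minors of size the rank of a symmetric matrix are equal up to squares), so all residue fields of
`D_s[t] / (t ^ 2 - b)`, `b = (-1) ^ h ∏ a_i`, have `Φ`: `P (sdbl ..)`. `QU1`, and `LFQ.Clo.poly` for the variables which do not occur. -/
def S_QUF : Prop := ∀ (k : Type) [Field k], (2 : k) ≠ 0 → ∀ P : Var k → Prop, LFQ.Clo P →
  ∀ Φ : ∀ (F : Type) [Field F] [Algebra k F], Prop, Inv k Φ → (∀ X, Res Φ X → P X) →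
  ∀ (A : Type) [CommRing A] [Algebra k A] [Algebra.FiniteType k A] (n : ℕ)
    (f : MvPolynomial (Fin n) A), f.IsHomogeneous 2 → (∀ q, Good Φ f q) →
    P (szer k A fun _ : Fin 1 => f)

def M_QUF : Prop := FMO.S_RES → S_QU1 → S_QUF

/-- PRR (20 lines): as `PRO`, over a base `A`. -/
def S_PRR : Prop := ∀ (k : Type) [Field k] (P : Var k → Prop), LFQ.Clo P → ∀ (A : Type)
  [CommRing A] [Algebra k A] [Algebra.FiniteType k A] (n : ℕ) (ι : Type)
  (f : ι → MvPolynomial (Fin (n + 1)) A), Hom f → P (sp k A) → P (szer k A f) →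
    ∀ X : Var k, PSub k f X → P X

/-- PNT (30 lines): the point is isomorphic to the variety without equations in `𝔸 ^ 0`. -/
def S_PNT : Prop := ∀ (k : Type) [Field k] (N m : ℕ), Bld (Fermat N m) (sp k k)

/-- FAM (60 lines): assembly of the families. -/
def S_FAM : Prop := ∀ (k : Type) [Field k], Families k

def M_FAM : Prop := S_CLB → S_PRR → S_CUR → S_PNT → S_MIX → S_DEL → S_QUF → S_EQS → S_FAM

end Pool.Agent.FMQ
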