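import Pool.Agent.FMO.UNI
import Pool.Agent.FMQ.St2

/-!
# Project FMQ, module DEL: systems of Delsarte type
-/

set_option autoImplicit false

open CategoryTheory AlgebraicGeometry Polynomial Multiplicative

namespace Pool.Agent.FMQ

open Pool.Agent.Lib_helper55.Beil (Var)
open UQ (Pt Mo di gp im IDim DimLE sp spol sdbl sdia sas squo szer cone PSub Units)
open FMO (At Sm Comp CompX Hom Act Add Few Univ Kp Inv val)

theorem t_DEL : M_DEL := by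
  intro STR CLF THR GUT SDI LAT GUX GXT FR2 k _ P hP hF N m hN hX n r f hd hm
  have hC := CLF k P hP
  obtain ⟨n', r', f', hd', h3, hs, ⟨e⟩⟩ := THR k n r N f hd
  refine hC.iso e.symm ?_
  refine STR k (fun A [CommRing A] [Algebra k A] [Algebra.FiniteType k A] => P (sp k A)) hC
    (Fin n') (Fin r') f' ?_ _ _ (FMO.t_UNI k (Fin n') (Fin r') f')
  intro U Z hUZ C _ _ _ φ hU
  rcases subsingleton_or_nontrivial C with hc | hc
  · exact hC.triv C hc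
  obtain ⟨M₃, M₂, j₃, j₂, α₀, α₁, α₂, β₀, β₁, c, c', d, χ, hsrv, hgu⟩ :=
    GUT k n' r' f' h3 U Z hUZ C φ hU
  obtain ⟨hli, htor, hle⟩ := SDI k n' r' N f' hd' h3 U M₃ M₂ j₃ j₂ α₀ α₁ α₂ β₀ β₁ hsrv
  obtain ⟨q, θ, hinj, hfin, hθ⟩ := LAT (U → ℤ) ((Fin M₃ ⊕ Fin M₃) ⊕ Fin M₂) _ N hN hli htor
  have hfg : AddGroup.FG (((Fin M₃ ⊕ Fin M₃) ⊕ Fin M₂) ⊕ Fin q → ℤ) :=
    Module.Finite.iff_addGroup_fg.1 inferInstance
  obtain ⟨C', i1, i2, i3, χ', hgu'⟩ := (GUX k (((Fin M₃ ⊕ Fin M₃) ⊕ Fin M₂) ⊕ Fin q → ℤ)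
    (Fin M₃ ⊕ Fin M₂)
    (fun j => θ (Sum.elim (fun i => rs U (α₁ i) - rs U (α₀ i))
      (fun i => rs U (β₁ i) - rs U (β₀ i)) j))
    (fun j => θ (Sum.elim (fun i => rs U (α₂ i) - rs U (α₀ i)) (fun _ => 0) j))
    (Sum.elim c d) (Sum.elim c' fun _ => 0)).1 hfg
  refine GXT k P hP hF (U → ℤ) (((Fin M₃ ⊕ Fin M₃) ⊕ Fin M₂) ⊕ Fin q → ℤ) hfg θ hinj hfin
    (Fin M₃ ⊕ Fin M₂) _ _ _ _ C χ hgu C' χ' hgu' ?_
  refine FR2 k P hP N m hN hX M₃ M₂ q ?_ c c' d C' χ' ?_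
  · exact hle.trans (hs.le.trans hm)
  · have hu : (fun j => θ (Sum.elim (fun i => rs U (α₁ i) - rs U (α₀ i))
        (fun i => rs U (β₁ i) - rs U (β₀ i)) j)) =
        (Sum.elim (fun j => Pi.single (Sum.inl (Sum.inl (Sum.inl j))) (N : ℤ))
          fun j => Pi.single (Sum.inl (Sum.inr j)) (N : ℤ) :
          Fin M₃ ⊕ Fin M₂ → (((Fin M₃ ⊕ Fin M₃) ⊕ Fin M₂) ⊕ Fin q → ℤ)) := by
      funext j
      rcases j with j | j
      · exact hθ (Sum.inl (Sum.inl j))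
      · exact hθ (Sum.inr j)
    have hv : (fun j => θ (Sum.elim (fun i => rs U (α₂ i) - rs U (α₀ i)) (fun _ => 0) j)) =
        (Sum.elim (fun j => Pi.single (Sum.inl (Sum.inl (Sum.inr j))) (N : ℤ)) fun _ => 0 :
          Fin M₃ ⊕ Fin M₂ → (((Fin M₃ ⊕ Fin M₃) ⊕ Fin M₂) ⊕ Fin q → ℤ)) := by
      funext j
      rcases j with j | j
      · exact hθ (Sum.inl (Sum.inr j))
      · exact map_zero θ
    rw [hu, hv] at hgu'
    exact hgu'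

end Pool.Agent.FMQ
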