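import Pool.Agent.FMO.Defs2
import Pool.Agent.LFQ.Defs

/-!
# Few monomials and quadratic equations (project FMQ, MP_cb388a_ag): the language of the final statement

Varieties and the systems of quadratic forms are defined in `Pool/Agent/UQ/Defs.lean`, systems with few
monomials in `Pool/Agent/FMO/Defs.lean` and `Pool/Agent/FMO/Defs2.lean`, homology theories and the property
`T.FG X` (all homology groups of `X` are finitely generated) in `Pool/Agent/LFQ/Defs.lean`.
-/

set_option autoImplicit false

open CategoryTheory AlgebraicGeometry Polynomial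

namespace Pool.Agent.FMQ

open Pool.Agent.Lib_helper55.Beil (Var)
open UQ (Pt Mo di gp im IDim DimLE sp spol sdbl sdia sas squo szer cone PSub Units)
open FMO (At Sm Comp CompX Hom Act Add Few Kp val)
open LFQ (BM SPj Fam Zp)

universe v

variable {k : Type} [Field k]

/-! ## The class of varieties built from a given class -/

/-- The class of varieties over `k` which is built from the varieties with the property `B`. -/
inductive Bld (B : Var k → Prop) : Var k → Prop
  /-- the varieties with the property `B` -/
  | base (X : Var k) : B X → Bld B X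
  /-- the empty variety -/
  | empty (X : Var k) : IsEmpty (Pt X) → Bld B X
  /-- isomorphic varieties -/
  | iso {X Y : Var k} (f : Mo X Y) : IsIso f.g → Bld B X → Bld B Y
  /-- `X` is the disjoint union of the closed subvariety `Z` and the open subvariety `U` -/
  | paste {Z U X : Var k} (a : Mo Z X) (j : Mo U X) : UQ.Comp a j → Bld B Z → Bld B U → Bld B X
  /-- the complement `U` of the closed subvariety `Z` of `X` -/
  | cut {Z U X : Var k} (a : Mo Z X) (j : Mo U X) : UQ.Comp a j → Bld B X → Bld B Z → Bld B U
  /-- the complement `Z` of the open subvariety `U` of `X` -/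
  | third {Z U X : Var k} (a : Mo Z X) (j : Mo U X) : UQ.Comp a j → Bld B X → Bld B U → Bld B Z
  /-- the product with the affine line -/
  | line (A : Type) [CommRing A] [Algebra k A] [Algebra.FiniteType k A] :
      Bld B (sp k A) → Bld B (spol k A)
  /-- descent from the product `Y` of `X` and the affine line to `X` -/
  | unline {Y X : Var k} (q : Mo Y X) : q.Line → Bld B Y → Bld B X
  /-- descent along the double cover `Spec A[t] / (t ^ 2 + b t + c) → Spec A` -/
  | cover (A : Type) [CommRing A] [Algebra k A] [Algebra.FiniteType k A] (b c : A) :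
      Bld B (sdbl k A b c) → Bld B (sp k A)
  /-- descent along a finite free covering `Spec C → Spec A` -/
  | free (A C : Type) [CommRing A] [Algebra k A] [Algebra.FiniteType k A] [CommRing C]
      [Algebra k C] [Algebra.FiniteType k C] [Algebra A C] [IsScalarTower k A C]
      [Module.Free A C] [Module.Finite A C] : 0 < Module.finrank A C →
      Bld B (sp k C) → Bld B (sp k A)
  /-- descent along the finite etale covering `V → U` of an integral variety -/
  | etale {V U : Var k} (f : Mo V U) : f.Et → IsIntegral U.X → Bld B V → Bld B U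
  /-- the base `X` of a line bundle `Y → X`, if the complement `U` of the section `s` belongs to the
  class -/
  | bundle {Y X U : Var k} (q : Mo Y X) (s : Mo X Y) (j : Mo U Y) :
      q.Bun → s.g ≫ q.g = 𝟙 X.X → UQ.Comp s j → Bld B U → Bld B X
  /-- the quadric cone `a_0 x_0 ^ 2 + ... + a_2m x_2m ^ 2 = 0` over `Spec A`, where the `a_j` are
  units of `A` -/
  | odd (A : Type) [CommRing A] [Algebra k A] [Algebra.FiniteType k A] (m : ℕ)
      (a : Fin (2 * m + 1) → A) : Units a → Bld B (sp k A) → Bld B (cone k A a)
  /-- the quadric cone `a_0 x_0 ^ 2 + ... + a_(2m-1) x_(2m-1) ^ 2 = 0` over `Spec A`, where the `a_j` are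
  units of `A`, if the double cover `t ^ 2 = (-1) ^ m a_0 ... a_(2m-1)` of `Spec A` belongs to the class
  (characteristic different from two) -/
  | even (A : Type) [CommRing A] [Algebra k A] [Algebra.FiniteType k A] (m : ℕ)
      (a : Fin (2 * m) → A) : (2 : k) ≠ 0 → Units a → Bld B (sdia k A m a) → Bld B (cone k A a)
  /-- the subvariety `f_0 = ... = f_m = 0` of `Spec A`, if the hypersurface
  `y ^ 2 - y = t_0 f_0 + ... + t_m f_m` in the product with the affine space of dimension `m + 2`
  belongs to the class -/
  | zeros (A : Type) [CommRing A] [Algebra k A] [Algebra.FiniteType k A] (m : ℕ)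
      (f : Fin (m + 1) → A) : Bld B (sas k A f) → Bld B (squo k A f)

/-- All residue fields of `X` have the property `Φ`. -/
def Res (Φ : ∀ (F : Type) [Field F] [Algebra k F], Prop) (X : Var k) : Prop :=
  ∀ x : Pt X, At Φ X x

/-! ## Systems of equations -/

/-- All polynomials are terms (or zero). -/
def Terms {n r : ℕ} (a : Fin r → MvPolynomial (Fin n) k) : Prop := ∀ j, (a j).support.card ≤ 1

/-- The polynomial `∑ a_j x_j ^ (e_j) + c`, where `a_j` and `c` are polynomials in `y_1, ..., y_n`. -/
noncomputable def add {n r : ℕ} (a : Fin r → MvPolynomial (Fin n) k) (e : Fin r → ℕ)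
    (c : MvPolynomial (Fin n) k) : MvPolynomial (Fin (n + r)) k :=
  ∑ j, MvPolynomial.rename (Fin.castAdd r) (a j) * MvPolynomial.X (Fin.natAdd n j) ^ e j +
    MvPolynomial.rename (Fin.castAdd r) c

/-- The system `f_i(y) = 0`, `∑ a_j(y) x_j ^ (e_j) + c(y) = 0` in the variables
`y_1, ..., y_n, x_1, ..., x_r`. -/
noncomputable def sys {n r : ℕ} {ι : Type} (f : ι → MvPolynomial (Fin n) k)
    (a : Fin r → MvPolynomial (Fin n) k) (e : Fin r → ℕ) (c : MvPolynomial (Fin n) k) :
    ι ⊕ Unit → MvPolynomial (Fin (n + r)) k :=
  Sum.elim (fun i => MvPolynomial.rename (Fin.castAdd r) (f i)) fun _ => add a e c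

/-- `z` assigns an integer to every monomial of every equation; the sum is zero for every equation. -/
def Rel {n r : ℕ} (f : Fin r → MvPolynomial (Fin n) k) (z : Fin r → (Fin n →₀ ℕ) →₀ ℤ) : Prop :=
  (∀ j, ∀ α, z j α ≠ 0 → α ∈ (f j).support) ∧ ∀ j, ((z j).sum fun _ c => c) = 0

/-- The sum of the exponents, with the coefficients `z`. -/
noncomputable def tot {n r : ℕ} (z : Fin r → (Fin n →₀ ℕ) →₀ ℤ) : Fin n → ℤ :=
  fun i => ∑ j, (z j).sum fun α c => c * (α i : ℤ)

/-- A system of Delsarte type, of exponent `N`: the exponents of the equations are affinely independent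
(all differences of two exponents of one equation together), and the torsion of the group `ℤ ^ n`
modulo these differences is killed by `N`. -/
structure Dels (N : ℕ) {n r : ℕ} (f : Fin r → MvPolynomial (Fin n) k) : Prop where
  ind : ∀ z, Rel f z → tot z = 0 → z = 0
  exp : ∀ (x : Fin n → ℤ) (t : ℤ), t ≠ 0 → (∃ z, Rel f z ∧ t • x = tot z) →
    ∃ z, Rel f z ∧ (N : ℤ) • x = tot z

/-- The equations `1 + c_j x_j ^ N + c'_j y_j ^ N = 0`. -/
noncomputable def ferm (N : ℕ) {M : ℕ} (c c' : Fin M → k) : Fin M → MvPolynomial (Fin (M + M)) k :=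
  fun j => 1 + MvPolynomial.C (c j) * MvPolynomial.X (Fin.castAdd M j) ^ N +
    MvPolynomial.C (c' j) * MvPolynomial.X (Fin.natAdd M j) ^ N

/-- `X` is a product of at most `m` affine Fermat curves `1 + c x ^ N + c' y ^ N = 0`, `c c' ≠ 0`, and of
lines and finite sets (the equations `1 + c x ^ N + c' y ^ N = 0` with `c c' = 0`). -/
def Fermat (N m : ℕ) (X : Var k) : Prop :=
  ∃ (M : ℕ) (c c' : Fin M → k), Nat.card {j // c j * c' j ≠ 0} ≤ m ∧ X = szer k k (ferm N c c')

/-- `F` is obtained from `K` by the adjunction of a square root of `b`. -/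
def Root {K : Type} [Field K] (b : K) (F : Type) [Field F] [Algebra K F] : Prop :=
  ∃ t : F, t ^ 2 = algebraMap K F b ∧ IntermediateField.adjoin K {t} = ⊤

/-- The matrix `G` over the field `K` has odd rank, or a principal minor `d ≠ 0` of size the rank `r`,
such that `K` with a square root of `(-1) ^ (r / 2) d` has the property `Φ`. -/
def Disc (Φ : ∀ (F : Type) [Field F] [Algebra k F], Prop) {K : Type} [Field K] [Algebra k K] {n : ℕ}
    (G : Matrix (Fin n) (Fin n) K) : Prop :=
  Odd G.rank ∨ ∃ s : Finset (Fin n), s.card = G.rank ∧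
    (G.submatrix (fun i : s => i.1) fun i : s => i.1).det ≠ 0 ∧
    ∀ (F : Type) [Field F] [Algebra k F] [Algebra K F] [IsScalarTower k K F],
      Root ((-1) ^ (G.rank / 2) * (G.submatrix (fun i : s => i.1) fun i : s => i.1).det) F → Φ F

/-- The residue field of `A` at `q` has the property `Φ`, and so has the discriminant double cover of the
quadratic form `f` at `q`, if the rank is even. -/
def Good (Φ : ∀ (F : Type) [Field F] [Algebra k F], Prop) {A : Type} [CommRing A] [Algebra k A]
    {n : ℕ} (f : MvPolynomial (Fin n) A) (q : PrimeSpectrum A) : Prop :=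
  Φ (Kp q) ∧ Disc Φ ((UQ.gram f).map (val q))

/-- Families of varieties in the classes built from `B`. -/
structure Families (k : Type) [Field k] : Prop where
  /-- the class built from the varieties of dimension at most `d` in `UQ/Defs.lean` -/
  member : ∀ (d : ℕ) (B : Var k → Prop), (∀ X, DimLE X d → B X) → ∀ X, UQ.Member k d X → Bld B X
  /-- the point -/
  point : ∀ B : Var k → Prop, (∀ X, DimLE X 0 → B X) → Bld B (sp k k)
  fermat : ∀ N m : ℕ, Bld (Fermat N m) (sp k k)
  /-- homogeneous systems over `A`: from the affine to the projective zero set -/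
  proj : ∀ (B : Var k → Prop) (A : Type) [CommRing A] [Algebra k A] [Algebra.FiniteType k A]
    (n : ℕ) (ι : Type) (f : ι → MvPolynomial (Fin (n + 1)) A), Hom f → Bld B (sp k A) →
    Bld B (szer k A f) → ∀ X : Var k, PSub k f X → Bld B X
  /-- curves -/
  curves : ∀ m : ℕ, 1 ≤ m → ∀ X : Var k, DimLE X 1 → CompX m X
  /-- equations with at most two monomials, and `m` equations with three -/
  few : ∀ (m n : ℕ) (ι : Type) (f : ι → MvPolynomial (Fin n) k), Few m f → Add m f
  /-- one equation with at most `m + 2` monomials -/
  mono : ∀ (m n : ℕ) (p : MvPolynomial (Fin n) k), p.support.card ≤ m + 2 →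
    Add m fun _ : Fin 1 => p
  /-- systems of equations with `m` additional additions -/
  eqs : ∀ m : ℕ, 1 ≤ m → ∀ (n : ℕ) (ι : Type) (f : ι → MvPolynomial (Fin n) k), Add m f →
    Bld (CompX m) (szer k k f)
  /-- in addition one equation `∑ a_j(y) x_j ^ (e_j) + c(y) = 0`, where the `a_j` and `c` are terms and
  `e_j` is one or two, with any number of new variables `x_j` -/
  mix : (2 : k) ≠ 0 → ∀ m : ℕ, 1 ≤ m → ∀ (n r : ℕ) (ι : Type) (f : ι → MvPolynomial (Fin n) k)
    (a : Fin r → MvPolynomial (Fin n) k) (e : Fin r → ℕ) (c : MvPolynomial (Fin n) k), Add m f →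
    Terms a → c.support.card ≤ 1 → (∀ j, 1 ≤ e j ∧ e j ≤ 2) →
    Bld (CompX m) (szer k k (sys f a e c))
  /-- systems of Delsarte type -/
  dels : ∀ N : ℕ, 0 < N → ∀ (m n r : ℕ) (f : Fin r → MvPolynomial (Fin n) k), Dels N f →
    ∑ j, ((f j).support.card - 2) ≤ m → Bld (Fermat N m) (szer k k f)
  /-- a quadratic form over an affine variety, the points of which are small, with small discriminant
  double covers -/
  quad : (2 : k) ≠ 0 → ∀ Φ : ∀ (F : Type) [Field F] [Algebra k F], Prop, FMO.Inv k Φ → ∀ (A : Type)
    [CommRing A] [Algebra k A] [Algebra.FiniteType k A] (n : ℕ) (f : MvPolynomial (Fin n) A),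
    f.IsHomogeneous 2 → (∀ q, Good Φ f q) → Bld (Res Φ) (szer k A fun _ : Fin 1 => f)
  /-- affine varieties with an action of a torus -/
  act : ∀ Φ : ∀ (F : Type) [Field F] [Algebra k F], Prop, FMO.Inv k Φ → ∀ (n r : ℕ)
    (w : Fin n → (Fin r → ℤ)) (ι : Type) (f : ι → MvPolynomial (Fin n) k), Act Φ w f →
    Bld (Res Φ) (szer k k f)

/-! ## Finite generation -/

section

variable {Λ : Type} [CommRing Λ] (T : BM.{v} k Λ)

/-- Every integral surface is birationally equivalent to a smooth projective surface (Abhyankar). -/
def Resol (k : Type) [Field k] : Prop :=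
  ∀ U : Var k, IDim U 2 → ∃ (U' Y : Var k) (a : Mo U' U) (b : Mo U' Y),
    a.Op ∧ b.Op ∧ Nonempty (Pt U') ∧ SPj Y 2

/-- Finite generation for the smooth projective surfaces whose function field has the property `Φ`. -/
def SurfFG (Φ : ∀ (F : Type) [Field F] [Algebra k F], Prop) : Prop :=
  ∀ (Y : Var k) (h : IsIntegral Y.X), SPj Y 2 → At Φ Y (gp Y h) → T.FG Y

/-- The projection `Spec C → Spec A`. -/
noncomputable def fm (k : Type) [Field k] (A C : Type) [CommRing A] [Algebra k A]
    [Algebra.FiniteType k A] [CommRing C] [Algebra k C] [Algebra.FiniteType k C] [Algebra A C]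
    [IsScalarTower k A C] : Mo (sp k C) (sp k A) where
  g := Spec.map (CommRingCat.ofHom (algebraMap A C))
  comm := by
    change Spec.map _ ≫ Spec.map _ = Spec.map _
    rw [← Spec.map_comp, ← CommRingCat.ofHom_comp, IsScalarTower.algebraMap_eq k A C]

/-- The push-forward of the pull-back along a free covering of degree `D` of affine varieties is the
multiplication by `D`. -/
def FreeT : Prop := ∀ (i n : ℤ) (A C : Type) [CommRing A] [Algebra k A] [Algebra.FiniteType k A]
  [CommRing C] [Algebra k C] [Algebra.FiniteType k C] [Algebra A C] [IsScalarTower k A C]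
  [Module.Free A C] [Module.Finite A C] (m : T.H i n (sp k A)),
  T.P (fm k A C) (T.R (fm k A C) m) = (Module.finrank A C : Λ) • m

/-- The results for a homology theory. -/
structure Built : Prop where
  /-- finite generation extends from `B` to the class built from `B` -/
  bld : ∀ B : Var k → Prop, (∀ X, B X → T.FG X) → ∀ X, Bld B X → T.FG X
  /-- finite generation for varieties with small residue fields -/
  small : ∀ Φ : ∀ (F : Type) [Field F] [Algebra k F], Prop, FMO.Inv k Φ → Resol k → SurfFG T Φ →
    ∀ X, Bld (Res (Sm Φ)) X → T.FG X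
  /-- finite generation for the class built from the varieties whose residue fields are contained in
  composita of two fields of transcendence degree at most one -/
  two : Resol k → SurfFG T (fun F [Field F] [Algebra k F] => Comp k 2 F) →
    ∀ X, Bld (CompX 2) X → T.FG X

end

section

variable {ℓ : Nat.Primes} {T : BM.{v} k (Zp ℓ)} (F : Fam k ℓ T)

/-- The question `Q1` for the smooth projective varieties in the classes built from `B`. -/
structure LBuilt : Prop where
  /-- the class built from varieties with finitely generated homology -/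
  bld : ∀ B : Var k → Prop, (∀ X, B X → T.FG X) → ∀ (Y : Var k) (d : ℕ) (hY : SPj Y d), Bld B Y →
    F.L hY
  /-- the class built from the varieties whose residue fields are contained in composita of two fields of
  transcendence degree at most one, if `Q1` holds for the surfaces among them -/
  two : Resol k → (∀ (Y : Var k) (h : IsIntegral Y.X) (hY : SPj Y 2),
    At (fun F [Field F] [Algebra k F] => Comp k 2 F) Y (gp Y h) → F.L hY) →
    (∀ X, Bld (CompX 2) X → T.FG X) ∧
    ∀ (Y : Var k) (d : ℕ) (hY : SPj Y d), Bld (CompX 2) Y → F.L hY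

end

end Pool.Agent.FMQ
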