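import Pool.Agent.FMO.St2
import Pool.Agent.FMQ.Defs
import Pool.Agent.LFQ.Clo

/-!
# Few monomials and quadratic equations (project FMQ, MP_cb388a_ag, architect helper67): statements

Every statement `S_XXX` is a module: `theorem t_XXX : S_XXX` (or `M_XXX : S_YYY → ... → S_XXX`) in
`Pool/Agent/FMQ/XXX.lean`, import `Pool.Agent.FMQ.St`, auxiliary lemmas in namespace `Pool.Agent.FMQ.XXXAux`.
-/

set_option autoImplicit false

open CategoryTheory AlgebraicGeometry Polynomial

namespace Pool.Agent.FMQ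

open Pool.Agent.Lib_helper55.Beil (Var)
open UQ (Pt Mo di gp im IDim DimLE sp spol sdbl sdia sas squo szer cone PSub Units)
open FMO (At Sm Comp CompX Hom Act Add Few Univ Kp Inv val)
open LFQ (BM SPj Fam Zp)

universe v

/-! ### the class -/

/-- Descent along finite free coverings of affine varieties. -/
def FreeCl {k : Type} [Field k] (P : Var k → Prop) : Prop := ∀ (A C : Type) [CommRing A] [Algebra k A]
  [Algebra.FiniteType k A] [CommRing C] [Algebra k C] [Algebra.FiniteType k C] [Algebra A C]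
  [IsScalarTower k A C] [Module.Free A C] [Module.Finite A C], 0 < Module.finrank A C →
  P (sp k C) → P (sp k A)

/-- CLO (60 lines), the class. PROOF. Induction on `Bld B X`; convert each constructor to the language of `LFQ.Clo` as in `UQ.member_to`
(`Pool/Agent/UQ/Geo.lean`) and in `Pool/Agent/FMO/CLA.lean`. -/
def S_CLO : Prop := ∀ (k : Type) [Field k] (P : Var k → Prop), LFQ.Clo P → FreeCl P →
  ∀ B : Var k → Prop, (∀ X, B X → P X) → ∀ X, Bld B X → P X

/-- FRE (30 lines), finitely generated homology descends along free coverings. PROOF. As `LFQ.fg_etale` (`Pool/Agent/LFQ/H_BAS.lean`). -/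
def S_FRE : Prop := ∀ (k Λ : Type) [Field k] [CommRing Λ] [IsNoetherianRing Λ] (T : BM.{v} k Λ),
  T.Pub → FreeT T → FreeCl T.FG

/-- CLB (120 lines), the class has the closure properties. PROOF. Each field is a constructor of `Bld`, with the conversions `UQ.ofCl`, `UQ.ofOp`,
`UQ.ofLine`, `UQ.ofEt`, `UQ.ofBun`, `UQ.ofIso`, `UQ.comp_of`, ... of `Pool/Agent/UQ/Geo.lean` (compare `UQ.member_of` there). `zeros`: `UQ.sas_iso`. -/
def S_CLB : Prop := ∀ (k : Type) [Field k] (B : Var k → Prop), LFQ.Clo (Bld B)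

/-- CLF (20 lines): the closure properties of `Pool/Agent/FMO/Defs.lean` (`LFQ.Clo.cls0`, `LFQ.Clo.line`; the structures `QCV.Strat` and `FMO.Strat` are the
same). -/
def S_CLF : Prop := ∀ (k : Type) [Field k] (P : Var k → Prop), LFQ.Clo P →
  FMO.Clo k fun A [CommRing A] [Algebra k A] [Algebra.FiniteType k A] => P (sp k A)

/-- PRO (60 lines), projective varieties. PROOF. `LFQ.cone_iff`, first direction (it uses only `Clo`; `LFQ.same_range`, `QCV.Asm.s_BCO`), `R = k`;
`UQ.psub_iff`. -/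
def S_PRO : Prop := ∀ (k : Type) [Field k] (P : Var k → Prop), LFQ.Clo P → P (sp k k) →
  ∀ (n : ℕ) (ι : Type) (f : ι → MvPolynomial (Fin (n + 1)) k), Hom f → P (szer k k f) →
    ∀ X : Var k, PSub k f X → P X

/-- CUR (30 lines): `CIN` (`UQ.di` is the transcendence degree of the residue field), `DimLE (sp k k) 0`. -/
def S_CUR : Prop := ∀ (k : Type) [Field k], DimLE (sp k k) 0 ∧
  ∀ m : ℕ, 1 ≤ m → ∀ X : Var k, DimLE X 1 → CompX m X

def M_CUR : Prop := FMO.S_CIN → S_CUR

/-- BSF (200 lines), varieties with small residue fields. PROOF. As `Pool/Agent/FMO/BAS.lean` (copy it), with a property `P` with `LFQ.Clo P` in the place of `PF`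
(easier: only `paste`, `cut`, `iso`, `empty`, `red`). -/
def S_BSF : Prop := ∀ (k : Type) [Field k] [Finite k] (P : Var k → Prop), LFQ.Clo P →
  (∀ X, DimLE X 1 → P X) → ∀ Φ : ∀ (F : Type) [Field F] [Algebra k F], Prop, Inv k Φ → Resol k →
  (∀ (Y : Var k) (h : IsIntegral Y.X), SPj Y 2 → At Φ Y (gp Y h) → P Y) →
  ∀ X, Res (Sm Φ) X → P X

def M_BSF : Prop := FMO.S_IMM → FMO.S_SMC → S_BSF

/-! ### partial stratification and universal algebras -/

/-- STM (30 lines), a stratum. PROOF. As in `Pool/Agent/FMO/GEN.lean`. -/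
def S_STM : Prop := ∀ (k : Type) [Field k]
  (P : ∀ (A : Type) [CommRing A] [Algebra k A] [Algebra.FiniteType k A], Prop) (_ : FMO.Clo k P)
  (m : ℕ) (_ : 1 ≤ m)
  (_ : ∀ (A : Type) [CommRing A] [Algebra k A] [Algebra.FiniteType k A],
    (∀ q : PrimeSpectrum A, Comp k m (Kp q)) → P A)
  (V : Type) [Finite V] (ι : Type) (f : ι → MvPolynomial V k), Few m f →
  ∀ U Z : Set V, (∀ v, v ∈ U ∨ v ∈ Z) → ∀ (C : Type) [CommRing C] [Algebra k C]
    [Algebra.FiniteType k C] (φ : V → C), Univ f U Z C φ → P C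

def M_STM : Prop := FMO.S_TOR → FMO.S_FLD → FMO.S_LAU → S_STM

/-- STV (130 lines), stratification by the variables in `W`. PROOF. As `Pool/Agent/FMO/STR.lean`: generalise to `U, Z ⊆ W`, induction on the number of
the `v ∈ W` with `v ∉ U`, `v ∉ Z`. -/
def S_STV : Prop := ∀ (k : Type) [Field k]
  (P : ∀ (A : Type) [CommRing A] [Algebra k A] [Algebra.FiniteType k A], Prop) (_ : FMO.Clo k P)
  (V : Type) [Finite V] (ι : Type) (f : ι → MvPolynomial V k) (W : Set V),
  (∀ (U Z : Set V), U ⊆ W → Z ⊆ W → (∀ v ∈ W, v ∈ U ∨ v ∈ Z) → ∀ (C : Type) [CommRing C]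
    [Algebra k C] [Algebra.FiniteType k C] (φ : V → C), Univ f U Z C φ → P C) →
  ∀ (C : Type) [CommRing C] [Algebra k C] [Algebra.FiniteType k C] (φ : V → C),
    Univ f ∅ ∅ C φ → P C

/-- ELN (60 lines), elimination, with the values of the variables. PROOF. As `Pool/Agent/FMO/ELM.lean`. -/
def S_ELN : Prop := ∀ (k : Type) [Field k] (m n : ℕ) (ι : Type) (f : ι → MvPolynomial (Fin n) k),
  Add m f → ∃ (ι' : Type) (f' : ι' → MvPolynomial (Fin n ⊕ Fin m) k)
    (φ : Fin n ⊕ Fin m → MvPolynomial (Fin n) k ⧸ Ideal.span (Set.range f)),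
    (∀ i, φ (Sum.inl i) = Ideal.Quotient.mk (Ideal.span (Set.range f)) (MvPolynomial.X i)) ∧
    Few m f' ∧ Univ f' ∅ ∅ (MvPolynomial (Fin n) k ⧸ Ideal.span (Set.range f)) φ

/-- EXU (80 lines), existence. PROOF. `A = MvPolynomial V k ⧸ (f_j, X_v, v ∈ Z)`, `C = Localization.Away (∏ v ∈ U, X_v)` (or: repeat the two constructions
`Univ.quotient`, `Univ.localization` used in `Pool/Agent/FMO/STR.lean`, starting with `FMO.t_UNI`, by induction on `Z` and on `U`). -/
def S_EXU : Prop := ∀ (k : Type) [Field k] (V : Type) [Finite V] (ι : Type)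
  (f : ι → MvPolynomial V k) (U Z : Set V), ∃ (C : Type) (_ : CommRing C) (_ : Algebra k C)
    (_ : Algebra.FiniteType k C) (φ : V → C), Univ f U Z C φ

/-- UNQ (40 lines), uniqueness and change of the names of the variables. -/
def S_UNQ : Prop := ∀ (k : Type) [Field k],
  (∀ (V ι : Type) (f : ι → MvPolynomial V k) (U Z : Set V) (C D : Type) [CommRing C] [Algebra k C]
    [CommRing D] [Algebra k D] (φ : V → C) (ψ : V → D), Univ f U Z C φ → Univ f U Z D ψ →
    ∃ e : C ≃ₐ[k] D, ∀ v, e (φ v) = ψ v) ∧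
  ∀ (V V' ι : Type) (s : V ≃ V') (f : ι → MvPolynomial V k) (C : Type) [CommRing C] [Algebra k C]
    (φ : V' → C), Univ (fun j => MvPolynomial.rename s (f j)) ∅ ∅ C φ → Univ f ∅ ∅ C (φ ∘ s)

/-- The polynomial `∑ a_j x_j ^ (e_j) + c`. -/
noncomputable def qd {A : Type} [CommRing A] {r : ℕ} (a : Fin r → A) (e : Fin r → ℕ) (c : A) :
    MvPolynomial (Fin r) A :=
  ∑ j, MvPolynomial.C (a j) * MvPolynomial.X j ^ e j + MvPolynomial.C c

/-- The algebra `A[x_1, ..., x_r] / (∑ a_j x_j ^ (e_j) + c)`. -/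
abbrev Qd {A : Type} [CommRing A] {r : ℕ} (a : Fin r → A) (e : Fin r → ℕ) (c : A) : Type :=
  MvPolynomial (Fin r) A ⧸ Ideal.span {qd a e c}

/-- The system `f`, together with the polynomial `∑ b_j x_j ^ (e_j) + c`. -/
noncomputable def sy {k : Type} [Field k] {V ι : Type} {r : ℕ} (f : ι → MvPolynomial V k)
    (b : Fin r → MvPolynomial V k) (e : Fin r → ℕ) (c : MvPolynomial V k) :
    ι ⊕ Unit → MvPolynomial (V ⊕ Fin r) k :=
  Sum.elim (fun i => MvPolynomial.rename Sum.inl (f i)) fun _ =>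
    ∑ j, MvPolynomial.rename Sum.inl (b j) * MvPolynomial.X (Sum.inr j) ^ e j +
      MvPolynomial.rename Sum.inl c

/-- MXV (120 lines), one more equation. PROOF. `sat`, `unit`, `zero` clear; `lift`: from `ψ` get `C₀ → D` (`lift`), then `MvPolynomial.eval₂Hom`, which
vanishes on `qd`; `ext`: `ext` of `C₀` and `MvPolynomial.ringHom_ext`. -/
def S_MXV : Prop := ∀ (k : Type) [Field k] (V ι : Type) (r : ℕ) (f : ι → MvPolynomial V k)
  (b : Fin r → MvPolynomial V k) (e : Fin r → ℕ) (c : MvPolynomial V k) (U Z : Set V) (C : Type)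
  [CommRing C] [Algebra k C] (φ : V → C), Univ f U Z C φ →
  Univ (sy f b e c) (Sum.inl '' U) (Sum.inl '' Z)
    (Qd (fun j => MvPolynomial.aeval φ (b j)) e (MvPolynomial.aeval φ c))
    (Sum.elim (fun v => Ideal.Quotient.mk _ (MvPolynomial.C (φ v)))
      fun j => Ideal.Quotient.mk _ (MvPolynomial.X j))

/-! ### quadrics -/

/-- GMD (60 lines), descent from the product with the multiplicative group. PROOF. `bundle` with the trivial bundle `Spec C[X] → Spec C`, the section
`X = 0` and its complement. Compare the proofs for `LFQ.Clo` / `QCV` (search `bundle` in `Pool/Agent/QCV`, `Pool/Agent/LFQ`). -/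
def S_GMD : Prop := ∀ (k : Type) [Field k] (P : Var k → Prop), LFQ.Clo P → ∀ (C : Type)
  [CommRing C] [Algebra k C] [Algebra.FiniteType k C] (U : Type) [CommRing U] [Algebra k U]
  [Algebra.FiniteType k U] (u : C[X] →ₐ[k] U),
  @IsLocalization.Away _ _ (X : C[X]) U _ u.toRingHom.toAlgebra → P (sp k U) → P (sp k C)

/-- QU1 (60 lines), cones. PROOF. `r` odd: `LFQ.Clo.odd`, `r` even: `LFQ.Clo.even`. -/
def S_QU1 : Prop := ∀ (k : Type) [Field k], (2 : k) ≠ 0 → ∀ P : Var k → Prop, LFQ.Clo P →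
  ∀ (C : Type) [CommRing C] [Algebra k C] [Algebra.FiniteType k C] (r : ℕ) (a : Fin r → C),
  Units a → P (sp k C) →
  (∀ b ∈ Submonoid.closure (insert (-1) (Set.range a)), IsUnit b → P (sdbl k C 0 (-b))) →
  P (sp k (Qd a (fun _ => 2) 0))

/-- QU2 (150 lines), affine quadrics. PROOF. Let `R = C[x]/(∑ a_j x_j ^ 2 + c)`. The cone `S = C[z, x]/(c z ^ 2 + ∑ a_j x_j ^ 2)` is in the class (`QU1`), the
closed part `z = 0` is the cone `∑ a_j x_j ^ 2 = 0` (`QU1`), so the open part `z ≠ 0` is (`LFQ.Clo.cls0.opn`), and it is isomorphic to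
`R[z, z⁻¹]` (`x ↦ z x`): `GMD`. -/
def S_QU2 : Prop := ∀ (k : Type) [Field k], (2 : k) ≠ 0 → ∀ P : Var k → Prop, LFQ.Clo P →
  ∀ (C : Type) [CommRing C] [Algebra k C] [Algebra.FiniteType k C] (r : ℕ) (a : Fin r → C) (c : C),
  Units a → IsUnit c → P (sp k C) →
  (∀ b ∈ Submonoid.closure (insert (-1) (insert c (Set.range a))), IsUnit b →
    P (sdbl k C 0 (-b))) →
  P (sp k (Qd a (fun _ => 2) c))

def M_QU2 : Prop := S_QU1 → S_GMD → S_QU2

/-- QU3 (200 lines), the general case. PROOF. If `a_j` is a unit and `e_j = 1` for some `j`: the algebra is isomorphic to the polynomial ring over `C` in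
the other variables (`LFQ.Clo.poly`). Otherwise let `J` be the set of the `j` with `a_j` a unit; for `j ∈ J` is `e_j = 2`, for `j ∉ J` is `a_j = 0`
(if `a_j` is zero and a unit then `C` is trivial: `empty`). The algebra is isomorphic to the polynomial ring in the `x_j`, `j ∉ J`, over
`Qd (a restricted to J) 2 c`: `LFQ.Clo.poly` and `QU1` (`c = 0`), `QU2` (`c` a unit). (Or by induction on `r`: `a_j = 0` for some `j`:
`Qd a e c ≃ (Qd (a ∘ succAbove j) (e ∘ succAbove j) c)[X]`.) -/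
def S_QU3 : Prop := ∀ (k : Type) [Field k], (2 : k) ≠ 0 → ∀ P : Var k → Prop, LFQ.Clo P →
  ∀ (C : Type) [CommRing C] [Algebra k C] [Algebra.FiniteType k C] (r : ℕ) (a : Fin r → C)
  (e : Fin r → ℕ) (c : C), (∀ j, a j = 0 ∨ IsUnit (a j)) → (c = 0 ∨ IsUnit c) →
  (∀ j, 1 ≤ e j ∧ e j ≤ 2) → P (sp k C) →
  (∀ b ∈ Submonoid.closure (insert (-1) (insert c (Set.range a))), IsUnit b →
    P (sdbl k C 0 (-b))) →
  P (sp k (Qd a e c))

def M_QU3 : Prop := S_QU1 → S_QU2 → S_QU3

/-- DBL (120 lines), double covers of a stratum. PROOF. The system `f` and the equation `t ^ 2 = τ(y)` in the variables `Option V`: `Few m`; the algebra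
`C[t] / (t ^ 2 - b)`, `b` the value of `τ`, is universal for the units `U`, `t` (`t` is a unit because `b` is) and the zeros `Z`: `STM`. -/
def S_DBL : Prop := ∀ (k : Type) [Field k]
  (P : ∀ (A : Type) [CommRing A] [Algebra k A] [Algebra.FiniteType k A], Prop) (_ : FMO.Clo k P)
  (m : ℕ) (_ : 1 ≤ m)
  (_ : ∀ (A : Type) [CommRing A] [Algebra k A] [Algebra.FiniteType k A],
    (∀ q : PrimeSpectrum A, Comp k m (Kp q)) → P A)
  (V : Type) [Finite V] (ι : Type) (f : ι → MvPolynomial V k), Few m f →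
  ∀ U Z : Set V, (∀ v, v ∈ U ∨ v ∈ Z) → ∀ (C : Type) [CommRing C] [Algebra k C]
    [Algebra.FiniteType k C] (φ : V → C), Univ f U Z C φ → ∀ τ : MvPolynomial V k,
    τ.support.card ≤ 1 → IsUnit (MvPolynomial.aeval φ τ) →
    ∀ (_ : Algebra.FiniteType k (AdjoinRoot (UQ.dp 0 (-MvPolynomial.aeval φ τ)))),
    P (AdjoinRoot (UQ.dp 0 (-MvPolynomial.aeval φ τ)))

def M_DBL : Prop := S_STM → S_DBL

/-- MIX (200 lines), the mixed family, for a property `P` (later `P = Bld (CompX m)`). PROOF. `ELN`: `f'`, `φ`. `UNI` and `UNQ` (with the equivalence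
`finSumFinEquiv`) show that the algebra `R` of `sys f a e c` is universal for `sy f a e c` (`V = Fin n`), so `R ≃ Qd ..` over
`A = k[y]/(f)` (`MXV`, `UNQ`), and (`MXV` again) `R` is universal for `sy f' b e c'`, `b j = rename inl (a j)`, `c' = rename inl c` (the value of
`b j` in `A` is the class of `a j`). `STV` with `W = range inl`: `U = inl '' U₀`, `Z = inl '' Z₀`. `EXU` for `f'`, `U₀`, `Z₀`: `C₀`, `φ₀`; `MXV`, `UNQ`: the stratum is
`Qd (aeval φ₀ (b j)) e (aeval φ₀ c')`: `QU3`. The values of terms are zero or units because all variables are. `P (sp k C₀)`: `STM`. The elements of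
the `Submonoid.closure` are values of terms (closure induction; products of terms are terms): `DBL`. -/
def S_MIX : Prop := ∀ (k : Type) [Field k], (2 : k) ≠ 0 → ∀ P : Var k → Prop, LFQ.Clo P →
  ∀ m : ℕ, 1 ≤ m → (∀ X, CompX m X → P X) → ∀ (n r : ℕ) (ι : Type)
    (f : ι → MvPolynomial (Fin n) k) (a : Fin r → MvPolynomial (Fin n) k) (e : Fin r → ℕ)
    (c : MvPolynomial (Fin n) k), Add m f → Terms a → c.support.card ≤ 1 →
    (∀ j, 1 ≤ e j ∧ e j ≤ 2) → P (szer k k (sys f a e c))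

def M_MIX : Prop := FMO.S_RES → FMO.S_CIN → S_CLF → S_STM → S_STV → S_ELN → S_EXU → S_UNQ →
  S_MXV → S_QU3 → S_DBL → S_MIX

/-- EQS (60 lines), the families without quadratic equations. PROOF. `FMO.gen`, `FMO.grw` with `CLF`, `FMO.RES`. -/
def S_EQS : Prop := ∀ (k : Type) [Field k] (P : Var k → Prop), LFQ.Clo P →
  (∀ m : ℕ, 1 ≤ m → (∀ X, CompX m X → P X) → ∀ (n : ℕ) (ι : Type)
    (f : ι → MvPolynomial (Fin n) k), Add m f → P (szer k k f)) ∧
  ∀ Φ : ∀ (F : Type) [Field F] [Algebra k F], Prop, Inv k Φ → (∀ X, Res Φ X → P X) →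
    ∀ (n r : ℕ) (w : Fin n → (Fin r → ℤ)) (ι : Type) (f : ι → MvPolynomial (Fin n) k),
    Act Φ w f → P (szer k k f)

def M_EQS : Prop := FMO.S_RES → FMO.S_CIN → S_CLF → S_EQS

/-- FNL (80 lines): the results for homology theories (`LFQ.fgClo`, `LFQ.link`; `CompX 2 X` implies `Res (Sm (Comp 2)) X` by `FMO.SMC`). -/
def S_FNL : Prop :=
  (∀ (k Λ : Type) [Field k] [Finite k] [CommRing Λ] [IsNoetherianRing Λ] (T : BM.{v} k Λ),
    IsUnit (2 : Λ) → T.Pub → FreeT T → Built T) ∧
  ∀ (k : Type) [Field k] [Finite k] (ℓ : Nat.Primes) (T : BM.{v} k (Zp ℓ)) (F : Fam k ℓ T),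
    (ℓ : ℕ) ≠ 2 → ¬ CharP k ℓ → T.Pub → FreeT T → LBuilt F

def M_FNL : Prop := S_CLO → S_FRE.{v} → S_BSF → FMO.S_SMC → S_FNL.{v}

end Pool.Agent.FMQ
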