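import Pool.Agent.FMO.Gen1
import Pool.Agent.FMQ.St

/-!
# FMQ, module EQS (helper90): the families without quadratic equations
-/

set_option autoImplicit false

open CategoryTheory AlgebraicGeometry Polynomial

namespace Pool.Agent.FMQ

open Pool.Agent.Lib_helper55.Beil (Var)
open UQ (Pt Mo di gp im IDim DimLE sp spol sdbl sdia sas squo szer cone PSub Units)
open FMO (At Sm Comp CompX Hom Act Add Few Univ Kp Inv)
open LFQ (BM SPj Fam Zp)

namespace EQSAux

/-- the residue fields of an affine variety -/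
theorem at_all (hRES : FMO.S_RES) (k : Type) [Field k] (A : Type) [CommRing A] [Algebra k A]
    [Algebra.FiniteType k A] (Φ : ∀ (F : Type) [Field F] [Algebra k F], Prop) (hΦ : Inv k Φ)
    (h : ∀ q : PrimeSpectrum A, Φ (Kp q)) (x : Pt (sp k A)) : At Φ (sp k A) x := by
  obtain ⟨q, hq⟩ := (hRES k A Φ hΦ).1 x
  exact hq.2 (h q)

end EQSAux

theorem t_EQS : M_EQS := by
  intro hRES hCIN hCLF k _ P hP
  refine ⟨?_, ?_⟩
  · intro m hm hC n ι f hf
    refine FMO.gen k (fun A [CommRing A] [Algebra k A] [Algebra.FiniteType k A] => P (sp k A))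
      (hCLF k P hP) m hm ?_ n ι f hf
    intro A _ _ _ hA
    refine hC _ fun x => ?_
    exact EQSAux.at_all hRES k A (fun F [Field F] [Algebra k F] => Comp k m F)
      (fun F F' _ _ _ _ e hF => (hCIN k m).1 F F' e hF) hA x
  · intro Φ hΦ hR n r w ι f hact
    obtain ⟨h1, h2⟩ := hact
    choose d hd using h1
    refine FMO.grw k (fun A [CommRing A] [Algebra k A] [Algebra.FiniteType k A] => P (sp k A))
      (hCLF k P hP) Φ hΦ ?_ n r w ι f d hd h2
    intro A _ _ _ hA
    refine hR _ fun x => ?_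
    exact EQSAux.at_all hRES k A Φ hΦ hA x

end Pool.Agent.FMQ
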