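import Pool.Agent.FMQ.St
import Pool.Agent.FMO.STR
import Pool.Agent.FMO.UNI

/-!
# FMQ: module EXU, existence of universal algebras (helper70)
-/

set_option autoImplicit false

open MvPolynomial

namespace Pool.Agent.FMQ

open FMO (Univ)

theorem t_EXU : S_EXU := by
  intro k _ V _ ι f U Z
  have hZ : ∃ (C : Type) (_ : CommRing C) (_ : Algebra k C) (_ : Algebra.FiniteType k C)
      (φ : V → C), Univ f ∅ Z C φ := by
    induction Z, Z.toFinite using Set.Finite.induction_on with
    | empty =>
      have h0 : Algebra.FiniteType k (MvPolynomial V k ⧸ Ideal.span (Set.range f)) :=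
        Algebra.FiniteType.of_surjective (Ideal.Quotient.mkₐ k (Ideal.span (Set.range f)))
          (Ideal.Quotient.mkₐ_surjective k _)
      exact ⟨_, _, _, h0, _, FMO.t_UNI k V ι f⟩
    | @insert v Z _ _ ih =>
      obtain ⟨C, i1, i2, i3, φ, h⟩ := ih
      exact ⟨C ⧸ Ideal.span {φ v}, inferInstance, inferInstance,
        Algebra.FiniteType.of_surjective (Ideal.Quotient.mkₐ k (Ideal.span {φ v}))
          (Ideal.Quotient.mkₐ_surjective k _), _, FMO.STRAux.quotient h v⟩
  induction U, U.toFinite using Set.Finite.induction_on with
  | empty => exact hZ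
  | @insert v U _ _ ih =>
    obtain ⟨C, i1, i2, i3, φ, h⟩ := ih
    have hl : Algebra.FiniteType k (Localization.Away (φ v)) := by
      have h1 : Algebra.FiniteType C (Localization.Away (φ v)) := inferInstance
      exact Algebra.FiniteType.trans (S := C) inferInstance h1
    exact ⟨Localization.Away (φ v), inferInstance, inferInstance, hl, _,
      FMO.STRAux.localization h v⟩

end Pool.Agent.FMQ
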