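import Pool.Agent.FMQ.St2
import Pool.Agent.FMO.STR
import Pool.Agent.FMO.UNI

/-!
# Project FMQ, module FR1 (helper62): strata of products of Fermat curves
-/

set_option autoImplicit false

open CategoryTheory AlgebraicGeometry Polynomial

namespace Pool.Agent.FMQ

open Pool.Agent.Lib_helper55.Beil (Var)
open UQ (Pt Mo di gp im IDim DimLE sp spol sdbl sdia sas squo szer cone PSub Units)
open FMO (At Sm Comp CompX Hom Act Add Few Univ Kp Inv val)
open LFQ (BM SPj Fam Zp)

namespace FR1Aux

variable {k : Type} [Field k]

open Classical in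
/-- the coefficients without that of the variable `v` (first half) -/
noncomputable def dl {M : ℕ} (v : Fin (M + M)) (c : Fin M → k) : Fin M → k :=
  fun j => if Fin.castAdd M j = v then 0 else c j

open Classical in
/-- the coefficients without that of the variable `v` (second half) -/
noncomputable def dr {M : ℕ} (v : Fin (M + M)) (c : Fin M → k) : Fin M → k :=
  fun j => if Fin.natAdd M j = v then 0 else c j

theorem card_le {M m : ℕ} (v : Fin (M + M)) (c c' : Fin M → k)
    (h : Nat.card {j // c j * c' j ≠ 0} ≤ m) :
    Nat.card {j // dl v c j * dr v c' j ≠ 0} ≤ m := by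
  refine le_trans ?_ h
  refine Nat.card_le_card_of_injective
    (fun j => (⟨j.1, fun h0 => j.2 ?_⟩ : {j // c j * c' j ≠ 0})) ?_
  · rcases mul_eq_zero.1 h0 with h1 | h1
    · have h2 : dl v c j.1 = 0 := by
        unfold dl
        rw [h1, ite_self]
      rw [h2, zero_mul]
    · have h2 : dr v c' j.1 = 0 := by
        unfold dr
        rw [h1, ite_self]
      rw [h2, mul_zero]
  · intro a b hab
    exact Subtype.ext (congrArg (fun x => x.1) hab)

theorem aeval_ferm {N M : ℕ} (c c' : Fin M → k) {D : Type} [CommRing D] [Algebra k D]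
    (ψ : Fin (M + M) → D) (j : Fin M) : MvPolynomial.aeval ψ (ferm N c c' j) =
      1 + algebraMap k D (c j) * ψ (Fin.castAdd M j) ^ N +
        algebraMap k D (c' j) * ψ (Fin.natAdd M j) ^ N := by
  simp [ferm]

open Classical in
theorem aeval_del {N M : ℕ} (hN : 0 < N) (v : Fin (M + M)) (c c' : Fin M → k) {D : Type}
    [CommRing D] [Algebra k D] (ψ : Fin (M + M) → D) (j : Fin M) :
    MvPolynomial.aeval ψ (ferm N (dl v c) (dr v c') j) =
      MvPolynomial.aeval (Function.update ψ v 0) (ferm N c c' j) := by
  rw [aeval_ferm, aeval_ferm]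
  have h1 : algebraMap k D (dl v c j) * ψ (Fin.castAdd M j) ^ N =
      algebraMap k D (c j) * (Function.update ψ v 0) (Fin.castAdd M j) ^ N := by
    unfold dl
    by_cases h : Fin.castAdd M j = v
    · rw [if_pos h, h, Function.update_self, map_zero, zero_mul, zero_pow hN.ne', mul_zero]
    · rw [if_neg h, Function.update_of_ne h]
  have h2 : algebraMap k D (dr v c' j) * ψ (Fin.natAdd M j) ^ N =
      algebraMap k D (c' j) * (Function.update ψ v 0) (Fin.natAdd M j) ^ N := by
    unfold dr
    by_cases h : Fin.natAdd M j = v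
    · rw [if_pos h, h, Function.update_self, map_zero, zero_mul, zero_pow hN.ne', mul_zero]
    · rw [if_neg h, Function.update_of_ne h]
  rw [h1, h2]

/-- The variable `v` vanishes: the polynomial ring over the universal algebra. -/
theorem univ_poly {N M : ℕ} (hN : 0 < N) (v : Fin (M + M)) (c c' : Fin M → k)
    (U Z : Set (Fin (M + M))) (C : Type) [CommRing C] [Algebra k C] (φ : Fin (M + M) → C)
    (hvZ : v ∈ Z) (hvU : v ∉ U) (h : Univ (ferm N c c') U Z C φ) :
    ∃ φ' : Fin (M + M) → C[X], Univ (ferm N (dl v c) (dr v c')) U (Z \ {v}) C[X] φ' := by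
  classical
  have hv0 : φ v = 0 := h.zero v hvZ
  have hup : ∀ {D : Type} [CommRing D] [Algebra k D] (g : C →ₐ[k] D) (x : D),
      Function.update (Function.update (fun w => g (φ w)) v x) v 0 = fun w => g (φ w) := by
    intro D _ _ g x
    rw [Function.update_idem]
    funext w
    by_cases hw : w = v
    · rw [hw, Function.update_self, hv0, map_zero]
    · rw [Function.update_of_ne hw]
  let ι : C →ₐ[k] C[X] := Polynomial.CAlgHom
  refine ⟨Function.update (fun w => ι (φ w)) v X, ?_, ?_, ?_, ?_, ?_⟩
  · intro j
    rw [aeval_del hN, hup ι X]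
    have h1 := congrArg ι (h.sat j)
    rw [map_zero, ← AlgHom.comp_apply, MvPolynomial.comp_aeval] at h1
    exact h1
  · intro w hw
    have hne : w ≠ v := fun h1 => hvU (h1 ▸ hw)
    rw [Function.update_of_ne hne]
    exact (h.unit w hw).map ι
  · intro w hw
    have hne : w ≠ v := fun h1 => hw.2 h1
    rw [Function.update_of_ne hne, h.zero w hw.1, map_zero]
  · intro D _ _ ψ hs hu hz
    obtain ⟨g, hg⟩ := h.lift D (Function.update ψ v 0) (fun j => by
      rw [← aeval_del hN]
      exact hs j) (fun w hw => by
        have hne : w ≠ v := fun h1 => hvU (h1 ▸ hw)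
        rw [Function.update_of_ne hne]
        exact hu w hw) (fun w hw => by
        by_cases hne : w = v
        · rw [hne, Function.update_self]
        · rw [Function.update_of_ne hne]
          exact hz w ⟨hw, hne⟩)
    refine ⟨Polynomial.eval₂AlgHom g (ψ v) (fun a => Commute.all _ _), fun w => ?_⟩
    by_cases hw : w = v
    · rw [hw, Function.update_self, Polynomial.eval₂AlgHom_apply, Polynomial.eval₂_X]
    · rw [Function.update_of_ne hw]
      have h1 := hg w
      rw [Function.update_of_ne hw] at h1
      rw [← h1]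
      show (Polynomial.eval₂AlgHom g (ψ v) (fun a => Commute.all _ _)) (Polynomial.C (φ w)) = _
      rw [Polynomial.eval₂AlgHom_apply, Polynomial.eval₂_C]
      rfl
  · intro D _ _ g g' hgg
    have h1 : g.comp ι = g'.comp ι := h.ext D _ _ fun w => by
      by_cases hw : w = v
      · rw [hw, hv0, map_zero, map_zero]
      · have h2 := hgg w
        rw [Function.update_of_ne hw] at h2
        exact h2
    have h2 : g X = g' X := by
      have h3 := hgg v
      rw [Function.update_self] at h3
      exact h3
    refine AlgHom.ext fun p => ?_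
    induction p using Polynomial.induction_on' with
    | add p q hp hq => rw [map_add, map_add, hp, hq]
    | monomial n a =>
      rw [← Polynomial.C_mul_X_pow_eq_monomial, map_mul, map_mul, map_pow, map_pow, h2]
      congr 1
      exact congrArg (fun f : C →ₐ[k] D => f a) h1

end FR1Aux

open FR1Aux in
theorem t_FR1 : M_FR1 := by
  classical
  intro hEXU hUNQ k _ P hP N m hN hF M
  have key : ∀ (u z : ℕ) (c c' : Fin M → k), Nat.card {j // c j * c' j ≠ 0} ≤ m →
      ∀ (U Z : Set (Fin (M + M))) (C : Type) [CommRing C] [Algebra k C]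
        [Algebra.FiniteType k C] (φ : Fin (M + M) → C), U.ncard = u → Z.ncard = z →
        Univ (ferm N c c') U Z C φ → P (sp k C) := by
    intro u
    induction u with
    | zero =>
      intro z
      induction z with
      | zero =>
        intro c c' hcard U Z C _ _ _ φ hu hz h
        have hU : U = ∅ := (Set.ncard_eq_zero (Set.toFinite U)).1 hu
        have hZ : Z = ∅ := (Set.ncard_eq_zero (Set.toFinite Z)).1 hz
        subst hU
        subst hZ
        obtain ⟨e, -⟩ := (hUNQ k).1 _ _ _ _ _ _ _ _ _
          (FMO.t_UNI k (Fin (M + M)) (Fin M) (ferm N c c')) h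
        exact hP.cls0.iso e (hF _ ⟨M, c, c', hcard, rfl⟩)
      | succ z ihz =>
        intro c c' hcard U Z C _ _ _ φ hu hz h
        have hU : U = ∅ := (Set.ncard_eq_zero (Set.toFinite U)).1 hu
        obtain ⟨v, hv⟩ := (Set.ncard_pos (Set.toFinite Z)).1 (by omega)
        have hvU : v ∉ U := by rw [hU]; exact Set.notMem_empty v
        obtain ⟨φ', h'⟩ := univ_poly hN v c c' U Z C φ hv hvU h
        refine hP.unline (CUB.lineX C) (ihz _ _ (card_le v c c' hcard) U (Z \ {v}) C[X] φ' hu ?_ h')
        rw [Set.ncard_sdiff_singleton_of_mem hv, hz]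
        rfl
    | succ u ihu =>
      intro z
      induction z with
      | zero =>
        intro c c' hcard U Z C _ _ _ φ hu hz h
        have hZ : Z = ∅ := (Set.ncard_eq_zero (Set.toFinite Z)).1 hz
        subst hZ
        obtain ⟨v, hv⟩ := (Set.ncard_pos (Set.toFinite U)).1 (by omega)
        have hU' : (U \ {v}).ncard = u := by
          rw [Set.ncard_sdiff_singleton_of_mem hv, hu]
          rfl
        obtain ⟨A, _, _, _, α, hα⟩ := hEXU k (Fin (M + M)) (Fin M) (ferm N c c') (U \ {v}) ∅
        have hq : Algebra.FiniteType k (A ⧸ Ideal.span {α v}) :=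
          Algebra.FiniteType.of_surjective (Ideal.Quotient.mkₐ k (Ideal.span {α v}))
            (Ideal.Quotient.mkₐ_surjective k _)
        have hl : Algebra.FiniteType k (Localization.Away (α v)) := by
          have h1 : Algebra.FiniteType A (Localization.Away (α v)) := inferInstance
          exact Algebra.FiniteType.trans (S := A) inferInstance h1
        have h1 : P (sp k A) := ihu 0 c c' hcard (U \ {v}) ∅ A α hU' (Set.ncard_empty _) hα
        have h2 : P (sp k (A ⧸ Ideal.span {α v})) := ihu _ c c' hcard (U \ {v}) _ _ _ hU' rfl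
          (FMO.STRAux.quotient hα v)
        have h3 := FMO.STRAux.strat (k := k) (α v)
        have h4 : P (sp k (Localization.Away (α v))) :=
          hP.cls0.opn (α v) _ _ ⟨h3.surj, h3.ker, h3.away⟩ h1 h2
        have h5 := FMO.STRAux.localization hα v
        rw [Set.insert_sdiff_singleton, Set.insert_eq_of_mem hv] at h5
        obtain ⟨e, -⟩ := (hUNQ k).1 _ _ _ _ _ _ _ _ _ h5 h
        exact hP.cls0.iso e h4
      | succ z ihz =>
        intro c c' hcard U Z C _ _ _ φ hu hz h
        obtain ⟨v, hv⟩ := (Set.ncard_pos (Set.toFinite Z)).1 (by omega)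
        by_cases hvU : v ∈ U
        · have h1 : IsUnit (0 : C) := by
            rw [← h.zero v hv]
            exact h.unit v hvU
          have h2 : Subsingleton C := subsingleton_of_zero_eq_one (isUnit_zero_iff.1 h1)
          exact hP.cls0.triv C h2
        · obtain ⟨φ', h'⟩ := univ_poly hN v c c' U Z C φ hv hvU h
          refine hP.unline (CUB.lineX C)
            (ihz _ _ (card_le v c c' hcard) U (Z \ {v}) C[X] φ' hu ?_ h')
          rw [Set.ncard_sdiff_singleton_of_mem hv, hz]
          rfl
  intro c c' hcard U Z C _ _ _ φ h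
  exact key _ _ c c' hcard U Z C φ rfl rfl h

end Pool.Agent.FMQ
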