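import Pool.Agent.FMO.LAU
import Pool.Agent.FMQ.St2

/-!
# FMQ: module FR2, the universal algebra for a group with the relations of Fermat curves (helper28)
-/

set_option autoImplicit false

open CategoryTheory AlgebraicGeometry Polynomial Multiplicative

namespace Pool.Agent.FMQ

open Pool.Agent.Lib_helper55.Beil (Var)
open UQ (sp)
open FMO (Univ Laur)

namespace FR2Aux

/-- a universal family of units with the relations `Q` -/
structure UU (k : Type) [Field k] {V : Type}
    (Q : ∀ (D : Type) [CommRing D] [Algebra k D], (V → Dˣ) → Prop) (C : Type) [CommRing C]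
    [Algebra k C] (w : V → Cˣ) : Prop where
  sat : Q C w
  lift : ∀ (D : Type) [CommRing D] [Algebra k D] (ψ : V → Dˣ), Q D ψ →
    ∃ g : C →ₐ[k] D, ∀ v, g (w v : C) = (ψ v : D)
  ext : ∀ (D : Type) [CommRing D] [Algebra k D] (g h : C →ₐ[k] D),
    (∀ v, g (w v : C) = h (w v : C)) → g = h

variable {k : Type} [Field k]

/-- two universal families of the same kind -/
theorem UU.iso {V V' : Type} {Q : ∀ (D : Type) [CommRing D] [Algebra k D], (V → Dˣ) → Prop}
    {Q' : ∀ (D : Type) [CommRing D] [Algebra k D], (V' → Dˣ) → Prop} {C D : Type} [CommRing C]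
    [Algebra k C] [CommRing D] [Algebra k D] {w : V → Cˣ} {w' : V' → Dˣ} (h : UU k Q C w)
    (h' : UU k Q' D w') (e : V ≃ V')
    (hQ : ∀ (E : Type) [CommRing E] [Algebra k E] (ψ : V' → Eˣ), Q' E ψ ↔ Q E fun v => ψ (e v)) :
    Nonempty (C ≃ₐ[k] D) := by
  obtain ⟨g, hg⟩ := h.lift D (fun v => w' (e v)) ((hQ D w').1 h'.sat)
  obtain ⟨g', hg'⟩ := h'.lift C (fun v => w (e.symm v)) ((hQ C _).2 (by
    simp only [Equiv.symm_apply_apply]
    exact h.sat))
  refine ⟨AlgEquiv.ofAlgHom g g' (h'.ext _ _ _ fun v => ?_) (h.ext _ _ _ fun v => ?_)⟩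
  · rw [AlgHom.comp_apply, hg' v, hg, Equiv.apply_symm_apply]
    rfl
  · rw [AlgHom.comp_apply, hg v, hg', Equiv.symm_apply_apply]
    rfl

/-- the variables of a Laurent polynomial ring -/
noncomputable def xu (C : Type) [CommRing C] (r : ℕ) (i : Fin r) : (Laur r C)ˣ :=
  (isUnit_of_dvd_unit (map_dvd (algebraMap (MvPolynomial (Fin r) C) (Laur r C))
    (Finset.dvd_prod_of_mem (fun i => (MvPolynomial.X i : MvPolynomial (Fin r) C))
      (Finset.mem_univ i)))
    (IsLocalization.Away.algebraMap_isUnit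
      (∏ i, MvPolynomial.X i : MvPolynomial (Fin r) C))).unit

theorem xu_val (C : Type) [CommRing C] (r : ℕ) (i : Fin r) :
    (xu C r i : Laur r C) = algebraMap (MvPolynomial (Fin r) C) (Laur r C) (MvPolynomial.X i) :=
  rfl

/-- the coefficients of a Laurent polynomial ring -/
noncomputable def cu (k C : Type) [Field k] [CommRing C] [Algebra k C] (r : ℕ) : C →ₐ[k] Laur r C :=
  (IsScalarTower.toAlgHom k (MvPolynomial (Fin r) C) (Laur r C)).comp
    (IsScalarTower.toAlgHom k C (MvPolynomial (Fin r) C))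

theorem cu_apply (C : Type) [CommRing C] [Algebra k C] (r : ℕ) (c : C) :
    cu k C r c = algebraMap (MvPolynomial (Fin r) C) (Laur r C) (MvPolynomial.C c) := rfl

/-- Laurent polynomials -/
theorem UU.laur {V : Type} {Q : ∀ (D : Type) [CommRing D] [Algebra k D], (V → Dˣ) → Prop}
    {C : Type} [CommRing C] [Algebra k C] {w : V → Cˣ} (h : UU k Q C w)
    (hQ : ∀ (E F : Type) [CommRing E] [Algebra k E] [CommRing F] [Algebra k F] (f : E →ₐ[k] F)
      (ψ : V → Eˣ), Q E ψ → Q F fun v => Units.map (f : E →* F) (ψ v)) (r : ℕ) :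
    UU k (fun D [CommRing D] [Algebra k D] (ψ : V ⊕ Fin r → Dˣ) => Q D fun v => ψ (Sum.inl v))
      (Laur r C) (Sum.elim (fun v => Units.map (cu k C r : C →* Laur r C) (w v)) (xu C r)) where
  sat := hQ C (Laur r C) (cu k C r) w h.sat
  lift D _ _ ψ hψ := by
    obtain ⟨g, hg⟩ := h.lift D (fun v => ψ (Sum.inl v)) hψ
    let a : MvPolynomial (Fin r) C →+* D :=
      MvPolynomial.eval₂Hom g.toRingHom fun i => (ψ (Sum.inr i) : D)
    have ha : IsUnit (a (∏ i, MvPolynomial.X i)) := by
      rw [map_prod]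
      refine IsUnit.prod_univ_iff.2 fun i => ?_
      show IsUnit (MvPolynomial.eval₂Hom g.toRingHom (fun i => (ψ (Sum.inr i) : D))
        (MvPolynomial.X i))
      rw [MvPolynomial.eval₂Hom_X']
      exact Units.isUnit _
    let b : Laur r C →+* D := IsLocalization.Away.lift _ ha
    have hb : ∀ p, b (algebraMap (MvPolynomial (Fin r) C) (Laur r C) p) = a p := fun p =>
      IsLocalization.Away.lift_eq _ ha p
    refine ⟨{ b with commutes' := fun c => ?_ }, ?_⟩
    · show b (algebraMap k (Laur r C) c) = _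
      rw [IsScalarTower.algebraMap_apply k (MvPolynomial (Fin r) C) (Laur r C), hb]
      show a (algebraMap k (MvPolynomial (Fin r) C) c) = _
      rw [IsScalarTower.algebraMap_apply k C (MvPolynomial (Fin r) C)]
      show MvPolynomial.eval₂Hom g.toRingHom (fun i => (ψ (Sum.inr i) : D))
        (MvPolynomial.C (algebraMap k C c)) = _
      rw [MvPolynomial.eval₂Hom_C]
      exact g.commutes c
    · rintro (v | i)
      · show b (cu k C r (w v : C)) = _
        rw [cu_apply, hb]
        show MvPolynomial.eval₂Hom g.toRingHom (fun i => (ψ (Sum.inr i) : D))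
          (MvPolynomial.C (w v : C)) = _
        rw [MvPolynomial.eval₂Hom_C]
        exact hg v
      · show b (xu C r i : Laur r C) = _
        rw [xu_val, hb]
        show MvPolynomial.eval₂Hom g.toRingHom (fun i => (ψ (Sum.inr i) : D))
          (MvPolynomial.X i) = _
        rw [MvPolynomial.eval₂Hom_X']
  ext D _ _ g g' hgg := by
    have h1 : g.comp (cu k C r) = g'.comp (cu k C r) :=
      h.ext D _ _ fun v => hgg (Sum.inl v)
    have h2 : (g : Laur r C →+* D) = g' := by
      refine IsLocalization.ringHom_ext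
        (Submonoid.powers (∏ i, MvPolynomial.X i : MvPolynomial (Fin r) C)) ?_
      refine MvPolynomial.ringHom_ext (fun c => ?_) fun i => ?_
      · exact congrArg (fun f : C →ₐ[k] D => f c) h1
      · exact hgg (Sum.inr i)
    exact AlgHom.coe_ringHom_injective h2

/-! ### systems and characters -/

/-- the relations of the system `ferm` -/
def QF (k : Type) [Field k] (N : ℕ) {M : ℕ} (c c' : Fin M → k) (D : Type) [CommRing D]
    [Algebra k D] (ψ : Fin (M + M) → Dˣ) : Prop :=
  ∀ j, 1 + c j • (ψ (Fin.castAdd M j) : D) ^ N + c' j • (ψ (Fin.natAdd M j) : D) ^ N = 0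

theorem aeval_ferm (N : ℕ) {M : ℕ} (c c' : Fin M → k) {D : Type} [CommRing D] [Algebra k D]
    (φ : Fin (M + M) → D) (j : Fin M) : MvPolynomial.aeval φ (ferm N c c' j) =
      1 + c j • φ (Fin.castAdd M j) ^ N + c' j • φ (Fin.natAdd M j) ^ N := by
  unfold ferm
  rw [map_add, map_add, map_one, map_mul, map_mul, map_pow, map_pow, MvPolynomial.aeval_X,
    MvPolynomial.aeval_X, MvPolynomial.aeval_C, MvPolynomial.aeval_C, Algebra.smul_def,
    Algebra.smul_def]

theorem of_univ (N : ℕ) {M : ℕ} (c c' : Fin M → k) {A : Type} [CommRing A] [Algebra k A]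
    {φ : Fin (M + M) → A} (h : Univ (ferm N c c') Set.univ ∅ A φ) :
    UU k (QF k N c c') A fun v => (h.unit v (Set.mem_univ v)).unit where
  sat j := by
    have h1 := h.sat j
    rw [aeval_ferm] at h1
    exact h1
  lift D _ _ ψ hψ := h.lift D (fun v => (ψ v : D)) (fun j => by
    rw [aeval_ferm]
    exact hψ j) (fun v _ => (ψ v).isUnit) fun v hv => absurd hv (Set.notMem_empty v)
  ext D _ _ g g' hgg := h.ext D g g' fun v => hgg v

/-- the relations of the character -/
def QG (k : Type) [Field k] (N : ℕ) {M₃ M₂ q : ℕ} (c c' : Fin M₃ → k) (d : Fin M₂ → k) (D : Type)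
    [CommRing D] [Algebra k D] (ψ : ((Fin M₃ ⊕ Fin M₃) ⊕ Fin M₂) ⊕ Fin q → Dˣ) : Prop :=
  (∀ j, 1 + c j • (ψ (Sum.inl (Sum.inl (Sum.inl j))) : D) ^ N +
    c' j • (ψ (Sum.inl (Sum.inl (Sum.inr j))) : D) ^ N = 0) ∧
  ∀ j, 1 + d j • (ψ (Sum.inl (Sum.inr j)) : D) ^ N = 0

/-- the character with given values -/
def chr {I H : Type} [Fintype I] [CommGroup H] (ψ : I → H) : Multiplicative (I → ℤ) →* H where
  toFun f := ∏ i, ψ i ^ (toAdd f i)
  map_one' := Finset.prod_eq_one fun i _ => zpow_zero _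
  map_mul' f g := by
    rw [← Finset.prod_mul_distrib]
    exact Finset.prod_congr rfl fun i _ => zpow_add _ _ _

theorem chr_single {I H : Type} [Fintype I] [DecidableEq I] [CommGroup H] (ψ : I → H) (i : I)
    (n : ℤ) : chr ψ (ofAdd (Pi.single i n)) = ψ i ^ n := by
  show ∏ l, ψ l ^ ((Pi.single i n : I → ℤ) l) = _
  rw [Finset.prod_eq_single i]
  · rw [Pi.single_eq_same]
  · intro l _ hl
    rw [Pi.single_eq_of_ne hl, zpow_zero]
  · intro h
    exact absurd (Finset.mem_univ i) h

theorem single_nat {I : Type} [DecidableEq I] (i : I) (N : ℕ) :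
    ofAdd (Pi.single i (N : ℤ) : I → ℤ) = ofAdd (Pi.single i (1 : ℤ) : I → ℤ) ^ N := by
  rw [← ofAdd_nsmul, ← Pi.single_smul]
  congr 2
  simp

theorem hom_ext {I H : Type} [Finite I] [DecidableEq I] [CommGroup H]
    (f g : Multiplicative (I → ℤ) →* H)
    (h : ∀ i, f (ofAdd (Pi.single i 1)) = g (ofAdd (Pi.single i 1))) : f = g := by
  have h1 : MonoidHom.toAdditiveRight f = MonoidHom.toAdditiveRight g := by
    refine AddMonoidHom.functions_ext _ _ _ fun i x => ?_
    have h2 : (Pi.single i x : I → ℤ) = x • (Pi.single i 1 : I → ℤ) := by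
      rw [← Pi.single_smul]
      simp
    rw [h2, map_zsmul, map_zsmul]
    congr 1
    exact congrArg Additive.ofMul (h i)
  exact MonoidHom.toAdditiveRight.injective h1

theorem of_gu (N : ℕ) {M₃ M₂ q : ℕ} (c c' : Fin M₃ → k) (d : Fin M₂ → k) {C : Type} [CommRing C]
    [Algebra k C] {χ : Multiplicative (((Fin M₃ ⊕ Fin M₃) ⊕ Fin M₂) ⊕ Fin q → ℤ) →* Cˣ}
    (h : GU (J := Fin M₃ ⊕ Fin M₂)
      (Sum.elim (fun j => Pi.single (Sum.inl (Sum.inl (Sum.inl j))) (N : ℤ))
        fun j => Pi.single (Sum.inl (Sum.inr j)) (N : ℤ))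
      (Sum.elim (fun j => Pi.single (Sum.inl (Sum.inl (Sum.inr j))) (N : ℤ)) fun _ => 0)
      (Sum.elim c d) (Sum.elim c' fun _ => 0) C χ) :
    UU k (QG k (q := q) N c c' d) C fun i => χ (ofAdd (Pi.single i 1)) where
  sat := by
    refine ⟨fun j => ?_, fun j => ?_⟩
    · have h1 := h.sat (Sum.inl j)
      simp only [Sum.elim_inl, single_nat, map_pow, Units.val_pow_eq_pow_val] at h1
      exact h1
    · have h1 := h.sat (Sum.inr j)
      simp only [Sum.elim_inr, single_nat, map_pow, Units.val_pow_eq_pow_val, zero_smul,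
        add_zero] at h1
      exact h1
  lift D _ _ ψ hψ := by
    obtain ⟨g, hg⟩ := h.lift D (chr ψ) (by
      rintro (j | j)
      · simp only [Sum.elim_inl, chr_single, zpow_natCast, Units.val_pow_eq_pow_val]
        exact hψ.1 j
      · simp only [Sum.elim_inr, chr_single, zpow_natCast, Units.val_pow_eq_pow_val, zero_smul,
          add_zero]
        exact hψ.2 j)
    refine ⟨g, fun i => ?_⟩
    rw [hg, chr_single, zpow_one]
  ext D _ _ g g' hgg := by
    refine h.ext D g g' fun a => ?_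
    have h1 : (Units.map (g : C →* D)).comp χ = (Units.map (g' : C →* D)).comp χ :=
      hom_ext _ _ fun i => Units.ext (hgg i)
    exact congrArg Units.val (DFunLike.congr_fun h1 a)

/-- the rearrangement of the variables -/
def rea (X Z Q : Type) : (((X ⊕ X) ⊕ Z) ⊕ Q) ⊕ Z ≃ ((X ⊕ Z) ⊕ (X ⊕ Z)) ⊕ Q where
  toFun
    | .inl (.inl (.inl (.inl x))) => .inl (.inl (.inl x))
    | .inl (.inl (.inl (.inr x))) => .inl (.inr (.inl x))
    | .inl (.inl (.inr z)) => .inl (.inl (.inr z))
    | .inl (.inr q) => .inr q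
    | .inr z => .inl (.inr (.inr z))
  invFun
    | .inl (.inl (.inl x)) => .inl (.inl (.inl (.inl x)))
    | .inl (.inr (.inl x)) => .inl (.inl (.inl (.inr x)))
    | .inl (.inl (.inr z)) => .inl (.inl (.inr z))
    | .inr q => .inl (.inr q)
    | .inl (.inr (.inr z)) => .inr z
  left_inv := by
    rintro ((((x | x) | z) | q) | z) <;> rfl
  right_inv := by
    rintro (((x | z) | (x | z)) | q) <;> rfl

/-- all variables -/
def vars (M₃ M₂ q : ℕ) : (((Fin M₃ ⊕ Fin M₃) ⊕ Fin M₂) ⊕ Fin q) ⊕ Fin M₂ ≃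
    Fin (M₃ + M₂ + (M₃ + M₂)) ⊕ Fin q :=
  (rea (Fin M₃) (Fin M₂) (Fin q)).trans (Equiv.sumCongr
    ((Equiv.sumCongr finSumFinEquiv finSumFinEquiv).trans finSumFinEquiv) (Equiv.refl _))

end FR2Aux

open FR2Aux in
theorem t_FR2 : M_FR2 := by
  intro hEXU hGMD hCLF hLAU hFR1 k _ P hP N m hN hF M₃ M₂ q hM c c' d C _ _ _ χ hC
  have hcl := hCLF k P hP
  obtain ⟨A, _, _, _, φ, hA⟩ := hEXU k (Fin (M₃ + M₂ + (M₃ + M₂))) (Fin (M₃ + M₂))
    (ferm N (Fin.append c d) (Fin.append c' fun _ => 0)) Set.univ ∅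
  have hPA : P (sp k A) := by
    refine hFR1 k P hP N m hN hF (M₃ + M₂) _ _ ?_ _ _ A φ hA
    refine le_trans ?_ hM
    have h1 : ∀ j : {j // Fin.append c d j * Fin.append c' (fun _ => 0) j ≠ 0},
        (j.1 : ℕ) < M₃ := by
      rintro ⟨j, hj⟩
      by_contra hlt
      apply hj
      have hlt' : M₃ ≤ (j : ℕ) := Nat.le_of_not_lt hlt
      have hj2 : (j : ℕ) < M₃ + M₂ := j.2
      obtain ⟨i, rfl⟩ : ∃ i : Fin M₂, j = Fin.natAdd M₃ i :=
        ⟨⟨(j : ℕ) - M₃, by omega⟩, Fin.ext (by rw [Fin.val_natAdd]; exact (Nat.add_sub_cancel' hlt').symm)⟩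
      rw [Fin.append_right c' (fun _ => (0 : k)), mul_zero]
    calc Nat.card {j // Fin.append c d j * Fin.append c' (fun _ => 0) j ≠ 0}
        ≤ Nat.card (Fin M₃) := Nat.card_le_card_of_injective
          (fun j => (⟨j.1, h1 j⟩ : Fin M₃)) fun a b hab => by
            have h2 := congrArg Fin.val hab
            exact Subtype.ext (Fin.ext h2)
      _ = M₃ := Nat.card_fin M₃
  have hPL : P (sp k (Laur q A)) :=
    hLAU k (fun A [CommRing A] [Algebra k A] [Algebra.FiniteType k A] => P (sp k A)) hcl A q hPA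
  have u1 := (of_univ N _ _ hA).laur (fun E F _ _ _ _ f ψ h j => by
    have h1 := congrArg f (h j)
    rw [map_add, map_add, map_one, map_smul, map_smul, map_pow, map_pow, map_zero] at h1
    exact h1) q
  have u2 := (of_gu N c c' d hC).laur (fun E F _ _ _ _ f ψ h => by
    refine ⟨fun j => ?_, fun j => ?_⟩
    · have h1 := congrArg f (h.1 j)
      rw [map_add, map_add, map_one, map_smul, map_smul, map_pow, map_pow, map_zero] at h1
      exact h1
    · have h1 := congrArg f (h.2 j)
      rw [map_add, map_one, map_smul, map_pow, map_zero] at h1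
      exact h1) M₂
  obtain ⟨e⟩ := u2.iso u1 (vars M₃ M₂ q) (by
    intro E _ _ ψ
    constructor
    · intro h
      refine ⟨fun j => ?_, fun j => ?_⟩
      · have h1 := h (Fin.castAdd M₂ j)
        rw [Fin.append_left, Fin.append_left] at h1
        exact h1
      · have h1 := h (Fin.natAdd M₃ j)
        rw [Fin.append_right, Fin.append_right, zero_smul, add_zero] at h1
        exact h1
    · intro h j
      refine Fin.addCases (fun j => ?_) (fun j => ?_) j
      · rw [Fin.append_left, Fin.append_left]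
        exact h.1 j
      · rw [Fin.append_right, Fin.append_right, zero_smul, add_zero]
        exact h.2 j)
  have hPC : P (sp k (Laur M₂ C)) := hcl.iso e.symm hPL
  have down : ∀ r : ℕ, P (sp k (Laur r C)) → P (sp k C) := by
    intro r
    induction r with
    | zero =>
      intro h
      obtain ⟨e⟩ := FMO.LAUAux.zero k C
      exact hcl.iso e.symm h
    | succ r ih =>
      intro h
      refine ih ?_
      obtain ⟨e⟩ := FMO.LAUAux.succ k C r
      have h1 : P (sp k (Localization.Away (X : (Laur r C)[X]))) := hcl.iso e.symm h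
      let u : (Laur r C)[X] →ₐ[k] Localization.Away (X : (Laur r C)[X]) :=
        IsScalarTower.toAlgHom k _ _
      refine hGMD k P hP (Laur r C) (Localization.Away (X : (Laur r C)[X])) u ?_ h1
      have h2 : u.toRingHom.toAlgebra =
          (inferInstance : Algebra (Laur r C)[X] (Localization.Away (X : (Laur r C)[X]))) := by
        apply Algebra.algebra_ext
        intro _
        rfl
      rw [h2]
      infer_instance
  exact down M₂ hPC

end Pool.Agent.FMQ
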