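import Pool.Agent.FMQ.St

/-!
# FMQ: finitely generated homology descends along free coverings
-/

set_option autoImplicit false

open CategoryTheory AlgebraicGeometry Polynomial

namespace Pool.Agent.FMQ

open Pool.Agent.Lib_helper55.Beil (Var)
open UQ (sp)
open LFQ (BM)

universe v

/-- **FRE** (the argument of `LFQ.fg_etale`). -/
theorem t_FRE : S_FRE.{v} := by
  intro k Λ _ _ _ T hT hf A C _ _ _ _ _ _ _ _ _ _ h0 h i n
  obtain ⟨N, hN, hm⟩ := hT.fin.quot i n (sp k A) (Module.finrank A C) h0.ne'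
  have h1 := h i n
  have h2 : (LinearMap.range (T.pf i n (fm k A C))).FG := by
    have h4 : (⊤ : Submodule Λ (T.H i n (sp k C))).FG := Module.Finite.fg_top
    rw [LinearMap.range_eq_map]
    exact h4.map _
  have h3 : (⊤ : Submodule Λ (T.H i n (sp k A))) ≤ LinearMap.range (T.pf i n (fm k A C)) ⊔ N := by
    intro m _
    obtain ⟨m', hm'⟩ := hm m
    have h4 : m = (Module.finrank A C : Λ) • m' + (m - (Module.finrank A C : Λ) • m') := by abel
    rw [h4]
    refine Submodule.add_mem_sup ?_ hm'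
    rw [← hf i n A C m']
    exact ⟨_, rfl⟩
  have h4 : (LinearMap.range (T.pf i n (fm k A C)) ⊔ N).FG := h2.sup hN
  rw [top_le_iff.mp h3] at h4
  exact ⟨h4⟩

end Pool.Agent.FMQ
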