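import Pool.Agent.FMQ.St
import Pool.Agent.QCV.B_GM

/-!
# Project FMQ, module GMD (helper85): descent from the product with the multiplicative group
-/

set_option autoImplicit false

open CategoryTheory AlgebraicGeometry Polynomial

namespace Pool.Agent.FMQ

open Pool.Agent.Lib_helper55.Beil (Var)
open UQ (sp)
open CUB (clo opn lineE CC isOpenImmersion_spm complementary_away)

theorem t_GMD : S_GMD := by
  intro k _ P hP A _ _ _ U _ _ _ u hu h
  let φ : A[X] →ₐ[k] A := (Polynomial.aeval (0 : A)).restrictScalars k
  have hφ : Function.Surjective φ := fun x => ⟨C x, by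
    change Polynomial.aeval (0 : A) (C x) = x
    rw [Polynomial.aeval_C]
    rfl⟩
  have hk : RingHom.ker φ.toRingHom = Ideal.span {(X : A[X])} := by
    ext p
    rw [RingHom.mem_ker, Ideal.mem_span_singleton, Polynomial.X_dvd_iff]
    change Polynomial.aeval (0 : A) p = 0 ↔ _
    rw [← Polynomial.coeff_zero_eq_aeval_zero]
  refine hP.bundle (QCV.toBun (lineE (CC k A) (RingEquiv.refl _) (fun _ => rfl))) (clo φ hφ)
    (opn u (isOpenImmersion_spm _ _ hu)) ?_ ?_ h
  · have h1 : φ.toRingHom.comp (CC k A).toRingHom = RingHom.id A := by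
      ext x
      change Polynomial.aeval (0 : A) (C x) = x
      rw [Polynomial.aeval_C]
      rfl
    have h2 : Spec.map (CommRingCat.ofHom φ.toRingHom) ≫
        Spec.map (CommRingCat.ofHom (CC k A).toRingHom) = 𝟙 (Spec (CommRingCat.of A)) := by
      rw [← Spec.map_comp, ← CommRingCat.ofHom_comp, h1]
      exact Spec.map_id _
    exact h2
  · exact complementary_away _ _ hu φ hφ hk

end Pool.Agent.FMQ
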