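import Pool.Agent.FMQ.St2

/-!
# FMQ, module GUX: universal algebras for characters, existence and uniqueness
-/

set_option autoImplicit false

open CategoryTheory AlgebraicGeometry Polynomial Multiplicative

namespace Pool.Agent.FMQ

namespace GUXAux

section

variable (k : Type) [Field k] (G : Type) [AddCommGroup G] {J : Type} (u v : J → G) (c c' : J → k)

/-- the group algebra -/
abbrev GA : Type := MonoidAlgebra k (Multiplicative G)

/-- the canonical map -/
noncomputable def om : Multiplicative G →* GA k G := MonoidAlgebra.of k (Multiplicative G)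

/-- the relations -/
noncomputable def rel (j : J) : GA k G :=
  1 + c j • om k G (ofAdd (u j)) + c' j • om k G (ofAdd (v j))

/-- the ideal of the relations -/
noncomputable def idl : Ideal (GA k G) := Ideal.span (Set.range (rel k G u v c c'))

/-- the universal algebra -/
abbrev UA : Type := GA k G ⧸ idl k G u v c c'

/-- the universal character -/
noncomputable def uch : Multiplicative G →* (UA k G u v c c')ˣ :=
  ((Ideal.Quotient.mk (idl k G u v c c')).toMonoidHom.comp (om k G)).toHomUnits

lemma uch_coe (a : Multiplicative G) :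
    ((uch k G u v c c' a : (UA k G u v c c')ˣ) : UA k G u v c c') =
      Ideal.Quotient.mkₐ k (idl k G u v c c') (om k G a) := rfl

theorem isGU : GU u v c c' (UA k G u v c c') (uch k G u v c c') where
  sat := by
    intro j
    have h : (Ideal.Quotient.mkₐ k (idl k G u v c c')) (rel k G u v c c' j) = 0 :=
      Ideal.Quotient.eq_zero_iff_mem.2 (Ideal.subset_span ⟨j, rfl⟩)
    rw [uch_coe, uch_coe, ← h]
    unfold rel
    rw [map_add, map_add, map_one, map_smul, map_smul]
  lift := by
    intro D _ _ ψ hψ
    let g0 : GA k G →ₐ[k] D :=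
      MonoidAlgebra.lift k D (Multiplicative G) ((Units.coeHom D).comp ψ)
    have hg0 : ∀ a, g0 (om k G a) = (ψ a : D) := by
      intro a
      exact MonoidAlgebra.lift_of _ _
    have hz : ∀ x ∈ idl k G u v c c', g0 x = 0 := by
      intro x hx
      have h1 : idl k G u v c c' ≤ RingHom.ker g0.toRingHom := by
        refine Ideal.span_le.2 ?_
        rintro _ ⟨j, rfl⟩
        show g0 (rel k G u v c c' j) = 0
        unfold rel
        rw [map_add, map_add, map_one, map_smul, map_smul, hg0, hg0]
        exact hψ j
      exact h1 hx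
    refine ⟨Ideal.Quotient.liftₐ (idl k G u v c c') g0 hz, ?_⟩
    intro a
    rw [uch_coe]
    exact hg0 a
  ext := by
    intro D _ _ g h hgh
    have h1 : g.comp (Ideal.Quotient.mkₐ k (idl k G u v c c')) =
        h.comp (Ideal.Quotient.mkₐ k (idl k G u v c c')) := by
      refine MonoidAlgebra.algHom_ext (fun a => ?_) (Subsingleton.elim _ _)
      exact hgh a
    exact Ideal.Quotient.algHom_ext k h1

end

end GUXAux

theorem t_GUX : S_GUX := by
  intro k _ G _ J u v c c'
  constructor
  · intro hG
    have h1 : Group.FG (Multiplicative G) := inferInstance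
    have h2 : Algebra.FiniteType k (GUXAux.GA k G) := inferInstance
    exact ⟨GUXAux.UA k G u v c c', inferInstance, inferInstance, inferInstance,
      GUXAux.uch k G u v c c', GUXAux.isGU k G u v c c'⟩
  · intro C D _ _ _ _ χ ψ hC hD
    obtain ⟨f, hf⟩ := hC.lift D ψ hD.sat
    obtain ⟨g, hg⟩ := hD.lift C χ hC.sat
    refine ⟨AlgEquiv.ofAlgHom f g ?_ ?_, hf⟩
    · refine hD.ext D _ _ ?_
      intro a
      show f (g (ψ a : D)) = (ψ a : D)
      rw [hg, hf]
    · refine hC.ext C _ _ ?_
      intro a
      show g (f (χ a : C)) = (χ a : C)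
      rw [hf, hg]

end Pool.Agent.FMQ
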