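import Pool.Agent.FMQ.St2

/-!
# Project FMQ, module GX1 (helper85): adjunction of a root
-/

set_option autoImplicit false

open CategoryTheory AlgebraicGeometry Polynomial Multiplicative

namespace Pool.Agent.FMQ

namespace GX1Aux

variable {G G₁ : Type} [AddCommGroup G] [AddCommGroup G₁] {θ : G →+ G₁} {x : G₁}

/-- characters which agree on `θ(G)` and on `x` are equal -/
theorem hom_ext {H : Type} [CommGroup H] (hs : ∀ y : G₁, ∃ (a : G) (i : ℤ), y = θ a + i • x)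
    (φ ψ : Multiplicative G₁ →* H) (h1 : ∀ a, φ (ofAdd (θ a)) = ψ (ofAdd (θ a)))
    (h2 : φ (ofAdd x) = ψ (ofAdd x)) (y : Multiplicative G₁) : φ y = ψ y := by
  obtain ⟨a, i, hy⟩ := hs (toAdd y)
  have h3 : y = ofAdd (θ a) * (ofAdd x) ^ i := by
    rw [← ofAdd_zsmul, ← ofAdd_add, ← hy]
    rfl
  rw [h3, map_mul, map_mul, map_zpow, map_zpow, h1, h2]

/-- extension of characters -/
theorem exists_char {H : Type} [CommGroup H] (hθ : Function.Injective θ) {t : ℕ} (g : G)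
    (hg : t • x = θ g) (hs : ∀ y : G₁, ∃ (a : G) (i : ℤ), y = θ a + i • x)
    (ho : ∀ i : ℤ, i • x ∈ θ.range → (t : ℤ) ∣ i) (φ : Multiplicative G →* H) (ρ : H)
    (hρ : ρ ^ t = φ (ofAdd g)) :
    ∃ φ₁ : Multiplicative G₁ →* H, (∀ a, φ₁ (ofAdd (θ a)) = φ (ofAdd a)) ∧
      φ₁ (ofAdd x) = ρ := by
  have wd : ∀ (a b : G) (i j : ℤ), θ a + i • x = θ b + j • x →
      φ (ofAdd a) * ρ ^ i = φ (ofAdd b) * ρ ^ j := by
    intro a b i j h
    have h1 : (i - j) • x = θ (b - a) := by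
      rw [sub_smul, map_sub, sub_eq_sub_iff_add_eq_add, add_comm (i • x), h]
    obtain ⟨d, hd⟩ := ho (i - j) ⟨b - a, h1.symm⟩
    have h2 : θ (b - a) = θ (d • g) := by
      rw [← h1, hd, mul_comm, mul_smul, natCast_zsmul, hg, map_zsmul]
    have h3 : b - a = d • g := hθ h2
    have h4 : b = a + d • g := by
      rw [← h3]
      abel
    have h5 : i = j + t * d := by
      rw [← hd]
      ring
    rw [h4, h5, ofAdd_add, map_mul, zpow_add, zpow_mul, zpow_natCast, hρ, ofAdd_zsmul, map_zpow,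
      mul_comm (ρ ^ j), mul_assoc]
  choose A I hAI using hs
  refine ⟨MonoidHom.mk' (fun y => φ (ofAdd (A (toAdd y))) * ρ ^ (I (toAdd y))) ?_, ?_, ?_⟩
  · intro y z
    have h1 := wd (A (toAdd (y * z))) (A (toAdd y) + A (toAdd z)) (I (toAdd (y * z)))
      (I (toAdd y) + I (toAdd z)) (by
        rw [← hAI, map_add, add_smul, toAdd_mul]
        nth_rewrite 1 [hAI (toAdd y), hAI (toAdd z)]
        abel)
    rw [h1, ofAdd_add, map_mul, zpow_add, mul_mul_mul_comm]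
  · intro a
    have h1 := wd (A (θ a)) a (I (θ a)) 0 (by rw [← hAI, zero_smul, add_zero])
    rw [zpow_zero, mul_one] at h1
    exact h1
  · have h1 := wd (A x) 0 (I x) 1 (by rw [← hAI, one_smul, map_zero, zero_add])
    rw [zpow_one, ofAdd_zero, map_one, one_mul] at h1
    exact h1

end GX1Aux

open GX1Aux in
theorem t_GX1 : S_GX1 := by
  intro k _ G G₁ _ _ θ hθ x t ht g hg hs ho J u v c c' A _ _ _ χ hχ
  let f : A[X] := X ^ t - C (χ (ofAdd g) : A)
  have hf : f.Monic := monic_X_pow_sub_C _ ht.ne'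
  let ι : A →ₐ[k] AdjoinRoot f := IsScalarTower.toAlgHom k A (AdjoinRoot f)
  have hr : (AdjoinRoot.root f) ^ t = ι (χ (ofAdd g) : A) := by
    have h1 := AdjoinRoot.eval₂_root f
    rw [eval₂_sub, eval₂_X_pow, eval₂_C, sub_eq_zero] at h1
    exact h1
  have hu : IsUnit (AdjoinRoot.root f) := by
    have h1 : IsUnit ((AdjoinRoot.root f) ^ t) := by
      rw [hr]
      exact (χ (ofAdd g)).isUnit.map ι
    exact (isUnit_pow_iff ht.ne').1 h1
  obtain ⟨ρ, hρ⟩ := hu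
  have hρt : ρ ^ t = ((Units.map (ι : A →* AdjoinRoot f)).comp χ) (ofAdd g) := by
    apply Units.ext
    rw [Units.val_pow_eq_pow_val, hρ, hr]
    rfl
  obtain ⟨χ₁, h1, h2⟩ := exists_char hθ g hg hs ho _ ρ hρt
  have h1' : ∀ a, (χ₁ (ofAdd (θ a)) : AdjoinRoot f) = ι (χ (ofAdd a) : A) := fun a => by
    rw [h1]
    rfl
  have h2' : (χ₁ (ofAdd x) : AdjoinRoot f) = AdjoinRoot.root f := by rw [h2, hρ]
  refine ⟨AdjoinRoot f, inferInstance, inferInstance, inferInstance, inferInstance,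
    hf.free_adjoinRoot, hf.finite_adjoinRoot, χ₁, ?_, ?_, ?_, ?_⟩
  · rw [(AdjoinRoot.powerBasis' hf).finrank]
    exact natDegree_X_pow_sub_C
  · intro j
    have h3 := congrArg ι (hχ.sat j)
    rw [map_add, map_add, map_smul, map_smul, map_one, map_zero] at h3
    rw [h1', h1']
    exact h3
  · intro D _ _ ψ hψ
    obtain ⟨γ, hγ⟩ := hχ.lift D (ψ.comp (AddMonoidHom.toMultiplicative θ)) hψ
    have hγ' : ∀ a : G, γ (χ (ofAdd a) : A) = (ψ (ofAdd (θ a)) : D) := fun a => hγ (ofAdd a)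
    have h0 : f.eval₂ (γ : A →+* D) (ψ (ofAdd x) : D) = 0 := by
      rw [eval₂_sub, eval₂_X_pow, eval₂_C, sub_eq_zero]
      show _ = γ (χ (ofAdd g) : A)
      rw [hγ', ← hg, ofAdd_nsmul, map_pow, Units.val_pow_eq_pow_val]
    refine ⟨AdjoinRoot.liftAlgHom f γ (ψ (ofAdd x) : D) h0, fun a => ?_⟩
    have h3 := hom_ext hs
      ((Units.map ((AdjoinRoot.liftAlgHom f γ (ψ (ofAdd x) : D) h0 : AdjoinRoot f →ₐ[k] D) :
        AdjoinRoot f →* D)).comp χ₁) ψ (fun b => ?_) ?_ a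
    · exact congrArg Units.val h3
    · apply Units.ext
      show AdjoinRoot.liftAlgHom f γ (ψ (ofAdd x) : D) h0 (χ₁ (ofAdd (θ b)) : AdjoinRoot f) = _
      rw [h1', ← hγ']
      exact AdjoinRoot.liftAlgHom_of f γ (ψ (ofAdd x) : D) h0 _
    · apply Units.ext
      show AdjoinRoot.liftAlgHom f γ (ψ (ofAdd x) : D) h0 (χ₁ (ofAdd x) : AdjoinRoot f) = _
      rw [h2']
      exact AdjoinRoot.liftAlgHom_root f γ (ψ (ofAdd x) : D) h0
  · intro D _ _ g' h' hgh
    refine AdjoinRoot.algHom_ext' ?_ ?_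
    · refine hχ.ext D _ _ fun a => ?_
      have h3 := hgh (ofAdd (θ (toAdd a)))
      rw [h1'] at h3
      exact h3
    · have h3 := hgh (ofAdd x)
      rw [h2'] at h3
      exact h3

end Pool.Agent.FMQ
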