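import Pool.Agent.FMQ.St2

/-!
# FMQ: subgroups of finite index
-/

set_option autoImplicit false

open CategoryTheory AlgebraicGeometry Polynomial Multiplicative

namespace Pool.Agent.FMQ

open Pool.Agent.Lib_helper55.Beil (Var)
open UQ (Pt Mo di gp im IDim DimLE sp spol sdbl sdia sas squo szer cone PSub Units)

namespace GXTAux

/-- Transport of a universal algebra along an isomorphism of groups. -/
theorem transport {k : Type} [Field k] {G G' : Type} [AddCommGroup G] [AddCommGroup G']
    (e : G ≃+ G') {J : Type} {u v : J → G} {c c' : J → k} {C' : Type} [CommRing C'] [Algebra k C']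
    {χ' : Multiplicative G' →* C'ˣ}
    (h : GU (fun j => e (u j)) (fun j => e (v j)) c c' C' χ') :
    GU u v c c' C' (χ'.comp (AddMonoidHom.toMultiplicative e.toAddMonoidHom)) where
  sat := fun j => h.sat j
  lift := by
    intro D _ _ ψ hψ
    obtain ⟨g, hg⟩ := h.lift D (ψ.comp (AddMonoidHom.toMultiplicative e.symm.toAddMonoidHom))
      (fun j => by
        have h1 : ∀ a : G, (ψ.comp (AddMonoidHom.toMultiplicative e.symm.toAddMonoidHom))
            (ofAdd (e a)) = ψ (ofAdd a) := by
          intro a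
          change ψ (ofAdd (e.symm (e a))) = ψ (ofAdd a)
          rw [e.symm_apply_apply]
        rw [h1, h1]
        exact hψ j)
    refine ⟨g, fun a => ?_⟩
    have h2 := hg (ofAdd (e (toAdd a)))
    have h3 : (ψ.comp (AddMonoidHom.toMultiplicative e.symm.toAddMonoidHom))
        (ofAdd (e (toAdd a))) = ψ a := by
      change ψ (ofAdd (e.symm (e (toAdd a)))) = ψ a
      rw [e.symm_apply_apply]
      rfl
    rw [h3] at h2
    exact h2
  ext := by
    intro D _ _ g g' hg
    refine h.ext D g g' fun a => ?_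
    have h2 := hg (ofAdd (e.symm (toAdd a)))
    have h3 : (χ'.comp (AddMonoidHom.toMultiplicative e.toAddMonoidHom))
        (ofAdd (e.symm (toAdd a))) = χ' a := by
      change χ' (ofAdd (e (e.symm (toAdd a)))) = χ' a
      rw [e.apply_symm_apply]
      rfl
    rw [h3] at h2
    exact h2

/-- The index is finite. -/
theorem finite_quotient {G' : Type} [AddCommGroup G'] (hfg : AddGroup.FG G') (H : AddSubgroup G')
    (h : ∀ y : G', ∃ t : ℤ, t ≠ 0 ∧ t • y ∈ H) : Finite (G' ⧸ H) := by
  have : Module.Finite ℤ G' := Module.Finite.iff_addGroup_fg.mpr hfg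
  have : Module.Finite ℤ (G' ⧸ H) := by
    refine Module.Finite.of_surjective (QuotientAddGroup.mk' H).toIntLinearMap ?_
    exact QuotientAddGroup.mk'_surjective H
  refine AddCommGroup.finite_of_fg_isAddTorsion (G' ⧸ H) ?_
  intro q
  obtain ⟨y, rfl⟩ := QuotientAddGroup.mk'_surjective H q
  obtain ⟨t, ht, hy⟩ := h y
  rw [isOfFinAddOrder_iff_zsmul_eq_zero]
  refine ⟨t, ht, ?_⟩
  rw [← map_zsmul]
  exact (QuotientAddGroup.eq_zero_iff _).mpr hy

end GXTAux

open GXTAux

theorem t_GXT : M_GXT := by
  intro hGUX hGX1 k _ P hP hF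
  -- the statement for all groups with a homomorphism to `G'` of the index `n`
  suffices H : ∀ (n : ℕ) (G' : Type) [AddCommGroup G'] (_ : AddGroup.FG G') (G : Type)
      [AddCommGroup G] (θ : G →+ G') (_ : Function.Injective θ)
      (_ : ∀ y : G', ∃ t : ℤ, t ≠ 0 ∧ t • y ∈ θ.range) (J : Type)
      (u v : J → G) (c c' : J → k) (C : Type) [CommRing C] [Algebra k C] [Algebra.FiniteType k C]
      (χ : Multiplicative G →* Cˣ), GU u v c c' C χ → ∀ (C' : Type) [CommRing C'] [Algebra k C']
      [Algebra.FiniteType k C'] (χ' : Multiplicative G' →* C'ˣ),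
      GU (fun j => θ (u j)) (fun j => θ (v j)) c c' C' χ' → θ.range.index = n →
      P (sp k C') → P (sp k C) by
    intro G G' _ _ hfg θ hθ ht J u v c c' C _ _ _ χ hχ C' _ _ _ χ' hχ' hC'
    exact H _ G' hfg G θ hθ ht J u v c c' C χ hχ C' χ' hχ' rfl hC'
  intro n
  induction n using Nat.strong_induction_on with
  | _ n ih =>
    intro G' _ hfg G _ θ hθ ht J u v c c' C _ _ _ χ hχ C' _ _ _ χ' hχ' hn hC'
    by_cases hs : ∀ x : G', x ∈ θ.range
    · -- `θ` is bijective
      let e : G ≃+ G' := AddEquiv.ofBijective θ ⟨hθ, fun x => hs x⟩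
      have h1 : GU u v c c' C' (χ'.comp (AddMonoidHom.toMultiplicative e.toAddMonoidHom)) :=
        transport e hχ'
      obtain ⟨f, -⟩ := (hGUX k G J u v c c').2 C C' χ _ hχ h1
      exact hP.cls0.iso f.symm hC'
    · push Not at hs
      obtain ⟨x, hx⟩ := hs
      rcases subsingleton_or_nontrivial C with hC | hC
      · exact hP.cls0.triv C hC
      have hfin : Finite (G' ⧸ θ.range) := finite_quotient hfg θ.range ht
      have hfi : θ.range.FiniteIndex := AddSubgroup.finiteIndex_of_finite_quotient
      -- the order of `x`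
      set t : ℕ := addOrderOf (QuotientAddGroup.mk' θ.range x) with htd
      have ht0 : 0 < t := addOrderOf_pos _
      have htx : t • x ∈ θ.range := by
        have h1 : t • (QuotientAddGroup.mk' θ.range x) = 0 := addOrderOf_nsmul_eq_zero _
        rw [← map_nsmul] at h1
        exact (QuotientAddGroup.eq_zero_iff _).mp h1
      have htd' : ∀ i : ℤ, i • x ∈ θ.range → (t : ℤ) ∣ i := by
        intro i hi
        rw [htd, addOrderOf_dvd_iff_zsmul_eq_zero, ← map_zsmul]
        exact (QuotientAddGroup.eq_zero_iff _).mpr hi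
      obtain ⟨g, hg⟩ := htx
      -- the larger group
      let H₁ : AddSubgroup G' := θ.range ⊔ AddSubgroup.zmultiples x
      have hle : θ.range ≤ H₁ := le_sup_left
      have hxH : x ∈ H₁ := AddSubgroup.mem_sup_right (AddSubgroup.mem_zmultiples x)
      have hlt : θ.range < H₁ := lt_of_le_of_ne hle (fun h => hx (h ▸ hxH))
      let θ₁ : G →+ H₁ := θ.codRestrict H₁ fun a => hle ⟨a, rfl⟩
      have hθ₁ : Function.Injective θ₁ := fun a b h => hθ (congrArg Subtype.val h)
      let x₁ : H₁ := ⟨x, hxH⟩
      obtain ⟨C₁, i1, i2, i3, i4, i5, i6, χ₁, hrk, hχ₁⟩ := hGX1 k G H₁ θ₁ hθ₁ x₁ t ht0 g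
        (Subtype.ext hg.symm)
        (by
          rintro ⟨y, hy⟩
          obtain ⟨a, ⟨a', rfl⟩, b, hb, rfl⟩ := AddSubgroup.mem_sup.mp hy
          obtain ⟨i, rfl⟩ := AddSubgroup.mem_zmultiples_iff.mp hb
          exact ⟨a', i, Subtype.ext rfl⟩)
        (by
          rintro i ⟨a, ha⟩
          refine htd' i ⟨a, ?_⟩
          exact congrArg Subtype.val ha)
        J u v c c' C χ hχ
      have : Algebra.FiniteType k C₁ :=
        Algebra.FiniteType.trans (S := C) inferInstance inferInstance
      have hidx : H₁.subtype.range.index < n := by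
        rw [AddSubgroup.range_subtype, ← hn]
        exact AddSubgroup.index_strictAnti hlt
      have hP₁ : P (sp k C₁) := ih _ hidx G' hfg H₁ H₁.subtype Subtype.val_injective
        (fun y => by
          obtain ⟨t', h1, h2⟩ := ht y
          refine ⟨t', h1, ?_⟩
          rw [AddSubgroup.range_subtype]
          exact hle h2)
        J (fun j => θ₁ (u j)) (fun j => θ₁ (v j)) c c' C₁ χ₁ hχ₁ C' χ' hχ' rfl hC'
      exact hF C C₁ (by rw [hrk]; exact ht0) hP₁

end Pool.Agent.FMQ
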