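import Pool.Agent.FMQ.St2

/-!
# LAT: lattices
-/

set_option autoImplicit false

namespace Pool.Agent.FMQ

open Module

namespace LATAux

variable {G : Type} [AddCommGroup G]

/-- the elements with a multiple in `D` -/
def sat (D : Submodule ℤ G) : Submodule ℤ G where
  carrier := {x | ∃ t : ℤ, t ≠ 0 ∧ t • x ∈ D}
  zero_mem' := ⟨1, one_ne_zero, by simp⟩
  add_mem' := by
    rintro x y ⟨s, hs, hx⟩ ⟨t, ht, hy⟩
    refine ⟨s * t, mul_ne_zero hs ht, ?_⟩
    have e : (s * t) • (x + y) = t • (s • x) + s • (t • y) := by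
      rw [smul_add, smul_smul, smul_smul, mul_comm t s]
    rw [e]
    exact D.add_mem (D.smul_mem t hx) (D.smul_mem s hy)
  smul_mem' := by
    rintro c x ⟨s, hs, hx⟩
    refine ⟨s, hs, ?_⟩
    rw [smul_comm]
    exact D.smul_mem c hx

theorem tf (D : Submodule ℤ G) : IsTorsionFree ℤ (G ⧸ sat D) := by
  refine ⟨fun {r} hr => ?_⟩
  have hr0 : r ≠ 0 := hr.ne_zero
  intro x y hxy
  obtain ⟨x, rfl⟩ := Submodule.Quotient.mk_surjective _ x
  obtain ⟨y, rfl⟩ := Submodule.Quotient.mk_surjective _ y
  dsimp only at hxy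
  rw [← Submodule.Quotient.mk_smul, ← Submodule.Quotient.mk_smul, Submodule.Quotient.eq] at hxy
  rw [Submodule.Quotient.eq]
  obtain ⟨t, ht, h⟩ := hxy
  refine ⟨t * r, mul_ne_zero ht hr0, ?_⟩
  rwa [← smul_sub, smul_smul] at h

end LATAux

open LATAux in
theorem t_LAT : S_LAT := by
  intro G _ _ _ I _ _ d N hN hd hsat
  set D : Submodule ℤ G := Submodule.span ℤ (Set.range d) with hD
  have : IsTorsionFree ℤ (G ⧸ sat D) := tf D
  have : Module.Free ℤ (G ⧸ sat D) := Module.free_of_finite_type_torsion_free'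
  obtain ⟨q, b⟩ : Σ n : ℕ, Basis (Fin n) ℤ (G ⧸ sat D) := Module.basisOfFiniteTypeTorsionFree'
  obtain ⟨σ, hσ⟩ := Module.projective_lifting_property (sat D).mkQ
    (LinearMap.id : (G ⧸ sat D) →ₗ[ℤ] G ⧸ sat D) (Submodule.mkQ_surjective _)
  have hσ' : ∀ z, (sat D).mkQ (σ z) = z := fun z => by
    have := LinearMap.congr_fun hσ z
    simpa using this
  have hmem : ∀ x, (N : ℤ) • (x - σ ((sat D).mkQ x)) ∈ D := by
    intro x
    have h1 : x - σ ((sat D).mkQ x) ∈ sat D := by
      rw [← Submodule.Quotient.mk_eq_zero, ← Submodule.mkQ_apply, map_sub, hσ', sub_self]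
    obtain ⟨t, ht, h⟩ := h1
    exact hsat _ t ht h
  let φ : G →ₗ[ℤ] D := LinearMap.codRestrict D
    ((N : ℤ) • (LinearMap.id - σ ∘ₗ (sat D).mkQ)) (fun x => by simpa using hmem x)
  have hφ : ∀ x, ((φ x : D) : G) = (N : ℤ) • (x - σ ((sat D).mkQ x)) := fun x => by simp [φ]
  let B : Basis I ℤ D := Basis.span hd
  have hB : ∀ i, ((B i : D) : G) = d i := fun i => Basis.coe_span_apply hd i
  let θ : G →+ (I ⊕ Fin q → ℤ) :=
    { toFun := fun x => Sum.elim (fun i => B.repr (φ x) i)
        fun j => b.repr ((sat D).mkQ x) j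
      map_zero' := by
        funext k
        cases k <;> simp
      map_add' := by
        intro x y
        funext k
        cases k <;> simp [map_add] }
  have hN0 : (N : ℤ) ≠ 0 := by exact_mod_cast hN.ne'
  refine ⟨q, θ, ?_, ?_, ?_⟩
  · rw [injective_iff_map_eq_zero]
    intro x hx
    have h1 : (sat D).mkQ x = 0 := by
      apply b.repr.injective
      ext j
      have := congrFun hx (Sum.inr j)
      simpa [θ] using this
    have h2 : φ x = 0 := by
      apply B.repr.injective
      ext i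
      have := congrFun hx (Sum.inl i)
      simpa [θ] using this
    have h3 := hφ x
    rw [h1, h2, map_zero, sub_zero] at h3
    have h4 : (N : ℤ) • x = 0 := by simpa using h3.symm
    exact (smul_eq_zero.1 h4).resolve_left hN0
  · intro y
    have := Fintype.ofFinite I
    refine ⟨N, hN0, ∑ i, y (Sum.inl i) • d i + (N : ℤ) • σ (∑ j, y (Sum.inr j) • b j), ?_⟩
    have hd0 : ∀ i, (sat D).mkQ (d i) = 0 := fun i => by
      rw [Submodule.mkQ_apply, Submodule.Quotient.mk_eq_zero]
      exact ⟨1, one_ne_zero, by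
        rw [one_smul]; exact Submodule.subset_span ⟨i, rfl⟩⟩
    have h1 : (sat D).mkQ (∑ i, y (Sum.inl i) • d i +
        (N : ℤ) • σ (∑ j, y (Sum.inr j) • b j)) = (N : ℤ) • ∑ j, y (Sum.inr j) • b j := by
      rw [map_add, map_sum, map_smul, hσ']
      have : ∑ i, (sat D).mkQ (y (Sum.inl i) • d i) = 0 :=
        Finset.sum_eq_zero fun i _ => by rw [map_smul, hd0, smul_zero]
      rw [this, zero_add]
    have h2 : φ (∑ i, y (Sum.inl i) • d i + (N : ℤ) • σ (∑ j, y (Sum.inr j) • b j)) =
        (N : ℤ) • ∑ i, y (Sum.inl i) • B i := by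
      apply Subtype.ext
      rw [hφ, h1, map_smul, add_sub_cancel_right]
      simp [hB]
    funext k
    cases k with
    | inl i =>
      show B.repr (φ _) i = _
      rw [h2]
      simp [Finsupp.single_apply]
    | inr j =>
      show b.repr ((sat D).mkQ _) j = _
      rw [h1]
      simp [Finsupp.single_apply]
  · intro i
    have hd0 : (sat D).mkQ (d i) = 0 := by
      rw [Submodule.mkQ_apply, Submodule.Quotient.mk_eq_zero]
      exact ⟨1, one_ne_zero, by
        rw [one_smul]; exact Submodule.subset_span ⟨i, rfl⟩⟩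
    have h2 : φ (d i) = (N : ℤ) • B i := by
      apply Subtype.ext
      rw [hφ, hd0, map_zero, sub_zero]
      simp [hB]
    funext k
    cases k with
    | inl i' =>
      show B.repr (φ _) i' = _
      rw [h2]
      by_cases h : i = i'
      · subst h; simp
      · have h' : i' ≠ i := fun e => h e.symm
        simp [h']
    | inr j =>
      show b.repr ((sat D).mkQ _) j = _
      rw [hd0]
      simp

end Pool.Agent.FMQ
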