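import Pool.Agent.FMO.UNI
import Pool.Agent.FMQ.St

/-!
# Project FMQ, module MIX (helper33): the mixed family
-/

set_option autoImplicit false

open CategoryTheory AlgebraicGeometry Polynomial

namespace Pool.Agent.FMQ

open Pool.Agent.Lib_helper55.Beil (Var)
open UQ (Pt Mo di gp im IDim DimLE sp spol sdbl sdia sas squo szer cone PSub Units)
open FMO (At Sm Comp CompX Hom Act Add Few Univ Kp Inv)

namespace MIXAux

/-- the polynomial is a term -/
def Trm {k : Type} [Field k] {V : Type} (p : MvPolynomial V k) : Prop :=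
  ∃ (d : V →₀ ℕ) (α : k), p = MvPolynomial.monomial d α

variable {k : Type} [Field k] {V V' : Type}

lemma trm_of_card {p : MvPolynomial V k} (h : p.support.card ≤ 1) : Trm p := by
  rcases Nat.lt_or_ge p.support.card 1 with h1 | h1
  · have h2 : p.support = ∅ := Finset.card_eq_zero.1 (by omega)
    refine ⟨0, 0, ?_⟩
    rw [MvPolynomial.support_eq_empty.1 h2, map_zero]
  · obtain ⟨d, hd⟩ := Finset.card_eq_one.1 (le_antisymm h h1)
    refine ⟨d, MvPolynomial.coeff d p, ?_⟩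
    conv_lhs => rw [MvPolynomial.as_sum p, hd, Finset.sum_singleton]

lemma card_of_trm {p : MvPolynomial V k} (h : Trm p) : p.support.card ≤ 1 := by
  obtain ⟨d, α, rfl⟩ := h
  exact (Finset.card_le_card MvPolynomial.support_monomial_subset).trans
    (Finset.card_singleton d).le

lemma trm_rename (s : V → V') {p : MvPolynomial V k} (h : Trm p) :
    Trm (MvPolynomial.rename s p) := by
  obtain ⟨d, α, rfl⟩ := h
  exact ⟨_, _, MvPolynomial.rename_monomial _ _ _⟩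

lemma trm_mul {p q : MvPolynomial V k} (hp : Trm p) (hq : Trm q) : Trm (p * q) := by
  obtain ⟨d, α, rfl⟩ := hp
  obtain ⟨d', α', rfl⟩ := hq
  exact ⟨_, _, MvPolynomial.monomial_mul⟩

lemma trm_one : Trm (1 : MvPolynomial V k) := ⟨0, 1, rfl⟩

lemma trm_neg_one : Trm (-1 : MvPolynomial V k) := ⟨0, -1, by
  rw [map_neg]
  rfl⟩

/-- zero or a unit -/
def Z {C : Type} [CommRing C] (x : C) : Prop := x = 0 ∨ IsUnit x

lemma Z_mul {C : Type} [CommRing C] {x y : C} (hx : Z x) (hy : Z y) : Z (x * y) := by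
  rcases hx with rfl | hx
  · exact Or.inl (zero_mul y)
  · rcases hy with rfl | hy
    · exact Or.inl (mul_zero x)
    · exact Or.inr (hx.mul hy)

lemma Z_pow {C : Type} [CommRing C] {x : C} (hx : Z x) (n : ℕ) : Z (x ^ n) := by
  induction n with
  | zero => exact Or.inr (by rw [pow_zero]; exact isUnit_one)
  | succ n ih => rw [pow_succ]; exact Z_mul ih hx

lemma Z_trm {C : Type} [CommRing C] [Algebra k C] {φ : V → C} (hφ : ∀ v, Z (φ v))
    {p : MvPolynomial V k} (hp : Trm p) : Z (MvPolynomial.aeval φ p) := by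
  obtain ⟨d, α, rfl⟩ := hp
  rw [MvPolynomial.aeval_monomial]
  refine Z_mul ?_ ?_
  · by_cases h : α = 0
    · left
      rw [h, map_zero]
    · right
      exact (isUnit_iff_ne_zero.2 h).map _
  · unfold Finsupp.prod
    exact Finset.prod_induction _ Z (fun _ _ => Z_mul) (Or.inr isUnit_one)
      fun v _ => Z_pow (hφ v) _

end MIXAux

open MIXAux in
theorem t_MIX : M_MIX := by
  intro hRES hCIN hCLF hSTM hSTV hELN hEXU hUNQ hMXV hQU3 hDBL k _ h2 P hP m hm hB n r ι f a e c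
    hf ha hc he
  have hC := hCLF k P hP
  have hres : ∀ (A : Type) [CommRing A] [Algebra k A] [Algebra.FiniteType k A],
      (∀ q : PrimeSpectrum A, Comp k m (Kp q)) → P (sp k A) := by
    intro A _ _ _ hq
    refine hB _ fun x => ?_
    obtain ⟨q, hq'⟩ := (hRES k A (fun F [Field F] [Algebra k F] => Comp k m F) (hCIN k m).1).1 x
    exact hq'.2 (hq q)
  obtain ⟨ι', f', φ, hφ, hfew, huniv⟩ := hELN k m n ι f hf
  -- the algebra of the system
  have hsys : sys f a e c = fun j => MvPolynomial.rename finSumFinEquiv (sy f a e c j) := by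
    funext j
    unfold sys sy
    rcases j with j | j
    · simp only [Sum.elim_inl, MvPolynomial.rename_rename]
      congr 1
    · simp only [Sum.elim_inr, map_add, map_sum, map_mul, map_pow, MvPolynomial.rename_rename,
        MvPolynomial.rename_X]
      rfl
  have hR1 := FMO.t_UNI k (Fin (n + r)) (ι ⊕ Unit) (sys f a e c)
  rw [hsys] at hR1
  have hR := (hUNQ k).2 _ _ _ finSumFinEquiv (sy f a e c) _ _ hR1
  rw [← hsys] at hR
  -- the quotient of the polynomial ring over `A`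
  have hA := FMO.t_UNI k (Fin n) ι f
  have hQ := hMXV k (Fin n) ι r f a e c ∅ ∅ _ _ hA
  rw [Set.image_empty] at hQ
  obtain ⟨E1, -⟩ := (hUNQ k).1 _ _ _ _ _ _ _ _ _ hR hQ
  -- it is universal for the system with the auxiliary variables
  obtain ⟨b, hb⟩ : ∃ b : Fin r → MvPolynomial (Fin n ⊕ Fin m) k,
    b = fun j => MvPolynomial.rename Sum.inl (a j) := ⟨_, rfl⟩
  obtain ⟨c', hc'⟩ : ∃ c' : MvPolynomial (Fin n ⊕ Fin m) k,
    c' = MvPolynomial.rename Sum.inl c := ⟨_, rfl⟩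
  have hval : ∀ p : MvPolynomial (Fin n) k, MvPolynomial.aeval φ (MvPolynomial.rename Sum.inl p) =
      MvPolynomial.aeval (fun v => Ideal.Quotient.mk (Ideal.span (Set.range f))
        (MvPolynomial.X v)) p := by
    intro p
    rw [MvPolynomial.aeval_rename]
    congr 2
    funext v
    exact hφ v
  have hQ' : ∀ (α : Fin r → MvPolynomial (Fin n) k ⧸ Ideal.span (Set.range f))
      (γ : MvPolynomial (Fin n) k ⧸ Ideal.span (Set.range f)),
      α = (fun j => MvPolynomial.aeval φ (b j)) → γ = MvPolynomial.aeval φ c' →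
      Univ (sy f' b e c') ∅ ∅ (Qd α e γ)
        (Sum.elim (fun v => Ideal.Quotient.mk _ (MvPolynomial.C (φ v)))
          fun j => Ideal.Quotient.mk _ (MvPolynomial.X j)) := by
    rintro _ _ rfl rfl
    have h1 := hMXV k _ ι' r f' b e c' ∅ ∅ _ _ huniv
    rw [Set.image_empty] at h1
    exact h1
  have hQ2 := hQ' (fun j => MvPolynomial.aeval (fun v => Ideal.Quotient.mk
      (Ideal.span (Set.range f)) (MvPolynomial.X v)) (a j))
    (MvPolynomial.aeval (fun v => Ideal.Quotient.mk (Ideal.span (Set.range f))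
      (MvPolynomial.X v)) c)
    (by rw [hb]; funext j; exact (hval _).symm) (by rw [hc']; exact (hval _).symm)
  refine hC.iso E1.symm ?_
  refine hSTV k _ hC ((Fin n ⊕ Fin m) ⊕ Fin r) (ι' ⊕ Unit) (sy f' b e c') (Set.range Sum.inl)
    ?_ _ _ hQ2
  intro U Z₁ hU hZ hUZ C _ _ _ ψ hψ
  obtain ⟨U₀, rfl⟩ : ∃ U₀ : Set (Fin n ⊕ Fin m), U = Sum.inl '' U₀ :=
    ⟨Sum.inl ⁻¹' U, (Set.image_preimage_eq_of_subset hU).symm⟩
  obtain ⟨Z₀, rfl⟩ : ∃ Z₀ : Set (Fin n ⊕ Fin m), Z₁ = Sum.inl '' Z₀ :=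
    ⟨Sum.inl ⁻¹' Z₁, (Set.image_preimage_eq_of_subset hZ).symm⟩
  have hUZ₀ : ∀ v, v ∈ U₀ ∨ v ∈ Z₀ := by
    intro v
    rcases hUZ (Sum.inl v) ⟨v, rfl⟩ with ⟨w, hw, hwv⟩ | ⟨w, hw, hwv⟩
    · rw [Sum.inl_injective hwv] at hw
      exact Or.inl hw
    · rw [Sum.inl_injective hwv] at hw
      exact Or.inr hw
  obtain ⟨C₀, _, _, _, φ₀, hφ₀⟩ := hEXU k (Fin n ⊕ Fin m) ι' f' U₀ Z₀
  have hQ3 := hMXV k _ ι' r f' b e c' U₀ Z₀ C₀ φ₀ hφ₀
  obtain ⟨E2, -⟩ := (hUNQ k).1 _ _ _ _ _ _ _ _ _ hψ hQ3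
  have hv : ∀ v, Z (φ₀ v) := by
    intro v
    rcases hUZ₀ v with h | h
    · exact Or.inr (hφ₀.unit v h)
    · exact Or.inl (hφ₀.zero v h)
  have hbt : ∀ j, Trm (b j) := by
    intro j
    rw [hb]
    exact trm_rename _ (trm_of_card (ha j))
  have hct : Trm c' := by
    rw [hc']
    exact trm_rename _ (trm_of_card hc)
  refine hC.iso E2.symm ?_
  refine hQU3 k h2 P hP C₀ r _ e _ (fun j => Z_trm hv (hbt j)) (Z_trm hv hct) he
    (hSTM k _ hC m hm hres _ ι' f' hfew U₀ Z₀ hUZ₀ C₀ φ₀ hφ₀) ?_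
  intro x hx hxu
  have hcl : ∃ τ : MvPolynomial (Fin n ⊕ Fin m) k, Trm τ ∧ MvPolynomial.aeval φ₀ τ = x := by
    refine Submonoid.closure_induction (motive := fun x _ => ∃ τ : MvPolynomial (Fin n ⊕ Fin m) k,
      Trm τ ∧ MvPolynomial.aeval φ₀ τ = x) ?_ ?_ ?_ hx
    · rintro y (rfl | rfl | ⟨j, rfl⟩)
      · exact ⟨-1, trm_neg_one, by rw [map_neg, map_one]⟩
      · exact ⟨c', hct, rfl⟩
      · exact ⟨b j, hbt j, rfl⟩
    · exact ⟨1, trm_one, map_one _⟩
    · rintro y z - - ⟨τ, h1, rfl⟩ ⟨τ', h3, rfl⟩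
      exact ⟨τ * τ', trm_mul h1 h3, map_mul _ _ _⟩
  obtain ⟨τ, hτ, rfl⟩ := hcl
  exact hDBL k _ hC m hm hres _ ι' f' hfew U₀ Z₀ hUZ₀ C₀ φ₀ hφ₀ τ (card_of_trm hτ) hxu _

end Pool.Agent.FMQ
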