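import Pool.Agent.FMQ.St2

/-!
# FMQ_ONE (helper49): one step of the elimination of equations with more than three monomials
-/

set_option autoImplicit false

open scoped Classical

namespace Pool.Agent.FMQ

namespace ONEAux

open MvPolynomial

variable {k : Type} [Field k] {n r : ℕ}

/-- the exponents in the larger polynomial ring -/
noncomputable def em (γ : Fin n →₀ ℕ) : Fin (n + 1) →₀ ℕ := γ.mapDomain Fin.castSucc

/-- the exponent of the new variable -/
noncomputable def sg (n : ℕ) : Fin (n + 1) →₀ ℕ := Finsupp.single (Fin.last n) 1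

lemma em_cast (γ : Fin n →₀ ℕ) (v : Fin n) : em γ (Fin.castSucc v) = γ v :=
  Finsupp.mapDomain_apply (Fin.castSucc_injective n) γ v

lemma em_last (γ : Fin n →₀ ℕ) : em γ (Fin.last n) = 0 :=
  Finsupp.mapDomain_of_notMem_range γ _ (by
    rintro ⟨v, hv⟩
    exact (Fin.castSucc_lt_last v).ne hv)

lemma em_inj : Function.Injective (em (n := n)) :=
  Finsupp.mapDomain_injective (Fin.castSucc_injective n)

lemma sg_last : sg n (Fin.last n) = 1 := Finsupp.single_eq_same

lemma sg_cast (v : Fin n) : sg n (Fin.castSucc v) = 0 :=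
  Finsupp.single_eq_of_ne (Fin.castSucc_lt_last v).ne

lemma em_ne (γ : Fin n →₀ ℕ) : em γ ≠ sg n := by
  intro h
  have h1 := DFunLike.congr_fun h (Fin.last n)
  rw [em_last, sg_last] at h1
  exact absurd h1 (by decide)

/-- the sum of the coefficients -/
noncomputable def dg {σ : Type} : ((σ →₀ ℕ) →₀ ℤ) →+ ℤ :=
  Finsupp.liftAddHom fun _ => AddMonoidHom.id ℤ

/-- one coordinate of the sum of the exponents -/
noncomputable def ev {σ : Type} (v : σ) : ((σ →₀ ℕ) →₀ ℤ) →+ ℤ :=
  Finsupp.liftAddHom fun γ => AddMonoidHom.mulRight (γ v : ℤ)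

lemma dg_apply {σ : Type} (z : (σ →₀ ℕ) →₀ ℤ) : dg z = z.sum fun _ c => c := rfl

lemma ev_apply {σ : Type} (v : σ) (z : (σ →₀ ℕ) →₀ ℤ) :
    ev v z = z.sum fun γ c => c * (γ v : ℤ) := rfl

lemma dg_single {σ : Type} (γ : σ →₀ ℕ) (c : ℤ) : dg (Finsupp.single γ c) = c := by
  rw [dg_apply, Finsupp.sum_single_index rfl]

lemma ev_single {σ : Type} (v : σ) (γ : σ →₀ ℕ) (c : ℤ) :
    ev v (Finsupp.single γ c) = c * (γ v : ℤ) := by
  rw [ev_apply, Finsupp.sum_single_index (zero_mul _)]

/-- the coefficients in the larger polynomial ring -/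
noncomputable def EE (y : (Fin n →₀ ℕ) →₀ ℤ) : (Fin (n + 1) →₀ ℕ) →₀ ℤ := y.mapDomain em

lemma EE_em (y : (Fin n →₀ ℕ) →₀ ℤ) (γ : Fin n →₀ ℕ) : EE y (em γ) = y γ :=
  Finsupp.mapDomain_apply em_inj y γ

lemma EE_out (y : (Fin n →₀ ℕ) →₀ ℤ) (γ : Fin (n + 1) →₀ ℕ) (h : ∀ δ, em δ ≠ γ) : EE y γ = 0 :=
  Finsupp.mapDomain_of_notMem_range y _ (by
    rintro ⟨δ, hδ⟩
    exact h δ hδ)

lemma EE_sg (y : (Fin n →₀ ℕ) →₀ ℤ) : EE y (sg n) = 0 := EE_out y _ em_ne

lemma dg_EE (y : (Fin n →₀ ℕ) →₀ ℤ) : dg (EE y) = dg y := by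
  rw [dg_apply, EE, Finsupp.sum_mapDomain_index (fun _ => rfl) (fun _ _ _ => rfl)]
  rfl

lemma ev_cast_EE (y : (Fin n →₀ ℕ) →₀ ℤ) (v : Fin n) : ev (Fin.castSucc v) (EE y) = ev v y := by
  rw [ev_apply, EE, Finsupp.sum_mapDomain_index (fun _ => zero_mul _) (fun _ _ _ => add_mul _ _ _)]
  simp only [em_cast]
  rfl

lemma ev_last_EE (y : (Fin n →₀ ℕ) →₀ ℤ) : ev (Fin.last n) (EE y) = 0 := by
  rw [ev_apply, EE, Finsupp.sum_mapDomain_index (fun _ => zero_mul _) (fun _ _ _ => add_mul _ _ _)]
  simp [em_last]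

/-- the part with the old variables -/
noncomputable def co (y : (Fin (n + 1) →₀ ℕ) →₀ ℤ) : (Fin n →₀ ℕ) →₀ ℤ :=
  y.comapDomain em em_inj.injOn

lemma co_apply (y : (Fin (n + 1) →₀ ℕ) →₀ ℤ) (γ : Fin n →₀ ℕ) : co y γ = y (em γ) :=
  Finsupp.comapDomain_apply _ _ _ _

lemma dec (y : (Fin (n + 1) →₀ ℕ) →₀ ℤ) (h : ∀ γ, y γ ≠ 0 → γ = sg n ∨ ∃ δ, em δ = γ) :
    y = Finsupp.single (sg n) (y (sg n)) + EE (co y) := by
  apply Finsupp.ext
  intro γ
  rw [Finsupp.add_apply]
  by_cases h1 : γ = sg n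
  · subst h1
    rw [Finsupp.single_eq_same, EE_sg, add_zero]
  · rw [Finsupp.single_eq_of_ne h1, zero_add]
    by_cases h2 : ∃ δ, em δ = γ
    · obtain ⟨δ, rfl⟩ := h2
      rw [EE_em, co_apply]
    · rw [EE_out _ _ (fun δ hδ => h2 ⟨δ, hδ⟩)]
      by_contra h3
      rcases h γ h3 with h4 | h4
      · exact h1 h4
      · exact h2 h4

lemma dg_dec (y : (Fin (n + 1) →₀ ℕ) →₀ ℤ) (h : ∀ γ, y γ ≠ 0 → γ = sg n ∨ ∃ δ, em δ = γ) :
    dg y = y (sg n) + dg (co y) := by
  conv_lhs => rw [dec y h]
  rw [map_add, dg_single, dg_EE]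

lemma ev_cast_dec (y : (Fin (n + 1) →₀ ℕ) →₀ ℤ)
    (h : ∀ γ, y γ ≠ 0 → γ = sg n ∨ ∃ δ, em δ = γ) (v : Fin n) :
    ev (Fin.castSucc v) y = ev v (co y) := by
  conv_lhs => rw [dec y h]
  rw [map_add, ev_single, ev_cast_EE, sg_cast, Nat.cast_zero, mul_zero, zero_add]

lemma ev_last_dec (y : (Fin (n + 1) →₀ ℕ) →₀ ℤ)
    (h : ∀ γ, y γ ≠ 0 → γ = sg n ∨ ∃ δ, em δ = γ) : ev (Fin.last n) y = y (sg n) := by
  conv_lhs => rw [dec y h]
  rw [map_add, ev_single, ev_last_EE, sg_last, Nat.cast_one, mul_one, add_zero]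

/-- the old polynomials in the larger ring -/
noncomputable def rho (n : ℕ) (k : Type) [Field k] :
    MvPolynomial (Fin n) k →ₐ[k] MvPolynomial (Fin (n + 1)) k := rename Fin.castSucc

lemma coeff_rho_em (φ : MvPolynomial (Fin n) k) (γ : Fin n →₀ ℕ) :
    coeff (em γ) (rho n k φ) = coeff γ φ :=
  coeff_rename_mapDomain _ (Fin.castSucc_injective n) φ γ

lemma coeff_rho_out (φ : MvPolynomial (Fin n) k) (γ : Fin (n + 1) →₀ ℕ) (h : ∀ δ, em δ ≠ γ) :
    coeff γ (rho n k φ) = 0 :=
  coeff_rename_eq_zero _ _ _ (fun u hu => absurd hu (h u))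

lemma mem_rho (φ : MvPolynomial (Fin n) k) (γ : Fin (n + 1) →₀ ℕ) :
    γ ∈ (rho n k φ).support ↔ ∃ δ ∈ φ.support, em δ = γ := by
  rw [mem_support_iff]
  constructor
  · intro h
    by_cases h2 : ∃ δ, em δ = γ
    · obtain ⟨δ, rfl⟩ := h2
      rw [coeff_rho_em] at h
      exact ⟨δ, mem_support_iff.2 h, rfl⟩
    · exact absurd (coeff_rho_out φ γ fun δ hδ => h2 ⟨δ, hδ⟩) h
  · rintro ⟨δ, hδ, rfl⟩
    rw [coeff_rho_em]
    exact mem_support_iff.1 hδ

lemma card_rho (φ : MvPolynomial (Fin n) k) :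
    (rho n k φ).support.card = φ.support.card := by
  have : (rho n k φ).support = φ.support.image em := by
    ext γ
    rw [mem_rho, Finset.mem_image]
  rw [this, Finset.card_image_of_injective _ em_inj]

/-- the new variable plus an old polynomial -/
noncomputable def nw (φ : MvPolynomial (Fin n) k) : MvPolynomial (Fin (n + 1)) k :=
  X (Fin.last n) + rho n k φ

lemma mem_nw (φ : MvPolynomial (Fin n) k) (γ : Fin (n + 1) →₀ ℕ) :
    γ ∈ (nw φ).support ↔ γ = sg n ∨ ∃ δ ∈ φ.support, em δ = γ := by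
  rw [mem_support_iff, nw, coeff_add, ← mem_rho, mem_support_iff, coeff_X]
  by_cases h : γ = sg n
  · subst h
    rw [coeff_rho_out φ _ em_ne, add_zero]
    have : Finsupp.single (Fin.last n) 1 = sg n := rfl
    rw [if_pos this]
    simp
  · have : ¬ Finsupp.single (Fin.last n) 1 = γ := fun h1 => h h1.symm
    rw [if_neg this, zero_add]
    simp [h]

lemma card_nw (φ : MvPolynomial (Fin n) k) :
    (nw φ).support.card = φ.support.card + 1 := by
  have : (nw φ).support = insert (sg n) (φ.support.image em) := by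
    ext γ
    rw [mem_nw, Finset.mem_insert, Finset.mem_image]
  rw [this, Finset.card_insert_of_notMem, Finset.card_image_of_injective _ em_inj]
  rw [Finset.mem_image]
  rintro ⟨δ, -, hδ⟩
  exact em_ne δ hδ

/-- add `u` to one component -/
noncomputable def cmb {M : Type} [AddCommGroup M] (y : Fin r → M) (j : Fin r) (u : M) : Fin r → M :=
  fun i => y i + if i = j then u else 0

lemma cmb_self {M : Type} [AddCommGroup M] (y : Fin r → M) (j : Fin r) (u : M) :
    cmb y j u j = y j + u := by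
  rw [cmb, if_pos rfl]

lemma cmb_ne {M : Type} [AddCommGroup M] (y : Fin r → M) (j : Fin r) (u : M) {i : Fin r}
    (h : i ≠ j) : cmb y j u i = y i := by
  rw [cmb, if_neg h, add_zero]

lemma sum_cmb {M : Type} [AddCommGroup M] (y : Fin r → M) (j : Fin r) (u : M) (F : M →+ ℤ) :
    ∑ i, F (cmb y j u i) = ∑ i, F (y i) + F u := by
  unfold cmb
  simp only [map_add, Finset.sum_add_distrib]
  congr 1
  rw [Finset.sum_eq_single j]
  · rw [if_pos rfl]
  · intro b _ hb
    rw [if_neg hb, map_zero]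
  · intro h
    exact absurd (Finset.mem_univ j) h

lemma tot_apply (z : Fin r → (Fin n →₀ ℕ) →₀ ℤ) (v : Fin n) : tot z v = ∑ i, ev v (z i) := rfl

section

variable (f : Fin r → MvPolynomial (Fin n) k) (j : Fin r) (α β : Fin n →₀ ℕ)

/-- the two terms, with a minus sign -/
noncomputable def mm : MvPolynomial (Fin n) k :=
  - monomial α (coeff α (f j)) - monomial β (coeff β (f j))

/-- the rest -/
noncomputable def gg : MvPolynomial (Fin n) k := f j + mm f j α β

/-- the new system -/
noncomputable def fn : Fin (r + 1) → MvPolynomial (Fin (n + 1)) k :=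
  Fin.snoc (α := fun _ => MvPolynomial (Fin (n + 1)) k)
    (fun i => if i = j then nw (gg f j α β) else rho n k (f i)) (nw (mm f j α β))

lemma fn_last : fn f j α β (Fin.last r) = nw (mm f j α β) := Fin.snoc_last _ _

lemma fn_self : fn f j α β (Fin.castSucc j) = nw (gg f j α β) := by
  rw [fn, Fin.snoc_castSucc, if_pos rfl]

lemma fn_ne {i : Fin r} (h : i ≠ j) : fn f j α β (Fin.castSucc i) = rho n k (f i) := by
  rw [fn, Fin.snoc_castSucc, if_neg h]

variable {f j α β}

lemma mem_mm (h1 : α ∈ (f j).support) (h2 : β ∈ (f j).support) (h : α ≠ β) (γ : Fin n →₀ ℕ) :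
    γ ∈ (mm f j α β).support ↔ γ = α ∨ γ = β := by
  rw [mem_support_iff, mm, coeff_sub, coeff_neg, coeff_monomial, coeff_monomial]
  by_cases h3 : α = γ
  · subst h3
    rw [if_pos rfl, if_neg h.symm, sub_zero, neg_ne_zero]
    exact ⟨fun _ => Or.inl rfl, fun _ => mem_support_iff.1 h1⟩
  · rw [if_neg h3, neg_zero, zero_sub, neg_ne_zero]
    by_cases h4 : β = γ
    · subst h4
      rw [if_pos rfl]
      exact ⟨fun _ => Or.inr rfl, fun _ => mem_support_iff.1 h2⟩
    · rw [if_neg h4]
      constructor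
      · intro h5
        exact absurd rfl h5
      · rintro (h5 | h5)
        · exact absurd h5.symm h3
        · exact absurd h5.symm h4

lemma mem_gg (h : α ≠ β) (γ : Fin n →₀ ℕ) :
    γ ∈ (gg f j α β).support ↔ γ ∈ (f j).support ∧ γ ≠ α ∧ γ ≠ β := by
  rw [mem_support_iff, mem_support_iff, gg, mm, coeff_add, coeff_sub, coeff_neg, coeff_monomial,
    coeff_monomial]
  by_cases h3 : α = γ
  · subst h3
    rw [if_pos rfl, if_neg h.symm]
    simp
  · rw [if_neg h3]
    by_cases h4 : β = γ
    · subst h4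
      rw [if_pos rfl]
      simp
    · rw [if_neg h4]
      simp only [neg_zero, sub_zero, add_zero]
      exact ⟨fun h5 => ⟨h5, fun h6 => h3 h6.symm, fun h6 => h4 h6.symm⟩, fun h5 => h5.1⟩

lemma card_mm (h1 : α ∈ (f j).support) (h2 : β ∈ (f j).support) (h : α ≠ β) :
    (mm f j α β).support.card = 2 := by
  have : (mm f j α β).support = {α, β} := by
    ext γ
    rw [mem_mm h1 h2 h, Finset.mem_insert, Finset.mem_singleton]
  rw [this, Finset.card_pair h]

lemma card_gg (h1 : α ∈ (f j).support) (h2 : β ∈ (f j).support) (h : α ≠ β) :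
    (gg f j α β).support.card + 2 = (f j).support.card := by
  have : (gg f j α β).support = (f j).support \ {α, β} := by
    ext γ
    rw [mem_gg h, Finset.mem_sdiff, Finset.mem_insert, Finset.mem_singleton, not_or]
  have h3 : ({α, β} : Finset (Fin n →₀ ℕ)) ⊆ (f j).support := by
    intro γ hγ
    rw [Finset.mem_insert, Finset.mem_singleton] at hγ
    rcases hγ with rfl | rfl
    · exact h1
    · exact h2
  have h4 := Finset.card_sdiff_add_card_eq_card h3
  rw [Finset.card_pair h] at h4
  rw [this]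
  exact h4

/-- the algebras are isomorphic -/
lemma iso : Nonempty ((MvPolynomial (Fin n) k ⧸ Ideal.span (Set.range f)) ≃ₐ[k]
    (MvPolynomial (Fin (n + 1)) k ⧸ Ideal.span (Set.range (fn f j α β)))) := by
  have hm : ∀ i, fn f j α β i ∈ Ideal.span (Set.range (fn f j α β)) := fun i =>
    Ideal.subset_span ⟨i, rfl⟩
  have hf : ∀ i, f i ∈ Ideal.span (Set.range f) := fun i => Ideal.subset_span ⟨i, rfl⟩
  have hj : rho n k (f j) = fn f j α β (Fin.castSucc j) - fn f j α β (Fin.last r) := by
    rw [fn_self, fn_last, nw, nw, gg, map_add]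
    ring
  let F : (MvPolynomial (Fin n) k ⧸ Ideal.span (Set.range f)) →ₐ[k]
      (MvPolynomial (Fin (n + 1)) k ⧸ Ideal.span (Set.range (fn f j α β))) :=
    Ideal.Quotient.liftₐ _ ((Ideal.Quotient.mkₐ k _).comp (rho n k)) (by
      intro a ha
      have h1 : Ideal.span (Set.range f) ≤
          RingHom.ker ((Ideal.Quotient.mkₐ k (Ideal.span (Set.range (fn f j α β)))).comp
            (rho n k)) := by
        rw [Ideal.span_le]
        rintro _ ⟨i, rfl⟩
        change (Ideal.Quotient.mk (Ideal.span (Set.range (fn f j α β)))) (rho n k (f i)) = 0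
        rw [Ideal.Quotient.eq_zero_iff_mem]
        by_cases h : i = j
        · subst h
          rw [hj]
          exact Ideal.sub_mem _ (hm _) (hm _)
        · rw [← fn_ne f j α β h]
          exact hm _
      exact h1 ha)
  let G₀ : MvPolynomial (Fin (n + 1)) k →ₐ[k] MvPolynomial (Fin n) k :=
    aeval (Fin.snoc (α := fun _ => MvPolynomial (Fin n) k) X (- mm f j α β))
  have hG₀ : ∀ φ, G₀ (rho n k φ) = φ := by
    intro φ
    change aeval _ (rename _ φ) = φ
    rw [aeval_rename]
    have : (Fin.snoc (α := fun _ => MvPolynomial (Fin n) k) X (- mm f j α β)) ∘ Fin.castSucc =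
        (X : Fin n → MvPolynomial (Fin n) k) := by
      funext v
      exact Fin.snoc_castSucc _ _ _
    rw [this]
    exact aeval_X_left_apply φ
  have hGX : G₀ (X (Fin.last n)) = - mm f j α β := by
    change aeval _ (X (Fin.last n)) = _
    rw [aeval_X]
    exact Fin.snoc_last _ _
  have hGn : ∀ φ, G₀ (nw φ) = - mm f j α β + φ := by
    intro φ
    rw [nw, map_add, hG₀, hGX]
  let G : (MvPolynomial (Fin (n + 1)) k ⧸ Ideal.span (Set.range (fn f j α β))) →ₐ[k]
      (MvPolynomial (Fin n) k ⧸ Ideal.span (Set.range f)) :=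
    Ideal.Quotient.liftₐ _ ((Ideal.Quotient.mkₐ k _).comp G₀) (by
      intro a ha
      have h1 : Ideal.span (Set.range (fn f j α β)) ≤
          RingHom.ker ((Ideal.Quotient.mkₐ k (Ideal.span (Set.range f))).comp G₀) := by
        rw [Ideal.span_le]
        rintro _ ⟨i, rfl⟩
        change (Ideal.Quotient.mk (Ideal.span (Set.range f))) (G₀ (fn f j α β i)) = 0
        rw [Ideal.Quotient.eq_zero_iff_mem]
        induction i using Fin.lastCases with
        | last =>
          rw [fn_last, hGn, neg_add_cancel]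
          exact Ideal.zero_mem _
        | cast i =>
          by_cases h : i = j
          · subst h
            rw [fn_self, hGn, gg, add_comm, add_assoc, add_neg_cancel, add_zero]
            exact hf _
          · rw [fn_ne f j α β h, hG₀]
            exact hf _
      exact h1 ha)
  refine ⟨AlgEquiv.ofAlgHom F G ?_ ?_⟩
  · apply Ideal.Quotient.algHom_ext
    apply MvPolynomial.algHom_ext
    intro v
    change (Ideal.Quotient.mk (Ideal.span (Set.range (fn f j α β)))) (rho n k (G₀ (X v))) =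
      (Ideal.Quotient.mk (Ideal.span (Set.range (fn f j α β)))) (X v)
    induction v using Fin.lastCases with
    | last =>
      rw [hGX, Ideal.Quotient.eq, map_neg]
      have h1 : - rho n k (mm f j α β) - X (Fin.last n) = - fn f j α β (Fin.last r) := by
        rw [fn_last, nw]
        ring
      rw [h1]
      exact neg_mem (hm _)
    | cast v =>
      have h1 : (X (Fin.castSucc v) : MvPolynomial (Fin (n + 1)) k) = rho n k (X v) :=
        (rename_X _ _).symm
      rw [h1, hG₀]
  · apply Ideal.Quotient.algHom_ext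
    apply MvPolynomial.algHom_ext
    intro v
    change (Ideal.Quotient.mk (Ideal.span (Set.range f))) (G₀ (rho n k (X v))) =
      (Ideal.Quotient.mk (Ideal.span (Set.range f))) (X v)
    rw [hG₀]

variable (hα : α ∈ (f j).support) (hβ : β ∈ (f j).support) (hab : α ≠ β)

include hα hβ hab

lemma sup_last {z : Fin (r + 1) → (Fin (n + 1) →₀ ℕ) →₀ ℤ} (hz : Rel (fn f j α β) z)
    {γ : Fin (n + 1) →₀ ℕ} (h : z (Fin.last r) γ ≠ 0) : γ = sg n ∨ em α = γ ∨ em β = γ := by
  have h1 := hz.1 _ _ h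
  rw [fn_last, mem_nw] at h1
  rcases h1 with h1 | ⟨δ, h1, h2⟩
  · exact Or.inl h1
  · rw [mem_mm hα hβ hab] at h1
    rcases h1 with rfl | rfl
    · exact Or.inr (Or.inl h2)
    · exact Or.inr (Or.inr h2)

omit hα hβ in
lemma sup_self {z : Fin (r + 1) → (Fin (n + 1) →₀ ℕ) →₀ ℤ} (hz : Rel (fn f j α β) z)
    {γ : Fin (n + 1) →₀ ℕ} (h : z (Fin.castSucc j) γ ≠ 0) :
    γ = sg n ∨ ∃ δ, em δ = γ ∧ δ ∈ (f j).support ∧ δ ≠ α ∧ δ ≠ β := by
  have h1 := hz.1 _ _ h
  rw [fn_self, mem_nw] at h1
  rcases h1 with h1 | ⟨δ, h1, h2⟩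
  · exact Or.inl h1
  · rw [mem_gg hab] at h1
    exact Or.inr ⟨δ, h2, h1⟩

omit hα hβ hab in
lemma sup_ne {z : Fin (r + 1) → (Fin (n + 1) →₀ ℕ) →₀ ℤ} (hz : Rel (fn f j α β) z) {i : Fin r}
    (hi : i ≠ j) {γ : Fin (n + 1) →₀ ℕ} (h : z (Fin.castSucc i) γ ≠ 0) :
    ∃ δ, em δ = γ ∧ δ ∈ (f i).support := by
  have h1 := hz.1 _ _ h
  rw [fn_ne f j α β hi, mem_rho] at h1
  obtain ⟨δ, h1, h2⟩ := h1
  exact ⟨δ, h2, h1⟩

lemma sup_all {z : Fin (r + 1) → (Fin (n + 1) →₀ ℕ) →₀ ℤ} (hz : Rel (fn f j α β) z)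
    (i : Fin (r + 1)) : ∀ γ, z i γ ≠ 0 → γ = sg n ∨ ∃ δ, em δ = γ := by
  intro γ h
  induction i using Fin.lastCases with
  | last =>
    rcases sup_last hα hβ hab hz h with h1 | h1 | h1
    · exact Or.inl h1
    · exact Or.inr ⟨_, h1⟩
    · exact Or.inr ⟨_, h1⟩
  | cast i =>
    by_cases hi : i = j
    · subst hi
      rcases sup_self hab hz h with h1 | ⟨δ, h1, -⟩
      · exact Or.inl h1
      · exact Or.inr ⟨_, h1⟩
    · obtain ⟨δ, h1, -⟩ := sup_ne hz hi h
      exact Or.inr ⟨_, h1⟩

omit hα hβ hab in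
lemma zero_sg {z : Fin (r + 1) → (Fin (n + 1) →₀ ℕ) →₀ ℤ} (hz : Rel (fn f j α β) z) {i : Fin r}
    (hi : i ≠ j) : z (Fin.castSucc i) (sg n) = 0 := by
  by_contra h
  obtain ⟨δ, h1, -⟩ := sup_ne hz hi h
  exact em_ne δ h1

/-- the relation of the old system -/
lemma down {z : Fin (r + 1) → (Fin (n + 1) →₀ ℕ) →₀ ℤ} (hz : Rel (fn f j α β) z) :
    Rel f (cmb (fun i => co (z (Fin.castSucc i))) j
      (co (z (Fin.last r)) + Finsupp.single α (tot z (Fin.last n)))) ∧
    ∀ v, tot (cmb (fun i => co (z (Fin.castSucc i))) j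
      (co (z (Fin.last r)) + Finsupp.single α (tot z (Fin.last n)))) v =
        tot z (Fin.castSucc v) + tot z (Fin.last n) * α v := by
  have hall := sup_all hα hβ hab hz
  have htl : tot z (Fin.last n) = z (Fin.castSucc j) (sg n) + z (Fin.last r) (sg n) := by
    rw [tot_apply, Fin.sum_univ_castSucc]
    rw [ev_last_dec _ (hall _)]
    congr 1
    rw [Finset.sum_eq_single j]
    · rw [ev_last_dec _ (hall _)]
    · intro b _ hb
      rw [ev_last_dec _ (hall _), zero_sg hz hb]
    · intro h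
      exact absurd (Finset.mem_univ j) h
  have hdg : ∀ i, z i (sg n) + dg (co (z i)) = 0 := by
    intro i
    rw [← dg_dec _ (hall i)]
    exact hz.2 i
  refine ⟨⟨?_, ?_⟩, ?_⟩
  · intro i γ h
    by_cases hi : i = j
    · subst hi
      rw [cmb_self, Finsupp.add_apply, Finsupp.add_apply, co_apply, co_apply] at h
      by_cases h1 : γ = α
      · rw [h1]
        exact hα
      · rw [Finsupp.single_eq_of_ne h1, add_zero] at h
        by_cases h2 : z (Fin.castSucc i) (em γ) = 0
        · rw [h2, zero_add] at h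
          rcases sup_last hα hβ hab hz h with h3 | h3 | h3
          · exact absurd h3 (em_ne γ)
          · rw [← em_inj h3]
            exact hα
          · rw [← em_inj h3]
            exact hβ
        · rcases sup_self hab hz h2 with h3 | ⟨δ, h3, h4, -⟩
          · exact absurd h3 (em_ne γ)
          · rw [← em_inj h3]
            exact h4
    · rw [cmb_ne _ _ _ hi, co_apply] at h
      obtain ⟨δ, h1, h2⟩ := sup_ne hz hi h
      rw [← em_inj h1]
      exact h2
  · intro i
    change dg _ = 0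
    by_cases hi : i = j
    · subst hi
      rw [cmb_self, map_add, map_add, dg_single, htl]
      linarith [hdg (Fin.castSucc i), hdg (Fin.last r)]
    · rw [cmb_ne _ _ _ hi]
      have := hdg (Fin.castSucc i)
      rw [zero_sg hz hi, zero_add] at this
      exact this
  · intro v
    rw [tot_apply, sum_cmb, map_add, ev_single, tot_apply z (Fin.castSucc v),
      Fin.sum_univ_castSucc, ev_cast_dec _ (hall _)]
    have : ∀ i : Fin r, ev (Fin.castSucc v) (z (Fin.castSucc i)) = ev v (co (z (Fin.castSucc i))) :=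
      fun i => ev_cast_dec _ (hall _) v
    simp only [this]
    ring

end

/-- the new system is of Delsarte type -/
lemma dels {N : ℕ} {f : Fin r → MvPolynomial (Fin n) k} (hD : Dels N f) {j : Fin r}
    {α β : Fin n →₀ ℕ} (hα : α ∈ (f j).support) (hβ : β ∈ (f j).support) (hab : α ≠ β) :
    Dels N (fn f j α β) := by
  constructor
  · intro z hz h0
    have hall := sup_all hα hβ hab hz
    obtain ⟨h1, h2⟩ := down hα hβ hab hz
    have h3 := hD.ind _ h1 (by
      funext v
      rw [h2, h0]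
      simp)
    rw [h0, Pi.zero_apply, Finsupp.single_zero, add_zero] at h3
    have hdg : ∀ i, z i (sg n) + dg (co (z i)) = 0 := by
      intro i
      rw [← dg_dec _ (hall i)]
      exact hz.2 i
    have key : ∀ i, co (z i) = 0 → z i = 0 := by
      intro i hi
      have h4 := hdg i
      rw [hi, map_zero, add_zero] at h4
      rw [dec _ (hall i), hi, h4, Finsupp.single_zero, zero_add]
      exact Finsupp.mapDomain_zero
    have h5 : ∀ γ, z (Fin.castSucc j) (em γ) = 0 ∧ z (Fin.last r) (em γ) = 0 := by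
      intro γ
      have h6 : (cmb (fun i => co (z (Fin.castSucc i))) j (co (z (Fin.last r)))) j γ = 0 := by
        rw [h3]
        rfl
      rw [cmb_self, Finsupp.add_apply, co_apply, co_apply] at h6
      by_cases h7 : z (Fin.castSucc j) (em γ) = 0
      · rw [h7, zero_add] at h6
        exact ⟨h7, h6⟩
      · by_cases h8 : z (Fin.last r) (em γ) = 0
        · rw [h8, add_zero] at h6
          exact ⟨h6, h8⟩
        · exfalso
          rcases sup_self hab hz h7 with h9 | ⟨δ, h9, -, h10, h11⟩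
          · exact em_ne γ h9
          · rcases sup_last hα hβ hab hz h8 with h12 | h12 | h12
            · exact em_ne γ h12
            · exact h10 (em_inj (h9.trans h12.symm))
            · exact h11 (em_inj (h9.trans h12.symm))
    funext i
    change z i = 0
    apply key
    induction i using Fin.lastCases with
    | last =>
      apply Finsupp.ext
      intro γ
      rw [co_apply]
      exact (h5 γ).2
    | cast i =>
      by_cases hi : i = j
      · subst hi
        apply Finsupp.ext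
        intro γ
        rw [co_apply]
        exact (h5 γ).1
      · have h6 : (cmb (fun i => co (z (Fin.castSucc i))) j (co (z (Fin.last r)))) i = 0 := by
          rw [h3]
          rfl
        rw [cmb_ne _ _ _ hi] at h6
        exact h6
  · rintro x t ht ⟨z, hz, hx⟩
    obtain ⟨h1, h2⟩ := down hα hβ hab hz
    obtain ⟨w, hw, hw'⟩ := hD.exp (fun v => x (Fin.castSucc v) + x (Fin.last n) * α v) t ht ⟨_, h1, by
      funext v
      rw [h2, ← hx]
      simp only [Pi.smul_apply, smul_eq_mul]
      ring⟩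
    obtain ⟨c, hc⟩ : ∃ c : ℤ, c = (N : ℤ) * x (Fin.last n) := ⟨_, rfl⟩
    obtain ⟨A, hA⟩ : ∃ A : (Fin n →₀ ℕ) →₀ ℤ,
      A = (w j).filter (fun γ => γ = α ∨ γ = β) - Finsupp.single α c := ⟨_, rfl⟩
    obtain ⟨B, hB⟩ : ∃ B : (Fin n →₀ ℕ) →₀ ℤ,
      B = (w j).filter (fun γ => ¬ (γ = α ∨ γ = β)) := ⟨_, rfl⟩
    have hAB : B + A = w j - Finsupp.single α c := by
      rw [hA, hB, ← add_sub_assoc, add_comm, Finsupp.filter_add_filter_not]
    have hAs : ∀ γ, A γ ≠ 0 → γ = α ∨ γ = β := by
      intro γ h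
      by_contra h3
      rw [hA, Finsupp.sub_apply, Finsupp.filter_apply, if_neg h3,
        Finsupp.single_eq_of_ne (fun h4 => h3 (Or.inl h4)), sub_zero] at h
      exact h rfl
    have hBs : ∀ γ, B γ ≠ 0 → γ ∈ (f j).support ∧ γ ≠ α ∧ γ ≠ β := by
      intro γ h
      by_cases h3 : γ = α ∨ γ = β
      · rw [hB, Finsupp.filter_apply, if_neg (not_not.2 h3)] at h
        exact absurd rfl h
      · rw [hB, Finsupp.filter_apply, if_pos h3] at h
        rw [not_or] at h3
        exact ⟨hw.1 _ _ h, h3⟩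
    have hEs : ∀ (y : (Fin n →₀ ℕ) →₀ ℤ) (γ : Fin (n + 1) →₀ ℕ), EE y γ ≠ 0 →
        ∃ δ, em δ = γ ∧ y δ ≠ 0 := by
      intro y γ h
      by_cases h3 : ∃ δ, em δ = γ
      · obtain ⟨δ, rfl⟩ := h3
        rw [EE_em] at h
        exact ⟨δ, rfl, h⟩
      · exact absurd (EE_out y γ fun δ hδ => h3 ⟨δ, hδ⟩) h
    refine ⟨Fin.snoc (α := fun _ => (Fin (n + 1) →₀ ℕ) →₀ ℤ)
      (fun i => if i = j then EE B + Finsupp.single (sg n) (- dg B) else EE (w i))
      (EE A + Finsupp.single (sg n) (- dg A)), ⟨?_, ?_⟩, ?_⟩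
    · intro i γ h
      induction i using Fin.lastCases with
      | last =>
        rw [Fin.snoc_last, Finsupp.add_apply] at h
        rw [fn_last, mem_nw]
        by_cases h3 : γ = sg n
        · exact Or.inl h3
        · rw [Finsupp.single_eq_of_ne h3, add_zero] at h
          obtain ⟨δ, h4, h5⟩ := hEs _ _ h
          exact Or.inr ⟨δ, (mem_mm hα hβ hab δ).2 (hAs δ h5), h4⟩
      | cast i =>
        rw [Fin.snoc_castSucc] at h
        by_cases hi : i = j
        · subst hi
          rw [if_pos rfl, Finsupp.add_apply] at h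
          rw [fn_self, mem_nw]
          by_cases h3 : γ = sg n
          · exact Or.inl h3
          · rw [Finsupp.single_eq_of_ne h3, add_zero] at h
            obtain ⟨δ, h4, h5⟩ := hEs _ _ h
            exact Or.inr ⟨δ, (mem_gg hab δ).2 (hBs δ h5), h4⟩
        · rw [if_neg hi] at h
          obtain ⟨δ, h4, h5⟩ := hEs _ _ h
          rw [fn_ne f j α β hi, mem_rho]
          exact ⟨δ, hw.1 _ _ h5, h4⟩
    · intro i
      change dg _ = 0
      induction i using Fin.lastCases with
      | last =>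
        rw [Fin.snoc_last, map_add, dg_EE, dg_single, add_neg_cancel]
      | cast i =>
        rw [Fin.snoc_castSucc]
        by_cases hi : i = j
        · rw [if_pos hi, map_add, dg_EE, dg_single, add_neg_cancel]
        · rw [if_neg hi, dg_EE]
          exact hw.2 i
    · have hwj : dg (w j) = 0 := hw.2 j
      have hdAB : dg B + dg A = - c := by
        rw [← map_add, hAB, map_sub, dg_single, hwj, zero_sub]
      have hevAB : ∀ v, ev v B + ev v A = ev v (w j) - c * α v := by
        intro v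
        rw [← map_add, hAB, map_sub, ev_single]
      funext v
      rw [Pi.smul_apply, smul_eq_mul, tot_apply, Fin.sum_univ_castSucc, Fin.snoc_last]
      simp only [Fin.snoc_castSucc]
      have hsum : ∀ F : ((Fin (n + 1) →₀ ℕ) →₀ ℤ) →+ ℤ,
          (∑ i, F (if i = j then EE B + Finsupp.single (sg n) (- dg B) else EE (w i))) =
            (∑ i, F (EE (w i))) + (F (EE B + Finsupp.single (sg n) (- dg B)) - F (EE (w j))) := by
        intro F
        rw [← Finset.add_sum_erase _ _ (Finset.mem_univ j),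
          ← Finset.add_sum_erase _ (fun i => F (EE (w i))) (Finset.mem_univ j), if_pos rfl]
        have h3 : ∑ i ∈ Finset.univ.erase j, F (if i = j then EE B + Finsupp.single (sg n) (- dg B)
            else EE (w i)) = ∑ i ∈ Finset.univ.erase j, F (EE (w i)) := by
          apply Finset.sum_congr rfl
          intro i hi
          rw [if_neg (Finset.ne_of_mem_erase hi)]
        rw [h3]
        ring
      rw [hsum]
      induction v using Fin.lastCases with
      | last =>
        simp only [map_add, ev_last_EE, ev_single, sg_last, Finset.sum_const_zero]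
        push_cast
        linarith
      | cast v =>
        simp only [map_add, ev_cast_EE, ev_single, sg_cast, Nat.cast_zero, mul_zero, add_zero]
        have h3 := congrFun hw' v
        rw [Pi.smul_apply, smul_eq_mul, tot_apply] at h3
        have h4 := hevAB v
        rw [hc] at h4
        linear_combination h3 - h4

end ONEAux

open ONEAux in
theorem t_ONE : S_ONE := by
  intro k _ n r N f hD j h4
  obtain ⟨α, hα, β, hβ, hab⟩ := Finset.one_lt_card.1 (by omega : 1 < (f j).support.card)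
  refine ⟨fn f j α β, dels hD hα hβ hab, ?_, ?_, ?_, iso⟩
  · rw [fn_self, card_nw]
    have := card_gg hα hβ hab
    omega
  · rw [fn_last, card_nw, card_mm hα hβ hab]
  · intro i hi
    rw [fn_ne f j α β hi, card_rho]

end Pool.Agent.FMQ
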