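import Pool.Agent.FMQ.St2
import Pool.Agent.LFQ.M_CNE

/-!
# FMQ: projective varieties over a base and their affine cones (as PRO, helper49)
-/

set_option autoImplicit false

open CategoryTheory AlgebraicGeometry Polynomial

namespace Pool.Agent.FMQ

/-- **PRR**. -/
theorem t_PRR : S_PRR := by
  intro k _ P hC A _ _ _ n ι f hf hk hz X hX
  choose m hm1 hm using hf
  obtain ⟨S⟩ := (UQ.psub_iff f X).mp hX
  exact QCV.Asm.s_BCO k P (fun a j hc hX hZ => hC.cut a j hc hX hZ)
    (fun a b hab hX => LFQ.same_range hC a b hab hX)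
    (fun B s j hs hc hU => hC.bundle B s j hs hc hU)
    A ι n f m hm hm1 hk hz X S

end Pool.Agent.FMQ
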