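import Pool.Agent.FMQ.St

/-!
# Project FMQ, module QU1: cones
-/

set_option autoImplicit false

open CategoryTheory AlgebraicGeometry Polynomial

namespace Pool.Agent.FMQ

open Pool.Agent.Lib_helper55.Beil (Var)
open UQ (sp sdbl Units)

namespace QU1Aux

lemma qd_eq {A : Type} [CommRing A] {r : ℕ} (a : Fin r → A) :
    qd a (fun _ => 2) 0 = QCV.dia a := by
  unfold qd QCV.dia
  rw [map_zero, add_zero]

lemma qd_to {k : Type} [Field k] (P : Var k → Prop) {C : Type} [CommRing C] [Algebra k C]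
    [Algebra.FiniteType k C] {r : ℕ} {p q : MvPolynomial (Fin r) C} (h : p = q)
    (hP : P (sp k (MvPolynomial (Fin r) C ⧸ Ideal.span {p}))) :
    P (sp k (MvPolynomial (Fin r) C ⧸ Ideal.span {q})) := by
  subst h
  exact hP

lemma mem_cl {C : Type} [CommRing C] {r : ℕ} (a : Fin r → C) (m : ℕ) :
    (-1) ^ m * ∏ j, a j ∈ Submonoid.closure (insert (-1) (Set.range a)) := by
  refine mul_mem (pow_mem (Submonoid.subset_closure (Set.mem_insert _ _)) _) ?_
  exact prod_mem fun j _ => Submonoid.subset_closure (Set.mem_insert_of_mem _ ⟨j, rfl⟩)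

lemma unit_cl {C : Type} [CommRing C] {r : ℕ} (a : Fin r → C) (m : ℕ) (ha : Units a) :
    IsUnit ((-1) ^ m * ∏ j, a j) := by
  refine (isUnit_one.neg.pow m).mul ?_
  exact IsUnit.prod_univ_iff.2 ha

end QU1Aux

open QU1Aux in
theorem t_QU1 : S_QU1 := by
  intro k _ h2 P hP C _ _ _ r a ha hC hb
  refine qd_to P (qd_eq a).symm ?_
  obtain ⟨m, rfl | rfl⟩ := Nat.even_or_odd' r
  · have h1 := hb _ (mem_cl a m) (unit_cl a m ha)
    have e : -((-1) ^ m * ∏ j, a j) = (-1) ^ (m + 1) * ∏ j, a j := by ring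
    rw [e] at h1
    exact hP.even h2 C m a ha h1
  · exact hP.odd C m a ha hC

end Pool.Agent.FMQ
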