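import Pool.Agent.FMQ.St

/-!
# Project FMQ, module QU2: affine quadrics
-/

set_option autoImplicit false

open CategoryTheory AlgebraicGeometry Polynomial

namespace Pool.Agent.FMQ

open Pool.Agent.Lib_helper55.Beil (Var)
open UQ (sp sdbl Units)

namespace QU2Aux

/-- `S = A[z, x] / (c z ^ 2 + ∑ a_j x_j ^ 2)`. -/
structure CP {A : Type} [CommRing A] {r : ℕ} (a : Fin r → A) (c : A) (S : Type) [CommRing S]
    (i : A →+* S) (z : S) (x : Fin r → S) : Prop where
  rel : i c * z ^ 2 + ∑ j, i (a j) * x j ^ 2 = 0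
  lift : ∀ (D : Type) [CommRing D] (φ : A →+* D) (t : D) (y : Fin r → D),
    φ c * t ^ 2 + ∑ j, φ (a j) * y j ^ 2 = 0 →
    ∃ f : S →+* D, (∀ b, f (i b) = φ b) ∧ f z = t ∧ ∀ j, f (x j) = y j
  ext : ∀ (D : Type) [CommRing D] (f g : S →+* D), (∀ b, f (i b) = g (i b)) → f z = g z →
    (∀ j, f (x j) = g (x j)) → f = g

/-- `R = A[y] / (∑ a_j y_j ^ 2 + c)`. -/
structure QP {A : Type} [CommRing A] {r : ℕ} (a : Fin r → A) (c : A) (R : Type) [CommRing R]
    (i : A →+* R) (y : Fin r → R) : Prop where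
  rel : ∑ j, i (a j) * y j ^ 2 + i c = 0
  lift : ∀ (D : Type) [CommRing D] (φ : A →+* D) (t : Fin r → D),
    ∑ j, φ (a j) * t j ^ 2 + φ c = 0 →
    ∃ f : R →+* D, (∀ b, f (i b) = φ b) ∧ ∀ j, f (y j) = t j
  ext : ∀ (D : Type) [CommRing D] (f g : R →+* D), (∀ b, f (i b) = g (i b)) →
    (∀ j, f (y j) = g (y j)) → f = g

/-- The open part `z ≠ 0` is the product with the multiplicative group. -/
lemma iso {A : Type} [CommRing A] {r : ℕ} {a : Fin r → A} {c : A} {S R U W : Type} [CommRing S]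
    [CommRing R] [CommRing U] [CommRing W] [Algebra S U] [Algebra R[X] W] {i : A →+* S} {z : S}
    {x : Fin r → S} {i' : A →+* R} {y : Fin r → R} [IsLocalization.Away z U]
    [IsLocalization.Away (X : R[X]) W] (hS : CP a c S i z x) (hR : QP a c R i' y) :
    ∃ e : U ≃+* W, ∀ b, e (algebraMap S U (i b)) = algebraMap R[X] W (C (i' b)) := by
  obtain ⟨α, hα⟩ : ∃ α : S →+* U, α = algebraMap S U := ⟨_, rfl⟩
  obtain ⟨β, hβ⟩ : ∃ β : R →+* W, β = (algebraMap R[X] W).comp C := ⟨_, rfl⟩
  obtain ⟨t, ht⟩ : ∃ t : W, t = algebraMap R[X] W X := ⟨_, rfl⟩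
  have htu : IsUnit t := ht ▸ IsLocalization.Away.algebraMap_isUnit (X : R[X])
  have hzu : IsUnit (α z) := hα ▸ IsLocalization.Away.algebraMap_isUnit z
  obtain ⟨w, hw⟩ := hzu.exists_right_inv
  have h1 : β (i' c) * t ^ 2 + ∑ j, β (i' (a j)) * (t * β (y j)) ^ 2 = 0 := by
    have h2 : β (i' c) * t ^ 2 + ∑ j, β (i' (a j)) * (t * β (y j)) ^ 2 =
        t ^ 2 * β (∑ j, i' (a j) * y j ^ 2 + i' c) := by
      simp only [map_add, map_sum, map_mul, map_pow]
      rw [mul_add, Finset.mul_sum, add_comm, mul_comm (t ^ 2) (β (i' c))]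
      congr 1
      refine Finset.sum_congr rfl fun j _ => ?_
      ring
    rw [h2, hR.rel, map_zero, mul_zero]
  obtain ⟨f, hf1, hf2, hf3⟩ := hS.lift W (β.comp i') t (fun j => t * β (y j)) h1
  have h3 : ∑ j, α (i (a j)) * (w * α (x j)) ^ 2 + α (i c) = 0 := by
    have h2 : ∑ j, α (i (a j)) * (w * α (x j)) ^ 2 + α (i c) * (α z * w) ^ 2 =
        w ^ 2 * α (i c * z ^ 2 + ∑ j, i (a j) * x j ^ 2) := by
      simp only [map_add, map_sum, map_mul, map_pow]
      rw [mul_add, Finset.mul_sum, add_comm]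
      congr 1
      · ring
      · refine Finset.sum_congr rfl fun j _ => ?_
        ring
    rw [hS.rel, map_zero, mul_zero, hw, one_pow, mul_one] at h2
    exact h2
  obtain ⟨g, hg1, hg2⟩ := hR.lift U (α.comp i) (fun j => w * α (x j)) h3
  have hfu : IsUnit (f z) := by
    rw [hf2]
    exact htu
  let F : U →+* W := IsLocalization.Away.lift z hfu
  have hF : ∀ p, F (algebraMap S U p) = f p := fun p => IsLocalization.Away.lift_eq z hfu p
  let g1 : R[X] →+* U := Polynomial.eval₂RingHom g (α z)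
  have hg3 : ∀ p, g1 (C p) = g p := fun p => Polynomial.eval₂_C _ _
  have hg4 : g1 X = α z := Polynomial.eval₂_X _ _
  have hgu : IsUnit (g1 X) := by
    rw [hg4]
    exact hzu
  let G : W →+* U := IsLocalization.Away.lift (X : R[X]) hgu
  have hG : ∀ p, G (algebraMap R[X] W p) = g1 p := fun p => IsLocalization.Away.lift_eq _ hgu p
  have hFα : ∀ p, F (α p) = f p := fun p => by rw [hα]; exact hF p
  have hGβ : ∀ p, G (β p) = g p := fun p => by
    rw [hβ, RingHom.comp_apply, hG, hg3]
  have hGt : G t = α z := by rw [ht, hG, hg4]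
  have hFw : F w * t = 1 := by
    have h5 := congrArg F hw
    rw [map_mul, map_one, hFα, hf2] at h5
    rw [mul_comm]
    exact h5
  have hGF : G.comp F = RingHom.id U := by
    apply IsLocalization.ringHom_ext (Submonoid.powers z)
    rw [← hα]
    apply hS.ext
    · intro b
      rw [RingHom.comp_apply, RingHom.comp_apply, RingHom.comp_apply, hFα, hf1, RingHom.comp_apply,
        hGβ, hg1]
      rfl
    · rw [RingHom.comp_apply, RingHom.comp_apply, RingHom.comp_apply, hFα, hf2, hGt]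
      rfl
    · intro j
      rw [RingHom.comp_apply, RingHom.comp_apply, RingHom.comp_apply, hFα, hf3, map_mul, hGt, hGβ,
        hg2, ← mul_assoc, hw, one_mul]
      rfl
  have hFG : F.comp G = RingHom.id W := by
    apply IsLocalization.ringHom_ext (Submonoid.powers (X : R[X]))
    apply Polynomial.ringHom_ext'
    · rw [RingHom.comp_assoc, RingHom.comp_assoc, ← hβ]
      apply hR.ext
      · intro b
        rw [RingHom.comp_apply, RingHom.comp_apply, RingHom.comp_apply, hGβ, hg1,
          RingHom.comp_apply, hFα, hf1, hβ]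
        rfl
      · intro j
        rw [RingHom.comp_apply, RingHom.comp_apply, RingHom.comp_apply, hGβ, hg2, map_mul, hFα,
          hf3, ← mul_assoc, hFw, one_mul, hβ]
        rfl
    · rw [RingHom.comp_apply, RingHom.comp_apply, RingHom.comp_apply, ← ht, hGt, hFα, hf2]
      rfl
  refine ⟨RingEquiv.ofRingHom F G hFG hGF, fun b => ?_⟩
  change F (algebraMap S U (i b)) = _
  rw [hF, hf1, RingHom.comp_apply, hβ]
  rfl

section Hom

variable {A D : Type} [CommRing A] [CommRing D] {r : ℕ} {a : Fin r → A} {e : Fin r → ℕ} {c : A}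

/-- The class of a constant. -/
noncomputable def cc (a : Fin r → A) (e : Fin r → ℕ) (c : A) : A →+* Qd a e c :=
  (Ideal.Quotient.mk _).comp MvPolynomial.C

/-- The class of a variable. -/
noncomputable def xx (a : Fin r → A) (e : Fin r → ℕ) (c : A) (j : Fin r) : Qd a e c :=
  Ideal.Quotient.mk _ (MvPolynomial.X j)

lemma qd_eq (a : Fin r → A) (e : Fin r → ℕ) (c : A) :
    qd a e c = ∑ j, MvPolynomial.C (a j) * MvPolynomial.X j ^ e j + MvPolynomial.C c := rfl

lemma rel (a : Fin r → A) (e : Fin r → ℕ) (c : A) :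
    ∑ j, cc a e c (a j) * xx a e c j ^ e j + cc a e c c = 0 := by
  have h : (Ideal.Quotient.mk (Ideal.span {qd a e c})) (qd a e c) = 0 :=
    Ideal.Quotient.eq_zero_iff_mem.2 (Ideal.subset_span rfl)
  have h2 : (Ideal.Quotient.mk (Ideal.span {qd a e c}))
      (∑ j, MvPolynomial.C (a j) * MvPolynomial.X j ^ e j + MvPolynomial.C c) =
      ∑ j, cc a e c (a j) * xx a e c j ^ e j + cc a e c c := by
    simp only [map_add, map_sum, map_mul, map_pow]
    rfl
  rw [← h2]
  exact h

/-- The homomorphism with given values. -/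
noncomputable def lft (φ : A →+* D) (y : Fin r → D) (h : ∑ j, φ (a j) * y j ^ e j + φ c = 0) :
    Qd a e c →+* D :=
  Ideal.Quotient.lift _ (MvPolynomial.eval₂Hom φ y) (by
    intro p hp
    have h1 : Ideal.span {qd a e c} ≤ RingHom.ker (MvPolynomial.eval₂Hom φ y) := by
      rw [Ideal.span_le, Set.singleton_subset_iff, SetLike.mem_coe, RingHom.mem_ker, qd_eq]
      simp only [map_add, map_sum, map_mul, map_pow, MvPolynomial.coe_eval₂Hom,
        MvPolynomial.eval₂_C, MvPolynomial.eval₂_X]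
      exact h
    exact h1 hp)

lemma lft_cc (φ : A →+* D) (y : Fin r → D) (h : ∑ j, φ (a j) * y j ^ e j + φ c = 0) (b : A) :
    lft φ y h (cc a e c b) = φ b := by
  change MvPolynomial.eval₂Hom φ y (MvPolynomial.C b) = φ b
  simp

lemma lft_xx (φ : A →+* D) (y : Fin r → D) (h : ∑ j, φ (a j) * y j ^ e j + φ c = 0) (j : Fin r) :
    lft φ y h (xx a e c j) = y j := by
  change MvPolynomial.eval₂Hom φ y (MvPolynomial.X j) = y j
  simp

lemma ext {f g : Qd a e c →+* D} (hC : ∀ b, f (cc a e c b) = g (cc a e c b))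
    (hX : ∀ j, f (xx a e c j) = g (xx a e c j)) : f = g := by
  apply Ideal.Quotient.ringHom_ext
  apply MvPolynomial.ringHom_ext
  · exact hC
  · exact hX

lemma qp (a : Fin r → A) (c : A) :
    QP a c (Qd a (fun _ => 2) c) (cc a (fun _ => 2) c) (xx a (fun _ => 2) c) where
  rel := rel a (fun _ => 2) c
  lift := fun D _ φ t h => ⟨lft φ t h, fun b => lft_cc φ t h b, fun j => lft_xx φ t h j⟩
  ext := fun D _ f g h1 h2 => ext h1 h2

lemma cp (a : Fin r → A) (c : A) :
    CP a c (Qd (Fin.cons c a : Fin (r + 1) → A) (fun _ => 2) 0)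
      (cc (Fin.cons c a : Fin (r + 1) → A) (fun _ => 2) 0)
      (xx (Fin.cons c a : Fin (r + 1) → A) (fun _ => 2) 0 0)
      (fun j => xx (Fin.cons c a : Fin (r + 1) → A) (fun _ => 2) 0 j.succ) where
  rel := by
    have h := rel (Fin.cons c a : Fin (r + 1) → A) (fun _ => 2) 0
    rw [Fin.sum_univ_succ, map_zero, add_zero] at h
    exact h
  lift := fun D _ φ t y h => by
    have h1 : ∑ j, φ ((Fin.cons c a : Fin (r + 1) → A) j) *
        (Fin.cons t y : Fin (r + 1) → D) j ^ 2 + φ 0 = 0 := by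
      rw [Fin.sum_univ_succ, map_zero, add_zero]
      exact h
    exact ⟨lft φ (Fin.cons t y) h1, fun b => lft_cc φ _ h1 b, lft_xx φ _ h1 0,
      fun j => lft_xx φ _ h1 j.succ⟩
  ext := fun D _ f g h1 h2 h3 => ext h1 (fun j => Fin.cases h2 h3 j)

end Hom

/-- The closed part. -/
lemma closed {A : Type} [CommRing A] {r : ℕ} {a : Fin r → A} {c : A} {S Z : Type} [CommRing S]
    [CommRing Z] {i : A →+* S} {z : S} {x : Fin r → S} {i' : A →+* Z} {y : Fin r → Z}
    (hS : CP a c S i z x) (hZ : QP a 0 Z i' y)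
    (hg : ∀ p : Z, ∃ q : MvPolynomial (Fin r) A, MvPolynomial.eval₂ i' y q = p) :
    ∃ q : S →+* Z, (∀ b, q (i b) = i' b) ∧ Function.Surjective q ∧
      RingHom.ker q = Ideal.span {z} := by
  have h0 : i' c * (0 : Z) ^ 2 + ∑ j, i' (a j) * y j ^ 2 = 0 := by
    have h := hZ.rel
    rw [map_zero, add_zero] at h
    rw [h]
    ring
  obtain ⟨q, hq1, hq2, hq3⟩ := hS.lift Z i' 0 y h0
  refine ⟨q, hq1, ?_, ?_⟩
  · intro p
    obtain ⟨p', hp'⟩ := hg p
    refine ⟨MvPolynomial.eval₂Hom i x p', ?_⟩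
    have h1 : q.comp (MvPolynomial.eval₂Hom i x) = MvPolynomial.eval₂Hom i' y := by
      apply MvPolynomial.ringHom_ext
      · intro b
        simp [hq1]
      · intro j
        simp [hq3]
    rw [← hp']
    exact RingHom.congr_fun h1 p'
  · apply le_antisymm
    · intro p hp
      rw [RingHom.mem_ker] at hp
      have hz : Ideal.Quotient.mk (Ideal.span {z}) z = 0 :=
        Ideal.Quotient.eq_zero_iff_mem.2 (Ideal.subset_span rfl)
      have h1 : ∑ j, ((Ideal.Quotient.mk (Ideal.span {z})).comp i) (a j) *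
          (Ideal.Quotient.mk (Ideal.span {z}) (x j)) ^ 2 +
          ((Ideal.Quotient.mk (Ideal.span {z})).comp i) 0 = 0 := by
        have h := congrArg (Ideal.Quotient.mk (Ideal.span {z})) hS.rel
        simp only [map_add, map_mul, map_pow, hz, map_sum, map_zero] at h
        simp only [map_zero, add_zero, RingHom.comp_apply]
        rw [← h]
        ring
      obtain ⟨s, hs1, hs2⟩ := hZ.lift _ _ _ h1
      have h2 : s.comp q = Ideal.Quotient.mk (Ideal.span {z}) := by
        apply hS.ext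
        · intro b
          rw [RingHom.comp_apply, hq1, hs1]
          rfl
        · rw [RingHom.comp_apply, hq2, map_zero, hz]
        · intro j
          rw [RingHom.comp_apply, hq3, hs2]
      have h := RingHom.congr_fun h2 p
      rw [RingHom.comp_apply, hp, map_zero] at h
      exact Ideal.Quotient.eq_zero_iff_mem.1 h.symm
    · rw [Ideal.span_le, Set.singleton_subset_iff, SetLike.mem_coe, RingHom.mem_ker, hq2]

end QU2Aux

open QU2Aux in
theorem t_QU2 : M_QU2 := by
  intro hQ hG k _ h2 P hP C _ _ _ r a c ha hc hC hD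
  have hS : P (sp k (Qd (Fin.cons c a : Fin (r + 1) → C) (fun _ => 2) 0)) := by
    refine hQ k h2 P hP C (r + 1) _ ?_ hC ?_
    · intro j
      exact Fin.cases hc ha j
    · intro b hb
      rw [Fin.range_cons] at hb
      exact hD b hb
  have hZ : P (sp k (Qd a (fun _ => 2) (0 : C))) := by
    refine hQ k h2 P hP C r a ha hC ?_
    intro b hb
    refine hD b (Submonoid.closure_mono ?_ hb)
    exact Set.insert_subset_insert (Set.subset_insert _ _)
  obtain ⟨q, hq1, hq2, hq3⟩ := closed (cp a c) (qp a (0 : C)) (by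
    intro p
    obtain ⟨p', rfl⟩ := Ideal.Quotient.mk_surjective p
    refine ⟨p', ?_⟩
    have h1 : MvPolynomial.eval₂Hom (cc a (fun _ => 2) (0 : C)) (xx a (fun _ => 2) (0 : C)) =
        Ideal.Quotient.mk (Ideal.span {qd a (fun _ => 2) (0 : C)}) := by
      apply MvPolynomial.ringHom_ext
      · intro b
        simp [cc]
      · intro j
        simp [xx]
    exact RingHom.congr_fun h1 p')
  let qk : Qd (Fin.cons c a : Fin (r + 1) → C) (fun _ => 2) 0 →ₐ[k] Qd a (fun _ => 2) (0 : C) :=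
    { q with commutes' := fun x => hq1 (algebraMap k C x) }
  obtain ⟨e, he⟩ := iso (U := Localization.Away (xx (Fin.cons c a : Fin (r + 1) → C) (fun _ => 2) 0 0))
    (W := Localization.Away (X : (Qd a (fun _ => 2) c)[X])) (cp a c) (qp a c)
  have hU : P (sp k (Localization.Away (xx (Fin.cons c a : Fin (r + 1) → C) (fun _ => 2) 0 0))) :=
    hP.cls0.opn (xx (Fin.cons c a : Fin (r + 1) → C) (fun _ => 2) 0 0) qk
      (CUB.awayHom k (xx (Fin.cons c a : Fin (r + 1) → C) (fun _ => 2) 0 0))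
      ⟨hq2, hq3, CUB.isLocalization_awayHom _⟩ hS hZ
  have hW : P (sp k (Localization.Away (X : (Qd a (fun _ => 2) c)[X]))) := by
    refine hP.cls0.iso (AlgEquiv.ofRingEquiv (f := e) fun x => ?_) hU
    exact he (algebraMap k C x)
  exact hG k P hP _ _ (CUB.awayHom k (X : (Qd a (fun _ => 2) c)[X]))
    (CUB.isLocalization_awayHom _) hW

end Pool.Agent.FMQ
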