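import Pool.Agent.FMQ.St

/-! # FMQ, module QU3: quadrics over a ring, the general case (helper64) -/

set_option autoImplicit false

open CategoryTheory AlgebraicGeometry Polynomial

namespace Pool.Agent.FMQ

open Pool.Agent.Lib_helper55.Beil (Var)
open UQ (Pt Mo di gp im IDim DimLE sp spol sdbl sdia sas squo szer cone PSub Units)
open FMO (At Sm Comp CompX Hom Act Add Few Univ Kp Inv)

namespace QU3Aux

section

variable {C : Type} [CommRing C] {r : ℕ} (a : Fin (r + 1) → C) (e : Fin (r + 1) → ℕ) (c : C)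
  (j : Fin (r + 1))

/-- the value of the equation -/
theorem val {B : Type} [CommRing B] [Algebra C B] (s : B) (y : Fin r → B) :
    MvPolynomial.aeval (Fin.insertNth j s y : Fin (r + 1) → B) (qd a e c) =
      algebraMap C B (a j) * s ^ e j +
        MvPolynomial.aeval y (qd (a ∘ j.succAbove) (e ∘ j.succAbove) c) := by
  unfold qd
  simp only [map_add, map_sum, map_mul, map_pow, MvPolynomial.aeval_X, MvPolynomial.aeval_C]
  rw [Fin.sum_univ_succAbove _ j]
  simp only [Fin.insertNth_apply_same, Fin.insertNth_apply_succAbove, Function.comp_apply]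
  ring

/-- a linear term with a unit -/
theorem linear (ha : IsUnit (a j)) (he : e j = 1) :
    Nonempty (Qd a e c ≃ₐ[C] MvPolynomial (Fin r) C) := by
  obtain ⟨u, hu⟩ := ha
  set g : MvPolynomial (Fin r) C := qd (a ∘ j.succAbove) (e ∘ j.succAbove) c with hg
  set s : MvPolynomial (Fin r) C := -(MvPolynomial.C ((u⁻¹ : Cˣ) : C) * g) with hs
  have h0 : MvPolynomial.aeval (Fin.insertNth j s MvPolynomial.X :
      Fin (r + 1) → MvPolynomial (Fin r) C) (qd a e c) = 0 := by
    rw [val, he, pow_one, ← hu, MvPolynomial.aeval_X_left_apply, ← hg, hs,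
      MvPolynomial.algebraMap_eq]
    have h1 : (MvPolynomial.C (u : C) : MvPolynomial (Fin r) C) *
        MvPolynomial.C ((u⁻¹ : Cˣ) : C) = 1 := by
      rw [← MvPolynomial.C_mul, Units.mul_inv, MvPolynomial.C_1]
    linear_combination (-g) * h1
  let F : Qd a e c →ₐ[C] MvPolynomial (Fin r) C :=
    Ideal.Quotient.liftₐ _ (MvPolynomial.aeval (Fin.insertNth j s MvPolynomial.X)) (by
      intro x hx
      rw [Ideal.mem_span_singleton] at hx
      obtain ⟨y, rfl⟩ := hx
      rw [map_mul, h0, zero_mul])
  let G : MvPolynomial (Fin r) C →ₐ[C] Qd a e c :=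
    MvPolynomial.aeval fun i => Ideal.Quotient.mk _ (MvPolynomial.X (j.succAbove i))
  have hF : ∀ p, F (Ideal.Quotient.mk _ p) =
      MvPolynomial.aeval (Fin.insertNth j s MvPolynomial.X) p := fun p => rfl
  have hG : ∀ p, G p = Ideal.Quotient.mk _ (MvPolynomial.rename j.succAbove p) := by
    intro p
    have h1 : G = (Ideal.Quotient.mkₐ C (Ideal.span {qd a e c})).comp
        (MvPolynomial.rename j.succAbove) := by
      refine MvPolynomial.algHom_ext fun i => ?_
      simp [G]
    rw [h1]
    rfl
  refine ⟨AlgEquiv.ofAlgHom F G ?_ ?_⟩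
  · refine MvPolynomial.algHom_ext fun i => ?_
    rw [AlgHom.comp_apply, hG, hF, MvPolynomial.rename_X, MvPolynomial.aeval_X,
      Fin.insertNth_apply_succAbove]
    rfl
  · refine Ideal.Quotient.algHom_ext _ (MvPolynomial.algHom_ext fun i => ?_)
    show G (F (Ideal.Quotient.mk _ (MvPolynomial.X i))) = Ideal.Quotient.mk _ (MvPolynomial.X i)
    rw [hF, MvPolynomial.aeval_X]
    rcases Fin.eq_self_or_eq_succAbove j i with rfl | ⟨i, rfl⟩
    · rw [Fin.insertNth_apply_same, hG, hs, Ideal.Quotient.eq, Ideal.mem_span_singleton]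
      refine ⟨-MvPolynomial.C ((u⁻¹ : Cˣ) : C), ?_⟩
      have h2 : qd a e c = MvPolynomial.C (u : C) * MvPolynomial.X i +
          MvPolynomial.rename i.succAbove g := by
        rw [hg]
        unfold qd
        rw [Fin.sum_univ_succAbove _ i, he, pow_one, hu]
        simp only [map_add, map_sum, map_mul, map_pow, MvPolynomial.rename_X,
          MvPolynomial.rename_C, Function.comp_apply]
        ring
      have h1 : (MvPolynomial.C (u : C) : MvPolynomial (Fin (r + 1)) C) *
          MvPolynomial.C ((u⁻¹ : Cˣ) : C) = 1 := by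
        rw [← MvPolynomial.C_mul, Units.mul_inv, MvPolynomial.C_1]
      rw [h2, map_neg, map_mul, MvPolynomial.rename_C]
      linear_combination (MvPolynomial.X i) * h1
    · rw [Fin.insertNth_apply_succAbove, hG, MvPolynomial.rename_X]

/-- a variable which does not occur -/
theorem free (ha : a j = 0) :
    Nonempty ((Qd (a ∘ j.succAbove) (e ∘ j.succAbove) c)[X] ≃ₐ[C] Qd a e c) := by
  obtain ⟨g, hg⟩ : ∃ g : MvPolynomial (Fin r) C,
    g = qd (a ∘ j.succAbove) (e ∘ j.succAbove) c := ⟨_, rfl⟩
  let y : Fin r → (Qd (a ∘ j.succAbove) (e ∘ j.succAbove) c)[X] :=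
    fun i => Polynomial.C (Ideal.Quotient.mk _ (MvPolynomial.X i))
  have hy : ∀ p : MvPolynomial (Fin r) C, MvPolynomial.aeval y p =
      Polynomial.C (Ideal.Quotient.mk
        (Ideal.span {qd (a ∘ j.succAbove) (e ∘ j.succAbove) c}) p) := by
    intro p
    have h1 : MvPolynomial.aeval y = ((Polynomial.CAlgHom (R := C)
        (A := Qd (a ∘ j.succAbove) (e ∘ j.succAbove) c)).comp
        (Ideal.Quotient.mkₐ C (Ideal.span {qd (a ∘ j.succAbove) (e ∘ j.succAbove) c}))) := by
      refine MvPolynomial.algHom_ext fun i => ?_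
      rw [MvPolynomial.aeval_X]
      rfl
    rw [h1]
    rfl
  have h0 : MvPolynomial.aeval (Fin.insertNth j Polynomial.X y :
      Fin (r + 1) → (Qd (a ∘ j.succAbove) (e ∘ j.succAbove) c)[X]) (qd a e c) = 0 := by
    refine (val a e c j Polynomial.X y).trans ?_
    rw [ha, map_zero, zero_mul, zero_add, hy, Ideal.Quotient.eq_zero_iff_mem.2
      (Ideal.mem_span_singleton_self _), Polynomial.C_0]
  have h2 : qd a e c = MvPolynomial.rename j.succAbove g := by
    rw [hg]
    unfold qd
    rw [Fin.sum_univ_succAbove _ j, ha]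
    simp only [map_add, map_sum, map_mul, map_pow, MvPolynomial.rename_X,
      MvPolynomial.rename_C, Function.comp_apply, MvPolynomial.C_0, zero_mul, zero_add]
  let F : Qd a e c →ₐ[C] (Qd (a ∘ j.succAbove) (e ∘ j.succAbove) c)[X] :=
    Ideal.Quotient.liftₐ _ (MvPolynomial.aeval (Fin.insertNth j Polynomial.X y)) (by
      intro x hx
      rw [Ideal.mem_span_singleton] at hx
      obtain ⟨z, rfl⟩ := hx
      rw [map_mul, h0, zero_mul])
  let G₀ : Qd (a ∘ j.succAbove) (e ∘ j.succAbove) c →ₐ[C] Qd a e c :=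
    Ideal.Quotient.liftₐ _ ((Ideal.Quotient.mkₐ C (Ideal.span {qd a e c})).comp
      (MvPolynomial.rename j.succAbove)) (by
      intro x hx
      rw [Ideal.mem_span_singleton] at hx
      obtain ⟨z, rfl⟩ := hx
      rw [map_mul]
      have h3 : (Ideal.Quotient.mkₐ C (Ideal.span {qd a e c})).comp
          (MvPolynomial.rename j.succAbove) (qd (a ∘ j.succAbove) (e ∘ j.succAbove) c) = 0 := by
        show Ideal.Quotient.mk _ (MvPolynomial.rename j.succAbove
          (qd (a ∘ j.succAbove) (e ∘ j.succAbove) c)) = 0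
        rw [← hg, ← h2]
        exact Ideal.Quotient.eq_zero_iff_mem.2 (Ideal.mem_span_singleton_self _)
      rw [h3, zero_mul])
  let G : (Qd (a ∘ j.succAbove) (e ∘ j.succAbove) c)[X] →ₐ[C] Qd a e c :=
    Polynomial.eval₂AlgHom G₀ (Ideal.Quotient.mk _ (MvPolynomial.X j)) fun _ =>
      Commute.all _ _
  have hF : ∀ p, F (Ideal.Quotient.mk _ p) =
      MvPolynomial.aeval (Fin.insertNth j Polynomial.X y) p := fun p => rfl
  have hG1 : ∀ p : MvPolynomial (Fin r) C, G (Polynomial.C (Ideal.Quotient.mk _ p)) =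
      Ideal.Quotient.mk _ (MvPolynomial.rename j.succAbove p) := by
    intro p
    show Polynomial.eval₂ _ _ (Polynomial.C _) = _
    rw [Polynomial.eval₂_C]
    rfl
  have hG2 : G Polynomial.X = Ideal.Quotient.mk _ (MvPolynomial.X j) := by
    show Polynomial.eval₂ _ _ Polynomial.X = _
    rw [Polynomial.eval₂_X]
  refine ⟨AlgEquiv.ofAlgHom G F ?_ ?_⟩
  · refine Ideal.Quotient.algHom_ext _ (MvPolynomial.algHom_ext fun i => ?_)
    show G (F (Ideal.Quotient.mk _ (MvPolynomial.X i))) = Ideal.Quotient.mk _ (MvPolynomial.X i)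
    rw [hF, MvPolynomial.aeval_X]
    rcases Fin.eq_self_or_eq_succAbove j i with rfl | ⟨i, rfl⟩
    · rw [Fin.insertNth_apply_same, hG2]
    · rw [Fin.insertNth_apply_succAbove]
      show G (Polynomial.C (Ideal.Quotient.mk _ (MvPolynomial.X i))) = _
      rw [hG1, MvPolynomial.rename_X]
  · refine Polynomial.algHom_ext' (Ideal.Quotient.algHom_ext _
      (MvPolynomial.algHom_ext fun i => ?_)) ?_
    · show F (G (Polynomial.C (Ideal.Quotient.mk _ (MvPolynomial.X i)))) =
        Polynomial.C (Ideal.Quotient.mk _ (MvPolynomial.X i))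
      rw [hG1, MvPolynomial.rename_X, hF, MvPolynomial.aeval_X, Fin.insertNth_apply_succAbove]
    · show F (G Polynomial.X) = Polynomial.X
      rw [hG2, hF, MvPolynomial.aeval_X, Fin.insertNth_apply_same]

end

end QU3Aux

open QU3Aux in
theorem t_QU3 : M_QU3 := by
  intro hQ1 hQ2 k _ h2 P hP C _ _ _ r
  have hc := hP.cls0
  induction r with
  | zero =>
    intro a e c ha hcc he hC hb
    have he2 : e = fun _ => 2 := funext fun j => j.elim0
    subst he2
    rcases hcc with rfl | hcc
    · exact hQ1 k h2 P hP C 0 a (fun j => j.elim0) hC fun b hb' hu =>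
        hb b (Submonoid.closure_mono (Set.insert_subset_insert (Set.subset_insert _ _)) hb') hu
    · exact hQ2 k h2 P hP C 0 a c (fun j => j.elim0) hcc hC hb
  | succ r ih =>
    intro a e c ha hcc he hC hb
    by_cases h1 : ∃ j, a j = 0
    · obtain ⟨j, hj⟩ := h1
      obtain ⟨E⟩ := free a e c j hj
      refine hc.iso (E.restrictScalars k) (hP.line _ ?_)
      refine ih (a ∘ j.succAbove) (e ∘ j.succAbove) c (fun i => ha _) hcc (fun i => he _) hC
        fun b hb' hu => hb b (Submonoid.closure_mono ?_ hb') hu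
      refine Set.insert_subset_insert (Set.insert_subset_insert ?_)
      rintro _ ⟨i, rfl⟩
      exact ⟨_, rfl⟩
    · push Not at h1
      have ha' : ∀ j, IsUnit (a j) := fun j => (ha j).resolve_left (h1 j)
      by_cases h3 : ∃ j, e j = 1
      · obtain ⟨j, hj⟩ := h3
        obtain ⟨E⟩ := linear a e c j (ha' j) hj
        exact hc.iso (E.restrictScalars k).symm (hP.poly C hC r)
      · push Not at h3
        have he2 : e = fun _ => 2 := funext fun j => by
          have := he j
          have := h3 j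
          omega
        subst he2
        rcases hcc with rfl | hcc
        · exact hQ1 k h2 P hP C (r + 1) a ha' hC fun b hb' hu =>
            hb b (Submonoid.closure_mono (Set.insert_subset_insert (Set.subset_insert _ _)) hb') hu
        · exact hQ2 k h2 P hP C (r + 1) a c ha' hcc hC hb

end Pool.Agent.FMQ
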