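import Pool.Agent.FMQ.St2
import Pool.Agent.QCV.QDF
import Pool.Agent.QCV.O_QDS
import Pool.Agent.QCV.O_QDP
import Pool.Agent.QCV.O_QDL
import Pool.Agent.QCV.O_QOD

/-!
# FMQ, module QUF (helper99): a quadratic form over a base with small residue fields
-/

set_option autoImplicit false

open CategoryTheory AlgebraicGeometry Polynomial

namespace Pool.Agent.FMQ

open Pool.Agent.Lib_helper55.Beil (Var)
open UQ (Pt sp sdbl szer Units)
open FMO (Kp val Inv At)
open QCV (ER mf Dr Cls1 Cls0)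
open CUB (awayHom)

namespace QUFAux

/-! ### residue fields -/

section

variable {k : Type} [Field k] {A U C : Type} [CommRing A] [Algebra k A] [CommRing U] [Algebra k U]
  [CommRing C] [Algebra k C]

/-- The prime below `q`. -/
def below (φ : A →ₐ[k] C) (q : PrimeSpectrum C) : PrimeSpectrum A :=
  PrimeSpectrum.comap φ.toRingHom q

lemma mem_below {φ : A →ₐ[k] C} {q : PrimeSpectrum C} {a : A} :
    a ∈ (below φ q).asIdeal ↔ φ a ∈ q.asIdeal := Iff.rfl

/-- The value as a ring homomorphism. -/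
noncomputable def valH (q : PrimeSpectrum A) : A →+* Kp q :=
  (algebraMap (A ⧸ q.asIdeal) (Kp q)).comp (Ideal.Quotient.mk q.asIdeal)

lemma valH_apply (q : PrimeSpectrum A) (a : A) : valH q a = val q a := rfl

lemma kmap (φ : A →ₐ[k] C) (q : PrimeSpectrum C) :
    ∃ ι : Kp (below φ q) →ₐ[k] Kp q, ∀ a, ι (valH _ a) = valH q (φ a) := by
  let g : (A ⧸ (below φ q).asIdeal) →ₐ[k] Kp q :=
    (IsScalarTower.toAlgHom k (C ⧸ q.asIdeal) (Kp q)).comp
      (Ideal.quotientMapₐ q.asIdeal φ le_rfl)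
  have hg : Function.Injective g := by
    refine (IsFractionRing.injective (C ⧸ q.asIdeal) (Kp q)).comp ?_
    exact Ideal.quotientMap_injective
  refine ⟨IsFractionRing.liftAlgHom hg, fun a => ?_⟩
  change IsFractionRing.liftAlgHom hg (algebraMap (A ⧸ (below φ q).asIdeal) _ _) = _
  rw [IsFractionRing.liftAlgHom_apply, IsFractionRing.lift_algebraMap]
  rfl

/-- Every element of `U` is a quotient of values of elements of `A`. -/
def Frac (ψ : A →ₐ[k] U) : Prop := ∀ u : U, ∃ x s : A, IsUnit (ψ s) ∧ ψ s * u = ψ x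

lemma factor (ψ : A →ₐ[k] U) (hψ : Frac ψ) (γ : U →ₐ[k] C) (q : PrimeSpectrum C)
    (ι : Kp (below (γ.comp ψ) q) →ₐ[k] Kp q) (hι : ∀ a, ι (valH _ a) = valH q (γ (ψ a))) :
    ∃ χ : U →+* Kp (below (γ.comp ψ) q), (∀ u, ι (χ u) = valH q (γ u)) ∧
      ∀ a, χ (ψ a) = valH _ a := by
  have hinj : Function.Injective ι := ι.toRingHom.injective
  have h1 : ∀ u : U, ∃ y, ι y = valH q (γ u) := by
    intro u
    obtain ⟨x, s, hs, h⟩ := hψ u
    have h2 : valH q (γ (ψ s)) ≠ 0 := ((hs.map γ).map (valH q)).ne_zero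
    refine ⟨valH _ x / valH _ s, ?_⟩
    rw [map_div₀, hι, hι, div_eq_iff h2, ← h, map_mul, map_mul, mul_comm]
  choose χ hχ using h1
  refine ⟨{ toFun := χ, map_one' := ?_, map_mul' := ?_, map_zero' := ?_, map_add' := ?_ },
    hχ, fun a => hinj ?_⟩
  · apply hinj
    rw [hχ, map_one, map_one, map_one]
  · intro x y
    apply hinj
    rw [hχ, map_mul, map_mul, map_mul, hχ, hχ]
  · apply hinj
    rw [hχ, map_zero, map_zero, map_zero]
  · intro x y
    apply hinj
    rw [hχ, map_add, map_add, map_add, hχ, hχ]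
  · change ι (χ (ψ a)) = _
    rw [hχ, hι]

/-- Every element of the residue field is a quotient of values. -/
lemma exists_div (q : PrimeSpectrum C) (x : Kp q) : ∃ a b : C, x = valH q a / valH q b := by
  obtain ⟨a, b, -, h⟩ := IsFractionRing.div_surjective (A := C ⧸ q.asIdeal) x
  obtain ⟨a, rfl⟩ := Ideal.Quotient.mk_surjective a
  obtain ⟨b, rfl⟩ := Ideal.Quotient.mk_surjective b
  exact ⟨a, b, h.symm⟩

/-- The residue fields of `U` are those of `A`. -/
lemma kp_frac (Φ : ∀ (F : Type) [Field F] [Algebra k F], Prop) (hΦ : Inv k Φ) (ψ : A →ₐ[k] U)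
    (hψ : Frac ψ) (h : ∀ p : PrimeSpectrum A, Φ (Kp p)) (q : PrimeSpectrum U) : Φ (Kp q) := by
  obtain ⟨ι, hι⟩ := kmap ((AlgHom.id k U).comp ψ) q
  obtain ⟨χ, hχ, -⟩ := factor ψ hψ (AlgHom.id k U) q ι hι
  have hb : Function.Bijective ι := by
    refine ⟨ι.toRingHom.injective, fun x => ?_⟩
    obtain ⟨a, b, rfl⟩ := exists_div q x
    refine ⟨χ a / χ b, ?_⟩
    rw [map_div₀, hχ, hχ]
    rfl
  exact hΦ _ _ (AlgEquiv.ofBijective ι hb) (h _)

end

/-! ### principal minors -/

lemma minor {K : Type} [Field K] {n : ℕ} (G P : Matrix (Fin n) (Fin n) K) (w : Fin n → K)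
    (hP : IsUnit P.det) (h : P.transpose * G * P = Matrix.diagonal w) (ρ : ℕ) (hρ : ρ ≤ n)
    (hw : ∀ j : Fin n, ¬ j.1 < ρ → w j = 0) (s : Finset (Fin n)) (hs : s.card = ρ) :
    ∃ δ : K, (G.submatrix (fun i : s => i.1) fun i : s => i.1).det =
      δ ^ 2 * ∏ j : Fin ρ, w (Fin.castLE hρ j) := by
  have hPP : P * P⁻¹ = 1 := Matrix.mul_nonsing_inv P hP
  have hPP' : P⁻¹ * P = 1 := Matrix.nonsing_inv_mul P hP
  have hG : G = (P⁻¹).transpose * Matrix.diagonal w * P⁻¹ := by
    rw [← h]
    have h1 : (P⁻¹).transpose * P.transpose = 1 := by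
      rw [← Matrix.transpose_mul, hPP, Matrix.transpose_one]
    calc G = ((P⁻¹).transpose * P.transpose) * G * (P * P⁻¹) := by
          rw [h1, hPP, Matrix.one_mul, Matrix.mul_one]
      _ = _ := by simp only [Matrix.mul_assoc]
  let e : Fin ρ ≃ s := (s.equivFinOfCardEq hs).symm
  let N : Matrix (Fin ρ) (Fin ρ) K := fun j i => P⁻¹ (Fin.castLE hρ j) (e i)
  refine ⟨N.det, ?_⟩
  have h2 : (G.submatrix (fun i : s => i.1) fun i : s => i.1).submatrix e e =
      N.transpose * Matrix.diagonal (fun j : Fin ρ => w (Fin.castLE hρ j)) * N := by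
    ext i i'
    rw [Matrix.submatrix_apply, Matrix.submatrix_apply, hG]
    rw [Matrix.mul_apply, Matrix.mul_apply]
    simp only [Matrix.mul_diagonal, Matrix.transpose_apply]
    have h3 : ∀ j : Fin n, j ∉ Set.range (Fin.castLE hρ) →
        P⁻¹ j (e i).1 * w j * P⁻¹ j (e i').1 = 0 := by
      intro j hj
      rw [hw j (fun hlt => hj ⟨⟨j.1, hlt⟩, Fin.ext rfl⟩), mul_zero, zero_mul]
    have h4 := Fintype.sum_of_injective (Fin.castLE hρ) (Fin.castLE_injective hρ)
      (fun j : Fin ρ => P⁻¹ (Fin.castLE hρ j) (e i).1 * w (Fin.castLE hρ j) *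
        P⁻¹ (Fin.castLE hρ j) (e i').1)
      (fun j : Fin n => P⁻¹ j (e i).1 * w j * P⁻¹ j (e i').1) h3 (fun _ => rfl)
    exact h4.symm
  rw [← Matrix.det_submatrix_equiv_self e, h2, Matrix.det_mul, Matrix.det_mul,
    Matrix.det_transpose, Matrix.det_diagonal]
  ring

lemma rank_eq {K : Type} [Field K] {n : ℕ} (G P : Matrix (Fin n) (Fin n) K) (w : Fin n → K)
    (hP : IsUnit P.det) (h : P.transpose * G * P = Matrix.diagonal w) (ρ : ℕ) (hρ : ρ ≤ n)
    (hw : ∀ j : Fin n, w j ≠ 0 ↔ j.1 < ρ) : G.rank = ρ := by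
  classical
  have h1 : (P.transpose * G * P).rank = G.rank := by
    rw [Matrix.rank_mul_eq_left_of_isUnit_det _ _ hP,
      Matrix.rank_mul_eq_right_of_isUnit_det _ _ (by rwa [Matrix.det_transpose])]
  rw [← h1, h, Matrix.rank_diagonal]
  have e : Fin ρ ≃ {j // w j ≠ 0} := Equiv.ofBijective
    (fun j => ⟨Fin.castLE hρ j, (hw _).2 j.2⟩)
    ⟨fun a b hab => Fin.castLE_injective hρ (congrArg Subtype.val hab), fun j =>
      ⟨⟨j.1.1, (hw _).1 j.2⟩, Subtype.ext (Fin.ext rfl)⟩⟩
  rw [← Fintype.card_congr e, Fintype.card_fin]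

/-! ### the discriminant double cover -/

section

variable {k : Type} [Field k] {A U : Type} [CommRing A] [Algebra k A] [CommRing U] [Algebra k U]

lemma adjoin_top {K F : Type} [Field K] [Field F] [Algebra K F] (c : U)
    (val' : Dr U 0 c →+* F) (χ : U →+* K)
    (hχ : ∀ u, algebraMap K F (χ u) = val' (algebraMap U (Dr U 0 c) u))
    (hdiv : ∀ x : F, ∃ a b, x = val' a / val' b) (t : F) (y : K) (hy : y ≠ 0)
    (ht : t = algebraMap K F y * val' (QCV.rt 0 c)) : IntermediateField.adjoin K {t} = ⊤ := by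
  rw [eq_top_iff]
  intro x _
  have hrt : val' (QCV.rt 0 c) ∈ IntermediateField.adjoin K {t} := by
    have h1 : val' (QCV.rt 0 c) = algebraMap K F y⁻¹ * t := by
      rw [ht, ← mul_assoc, ← map_mul, inv_mul_cancel₀ hy, map_one, one_mul]
    rw [h1]
    exact mul_mem (IntermediateField.algebraMap_mem _ _)
      (IntermediateField.mem_adjoin_simple_self K t)
  have h2 : ∀ a : Dr U 0 c, val' a ∈ IntermediateField.adjoin K {t} := by
    intro a
    induction a using AdjoinRoot.induction_on with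
    | ih p =>
      induction p using Polynomial.induction_on with
      | C u =>
        have h3 := hχ u
        change val' (algebraMap U (Dr U 0 c) u) ∈ _
        rw [← h3]
        exact IntermediateField.algebraMap_mem _ _
      | add p p' hp hp' =>
        rw [map_add, map_add]
        exact add_mem hp hp'
      | monomial n u hn =>
        rw [pow_succ, ← mul_assoc, map_mul, map_mul]
        exact mul_mem hn hrt
  obtain ⟨a, b, rfl⟩ := hdiv x
  exact div_mem (h2 a) (h2 b)

lemma kp_dbl (Φ : ∀ (F : Type) [Field F] [Algebra k F], Prop) (h2 : (2 : k) ≠ 0)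
    (ψ : A →ₐ[k] U) (hψ : Frac ψ) (n : ℕ)
    (f : MvPolynomial (Fin n) A) (Pm : Matrix (Fin n) (Fin n) U) (w : Fin n → U)
    (hdet : IsUnit Pm.det)
    (hd : Pm.transpose * (UQ.gram f).map ψ * Pm = Matrix.diagonal w) (m : ℕ) (hρ : 2 * m ≤ n)
    (hw : ∀ j : Fin n, (j.1 < 2 * m → IsUnit (w j)) ∧ (¬ j.1 < 2 * m → w j = 0))
    (h : ∀ p : PrimeSpectrum A, Good Φ f p) (v : Fin (2 * m) → U)
    (hv : ∀ j, 2 * v j = w (Fin.castLE hρ j))
    (q : PrimeSpectrum (Dr U 0 ((-1) ^ (m + 1) * ∏ j, v j))) : Φ (Kp q) := by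
  classical
  obtain ⟨c, hc⟩ : ∃ c, c = (-1) ^ (m + 1) * ∏ j, v j := ⟨_, rfl⟩
  revert q
  rw [← hc]
  intro q
  let γ : U →ₐ[k] Dr U 0 c := IsScalarTower.toAlgHom k U (Dr U 0 c)
  obtain ⟨ι, hι⟩ := kmap (γ.comp ψ) q
  obtain ⟨χ, hχ, hχ'⟩ := factor ψ hψ γ q ι hι
  obtain ⟨-, hD⟩ := h (below (γ.comp ψ) q)
  have hG : (UQ.gram f).map (val (below (γ.comp ψ) q)) = ((UQ.gram f).map ψ).map χ := by
    ext i j
    rw [Matrix.map_apply, Matrix.map_apply, Matrix.map_apply, hχ']
    rfl
  rw [hG] at hD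
  have hdK : (Pm.map χ).transpose * ((UQ.gram f).map ψ).map χ * Pm.map χ =
      Matrix.diagonal fun j => χ (w j) := by
    have h3 := congrArg (fun M : Matrix (Fin n) (Fin n) U => M.map χ) hd
    beta_reduce at h3
    rw [Matrix.map_mul, Matrix.map_mul, Matrix.diagonal_map (map_zero χ)] at h3
    exact h3
  have hdetK : IsUnit (Pm.map χ).det := by
    have h3 := hdet.map χ
    rwa [RingHom.map_det] at h3
  have hwK : ∀ j : Fin n, χ (w j) ≠ 0 ↔ j.1 < 2 * m := by
    intro j
    constructor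
    · intro h3
      by_contra h4
      exact h3 (by rw [(hw j).2 h4, map_zero])
    · intro h3
      exact (((hw j).1 h3).map χ).ne_zero
  have hrank := rank_eq _ _ _ hdetK hdK (2 * m) hρ hwK
  rcases hD with hodd | ⟨s, hs, hd0, hF⟩
  · rw [hrank] at hodd
    exact absurd hodd (by simp)
  · rw [hrank] at hs hF
    obtain ⟨δ, hδ⟩ := minor _ _ _ hdetK hdK (2 * m) hρ
      (fun j hj => by rw [(hw j).2 hj, map_zero]) s hs
    have hδ0 : δ ≠ 0 := by
      rintro rfl
      apply hd0
      rw [hδ]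
      ring
    let algKF : Algebra (Kp (below (γ.comp ψ) q)) (Kp q) := ι.toRingHom.toAlgebra
    have tower : @IsScalarTower k (Kp (below (γ.comp ψ) q)) (Kp q) _ algKF.toSMul _ :=
      @IsScalarTower.of_algebraMap_eq k (Kp (below (γ.comp ψ) q)) (Kp q) _ _ _ _ algKF _
        fun x => (ι.commutes x).symm
    refine @hF (Kp q) _ _ algKF tower ?_
    have h2K : (2 : Kp (below (γ.comp ψ) q)) ≠ 0 := by
      intro h3
      apply h2
      apply (algebraMap k (Kp (below (γ.comp ψ) q))).injective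
      rw [map_ofNat, map_zero, h3]
    have hy : δ * 2 ^ m ≠ 0 := mul_ne_zero hδ0 (pow_ne_zero _ h2K)
    refine ⟨ι (δ * 2 ^ m) * valH q (QCV.rt 0 c), ?_, ?_⟩
    · have hrt := QCV.rt_eq (0 : U) c
      rw [map_zero, zero_mul, add_zero] at hrt
      have hrt2 : QCV.rt 0 c ^ 2 = - algebraMap U (Dr U 0 c) c := eq_neg_of_add_eq_zero_left hrt
      have hval : valH q (QCV.rt 0 c) ^ 2 = - ι (χ c) := by
        rw [← map_pow, hrt2, map_neg, hχ]
        rfl
      change _ = ι _
      rw [mul_pow, hval, ← map_pow, ← map_neg, ← map_mul]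
      congr 1
      rw [hδ]
      have h5 : ∏ j : Fin (2 * m), χ (w (Fin.castLE hρ j)) = 2 ^ (2 * m) * χ (∏ j, v j) := by
        have h6 : ∀ j : Fin (2 * m), χ (w (Fin.castLE hρ j)) = 2 * χ (v j) := by
          intro j
          rw [← hv, map_mul, map_ofNat]
        rw [Finset.prod_congr rfl fun j _ => h6 j, Finset.prod_mul_distrib, Finset.prod_const,
          Finset.card_univ, Fintype.card_fin, map_prod]
      have hcχ : χ c = (-1) ^ (m + 1) * χ (∏ j, v j) := by
        have h6 := congrArg χ hc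
        rw [map_mul, map_pow, map_neg, map_one] at h6
        exact h6
      rw [h5, hcχ, Nat.mul_div_cancel_left m (by norm_num)]
      ring
    · exact @adjoin_top U _ (Kp (below (γ.comp ψ) q)) (Kp q) _ _ algKF c (valH q) χ
        (fun u => hχ u) (exists_div q) _ (δ * 2 ^ m) hy rfl

end

/-! ### families over the base -/

lemma frac_away {k : Type} [Field k] {A D : Type} [CommRing A] [Algebra k A] [CommRing D]
    [Algebra k D] (ψ : A →ₐ[k] D) (hψ : Function.Surjective ψ) (a : D) :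
    Frac ((awayHom k a).comp ψ) := by
  intro u
  obtain ⟨⟨d, s⟩, h⟩ := IsLocalization.surj (Submonoid.powers a) u
  obtain ⟨x, rfl⟩ := hψ d
  obtain ⟨y, hy⟩ := hψ s.1
  refine ⟨x, y, ?_, ?_⟩
  · change IsUnit (algebraMap D (Localization.Away a) (ψ y))
    rw [hy]
    exact IsLocalization.map_units (Localization.Away a) s
  · change algebraMap D (Localization.Away a) (ψ y) * u = algebraMap D (Localization.Away a) (ψ x)
    rw [hy, mul_comm]
    exact h

lemma gram_map {A B : Type} [CommRing A] [CommRing B] {n : ℕ} (φ : A →+* B)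
    (f : MvPolynomial (Fin n) A) : UQ.gram (MvPolynomial.map φ f) = (UQ.gram f).map φ :=
  QCV.QOD.gram_map φ f

/-- Families of varieties over the base. -/
lemma cls1 {k : Type} [Field k] (P : Var k → Prop) (hP : LFQ.Clo P) {R : Type} [CommRing R]
    [Algebra k R] [Algebra.FiniteType k R] {n : ℕ} (f : Fin 1 → MvPolynomial (Fin n) R) :
    Cls1 k R (fun S _ _ _ ψ => P (sp k (ER (mf ψ.toRingHom f)))) := by
  have h0 := hP.cls0
  have hmf : ∀ (S S' : Type) [CommRing S] [Algebra k S] [CommRing S'] [Algebra k S']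
      (ψ : R →ₐ[k] S) (φ : S →ₐ[k] S'), mf (φ.comp ψ).toRingHom f =
        mf φ.toRingHom (mf ψ.toRingHom f) := by
    intro S S' _ _ _ _ ψ φ
    funext j
    exact (MvPolynomial.map_map _ _ _).symm
  constructor
  · intro S S' _ _ _ _ _ _ e ψ hS
    obtain ⟨e'⟩ := QCV.Asm.s_FAM.2 k S S' (Fin 1) n e (mf ψ.toRingHom f)
    have := h0.iso e' hS
    rw [← hmf] at this
    exact this
  · intro S _ _ _ ψ hS
    apply h0.triv
    have : Subsingleton (MvPolynomial (Fin n) S) := Module.subsingleton S _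
    exact Function.Surjective.subsingleton (Ideal.Quotient.mk_surjective
      (I := Ideal.span (Set.range (mf ψ.toRingHom f))))
  · intro A Z U _ _ _ _ _ _ _ _ _ a z u ψ hs hZ hU
    obtain ⟨z', u', hs'⟩ := QCV.Asm.s_FAM.1 k A Z U (Fin 1) n a z u (mf ψ.toRingHom f) hs
    refine h0.glue _ z' u' hs' ?_ ?_
    · rw [← hmf]
      exact hZ
    · rw [← hmf]
      exact hU
  · intro A Z U _ _ _ _ _ _ _ _ _ a z u ψ hs hA hZ
    obtain ⟨z', u', hs'⟩ := QCV.Asm.s_FAM.1 k A Z U (Fin 1) n a z u (mf ψ.toRingHom f) hs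
    have := h0.opn _ z' u' hs' hA (by rw [← hmf]; exact hZ)
    rw [← hmf] at this
    exact this

end QUFAux

open QUFAux in
theorem t_QUF : M_QUF := by
  intro hRES _ k _ h2 P hP Φ hΦ hB A _ _ _ n f hf hGood
  have hsm : ∀ (B : Type) [CommRing B] [Algebra k B] [Algebra.FiniteType k B],
      (∀ q : PrimeSpectrum B, Φ (Kp q)) → P (sp k B) := by
    intro B _ _ _ h
    refine hB _ fun x => ?_
    obtain ⟨q, hq⟩ := (hRES k B Φ hΦ).1 x
    exact hq.2 (h q)
  have h3 := QCV.Asm.s_NOE k A _ (cls1 P hP (fun _ : Fin 1 => f)) (by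
    intro D _ _ _ _ ψ₀ hψ₀
    have h2D : (2 : D) ≠ 0 := by
      intro h
      apply h2
      apply (algebraMap k D).injective
      rw [map_zero, map_ofNat, h]
    obtain ⟨fD, hfD⟩ : ∃ fD, fD = MvPolynomial.map ψ₀.toRingHom f := ⟨_, rfl⟩
    have hfDh : fD.IsHomogeneous 2 := by
      rw [hfD]
      exact hf.map _
    obtain ⟨a, ha, Pm, w, hdet, hdiag, hw⟩ :=
      QCV.t_QDS QCV.t_QDF D n (QCV.gram fD) h2D (QCV.QOD.gram_transpose fD)
    refine ⟨a, ha, ?_⟩
    obtain ⟨ρ, hρdef⟩ : ∃ ρ, ρ =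
      ((QCV.gram fD).map (algebraMap D (FractionRing D))).rank := ⟨_, rfl⟩
    rw [← hρdef] at hw
    have hρ : ρ ≤ n := by
      rw [hρdef]
      exact (Matrix.rank_le_width _).trans le_rfl
    have hfrac : Frac ((awayHom k a).comp ψ₀) := frac_away ψ₀ hψ₀ a
    have hU : P (sp k (Localization.Away a)) :=
      hsm _ (kp_frac Φ hΦ _ hfrac fun p => (hGood p).1)
    -- diagonalisation
    have hf' : (MvPolynomial.map (algebraMap D (Localization.Away a)) fD).IsHomogeneous 2 :=
      hfDh.map _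
    have hdiag' : Pm.transpose *
        QCV.gram (MvPolynomial.map (algebraMap D (Localization.Away a)) fD) * Pm =
        Matrix.diagonal w := by
      rw [QCV.QOD.gram_map]
      exact hdiag
    have htwo : (2 : Localization.Away a) * algebraMap k (Localization.Away a) 2⁻¹ = 1 := by
      rw [← map_ofNat (algebraMap k (Localization.Away a)) 2, ← map_mul, mul_inv_cancel₀ h2,
        map_one]
    have hunit : IsUnit (algebraMap k (Localization.Away a) 2⁻¹) :=
      IsUnit.of_mul_eq_one_right _ htwo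
    obtain ⟨e1⟩ := QCV.t_QDP k (Localization.Away a) n
      (MvPolynomial.map (algebraMap D (Localization.Away a)) fD) Pm w
      (fun j => algebraMap k (Localization.Away a) 2⁻¹ * w j) h2 hf' hdet hdiag' (fun j => by
        rw [← mul_assoc, htwo, one_mul])
    obtain ⟨e2⟩ := QCV.t_QDL k (Localization.Away a) n ρ hρ
      (fun j => algebraMap k (Localization.Away a) 2⁻¹ * w j) (fun j hj => by
        rw [(hw j).2 hj, mul_zero])
    -- the cone
    have hS : P (sp k (MvPolynomial (Fin ρ) (Localization.Away a) ⧸ Ideal.span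
        {QCV.dia fun j : Fin ρ =>
          algebraMap k (Localization.Away a) 2⁻¹ * w (Fin.castLE hρ j)})) := by
      clear hρdef e1 e2
      obtain ⟨m, rfl | rfl⟩ := Nat.even_or_odd' ρ
      · refine hP.even h2 (Localization.Away a) m _
          (fun j => hunit.mul ((hw (Fin.castLE hρ j)).1 j.2)) ?_
        refine hsm _ fun q => ?_
        refine kp_dbl Φ h2 ((awayHom k a).comp ψ₀) hfrac n f Pm w hdet ?_ m hρ hw hGood
          (fun j => algebraMap k (Localization.Away a) 2⁻¹ * w (Fin.castLE hρ j))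
          (fun j => by rw [← mul_assoc, htwo, one_mul]) q
        have hg : QCV.gram (MvPolynomial.map (algebraMap D (Localization.Away a)) fD) =
            (UQ.gram f).map ((awayHom k a).comp ψ₀) := by
          rw [hfD, MvPolynomial.map_map]
          exact QCV.QOD.gram_map _ f
        rw [← hg]
        exact hdiag'
      · exact hP.odd (Localization.Away a) m _
          (fun j => hunit.mul ((hw (Fin.castLE hρ j)).1 j.2)) hU
    have hS' := (QCV.Asm.s_PLY k _ hP.cls0 hP.line _ (n - ρ)).1 hS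
    have h4 := hP.cls0.iso e1.symm (hP.cls0.iso e2.symm hS')
    have e3 : Ideal.span {MvPolynomial.map (algebraMap D (Localization.Away a)) fD} =
        Ideal.span (Set.range (mf ((awayHom k a).comp ψ₀).toRingHom (fun _ : Fin 1 => f))) := by
      congr 1
      ext x
      have e4 : MvPolynomial.map (algebraMap D (Localization.Away a)) fD =
          MvPolynomial.map ((awayHom k a).comp ψ₀).toRingHom f := by
        rw [hfD, MvPolynomial.map_map]
        rfl
      constructor
      · rintro rfl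
        exact ⟨0, e4.symm⟩
      · rintro ⟨j, rfl⟩
        exact e4.symm
    exact hP.cls0.iso (Ideal.quotientEquivAlgOfEq k e3) h4)
  have h5 : mf (AlgHom.id k A).toRingHom (fun _ : Fin 1 => f) = fun _ : Fin 1 => f := by
    funext j
    exact MvPolynomial.map_id _
  rw [h5] at h3
  exact h3

end Pool.Agent.FMQ
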