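import Pool.Agent.FMQ.St2

/-!
# Project FMQ, module SDI: independence on the strata
-/

set_option autoImplicit false

open CategoryTheory AlgebraicGeometry Polynomial Multiplicative

namespace Pool.Agent.FMQ

namespace SDIAux

variable {k : Type} [Field k] {n r : ℕ}

/-- families of combinations of exponents -/
abbrev ZZ (n r : ℕ) : Type := Fin r → (Fin n →₀ ℕ) →₀ ℤ

/-- `tot` as a linear map -/
noncomputable def totL (n r : ℕ) : ZZ n r →ₗ[ℤ] (Fin n → ℤ) where
  toFun := tot
  map_add' z z' := by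
    funext i
    simp only [tot, Pi.add_apply]
    rw [← Finset.sum_add_distrib]
    refine Finset.sum_congr rfl fun j _ => ?_
    exact Finsupp.sum_add_index' (fun _ => zero_mul _) (fun _ _ _ => add_mul _ _ _)
  map_smul' c z := by
    funext i
    simp only [tot, Pi.smul_apply, smul_eq_mul, RingHom.id_apply]
    rw [Finset.mul_sum]
    refine Finset.sum_congr rfl fun j _ => ?_
    rw [Finsupp.sum_smul_index' (fun _ => zero_mul _), Finsupp.mul_sum]
    exact Finsupp.sum_congr fun α _ => by rw [smul_eq_mul, mul_assoc]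

/-- the relations form a submodule -/
def relS (f : Fin r → MvPolynomial (Fin n) k) : Submodule ℤ (ZZ n r) where
  carrier := {z | Rel f z}
  zero_mem' := ⟨fun j α h => absurd rfl h, fun j => rfl⟩
  add_mem' := by
    rintro z z' ⟨h1, h2⟩ ⟨h1', h2'⟩
    refine ⟨fun j α h => ?_, fun j => ?_⟩
    · by_cases h0 : z j α = 0
      · refine h1' j α fun h0' => h ?_
        rw [Pi.add_apply, Finsupp.add_apply, h0, h0', add_zero]
      · exact h1 j α h0
    · rw [Pi.add_apply, Finsupp.sum_add_index' (fun _ => rfl) (fun _ _ _ => rfl), h2, h2', add_zero]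
  smul_mem' := by
    rintro c z ⟨h1, h2⟩
    refine ⟨fun j α h => h1 j α fun h0 => h ?_, fun j => ?_⟩
    · rw [Pi.smul_apply, Finsupp.smul_apply, h0, smul_zero]
    · rw [Pi.smul_apply, Finsupp.sum_smul_index' (fun _ => rfl)]
      have := h2 j
      rw [← Finsupp.smul_sum, this, smul_zero]

/-- the difference of two exponents of the equation `j` -/
noncomputable def dd (j : Fin r) (α β : Fin n →₀ ℕ) : ZZ n r :=
  Pi.single j (Finsupp.single α 1 - Finsupp.single β 1)

theorem dd_mem (f : Fin r → MvPolynomial (Fin n) k) {j : Fin r} {α β : Fin n →₀ ℕ}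
    (hα : α ∈ (f j).support) (hβ : β ∈ (f j).support) : dd j α β ∈ relS f := by
  classical
  refine ⟨fun j' γ h => ?_, fun j' => ?_⟩
  · unfold dd at h
    by_cases hj : j' = j
    · subst hj
      rw [Pi.single_eq_same, Finsupp.sub_apply, Finsupp.single_apply, Finsupp.single_apply] at h
      by_cases h1 : α = γ
      · rw [← h1]; exact hα
      · by_cases h2 : β = γ
        · rw [← h2]; exact hβ
        · rw [if_neg h1, if_neg h2, sub_zero] at h
          exact absurd rfl h
    · rw [Pi.single_eq_of_ne hj] at h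
      exact absurd rfl h
  · unfold dd
    by_cases hj : j' = j
    · subst hj
      rw [Pi.single_eq_same, Finsupp.sum_sub_index (fun _ _ _ => rfl),
        Finsupp.sum_single_index rfl, Finsupp.sum_single_index rfl, sub_self]
    · rw [Pi.single_eq_of_ne hj]
      exact Finsupp.sum_zero_index

theorem tot_dd (j : Fin r) (α β : Fin n →₀ ℕ) (i : Fin n) :
    totL n r (dd j α β) i = (α i : ℤ) - β i := by
  show ∑ j', ((dd j α β) j').sum (fun α c => c * (α i : ℤ)) = _
  rw [Finset.sum_eq_single j]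
  · unfold dd
    rw [Pi.single_eq_same, Finsupp.sum_sub_index (fun _ _ _ => sub_mul _ _ _),
      Finsupp.sum_single_index (zero_mul _), Finsupp.sum_single_index (zero_mul _), one_mul, one_mul]
  · intro j' _ hj
    unfold dd
    rw [Pi.single_eq_of_ne hj]
    exact Finsupp.sum_zero_index
  · intro h
    exact absurd (Finset.mem_univ j) h

/-- The general statement. -/
theorem main {N : ℕ} (f : Fin r → MvPolynomial (Fin n) k) (hf : Dels N f) (U : Set (Fin n))
    {S : Type} [Fintype S] (J : S → Fin r) (A B : S → (Fin n →₀ ℕ))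
    (hA : ∀ s, A s ∈ (f (J s)).support ∧ ∀ v, v ∉ U → A s v = 0)
    (hB : ∀ s, B s ∈ (f (J s)).support ∧ ∀ v, v ∉ U → B s v = 0)
    (hJ : ∀ s s', J s = J s' → A s ≠ B s' ∧ (A s = A s' → s = s'))
    (d : S → (U → ℤ)) (hd : ∀ s, d s = rs U (A s) - rs U (B s)) :
    LinearIndependent ℤ d ∧
    (∀ (x : U → ℤ) (t : ℤ), t ≠ 0 → t • x ∈ Submodule.span ℤ (Set.range d) →
      (N : ℤ) • x ∈ Submodule.span ℤ (Set.range d)) := by
  classical
  set D : S → ZZ n r := fun s => dd (J s) (A s) (B s) with hD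
  have hDm : ∀ c : S → ℤ, Rel f (∑ s, c s • D s) := fun c =>
    Submodule.sum_mem (relS f) fun s _ => Submodule.smul_mem _ _ (dd_mem f (hA s).1 (hB s).1)
  -- the coordinates
  have hco : ∀ (c : S → ℤ) (s : S), (∑ s', c s' • D s') (J s) (A s) = c s := by
    intro c s
    rw [Finset.sum_apply, Finsupp.finsetSum_apply, Finset.sum_eq_single s]
    · rw [Pi.smul_apply, Finsupp.smul_apply, hD]
      simp only [dd, Pi.single_eq_same, Finsupp.sub_apply, Finsupp.single_eq_same]
      rw [Finsupp.single_eq_of_ne (hJ s s rfl).1, sub_zero, smul_eq_mul, mul_one]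
    · intro s' _ hs
      rw [Pi.smul_apply, Finsupp.smul_apply, hD]
      simp only [dd]
      by_cases hj : J s = J s'
      · rw [hj, Pi.single_eq_same, Finsupp.sub_apply,
          Finsupp.single_eq_of_ne (fun h => hs ((hJ s s' hj).2 h).symm),
          Finsupp.single_eq_of_ne (hJ s s' hj).1, sub_zero, smul_zero]
      · rw [Pi.single_eq_of_ne hj, Finsupp.zero_apply, smul_zero]
    · intro h
      exact absurd (Finset.mem_univ s) h
  -- the totals
  have htU : ∀ (c : S → ℤ) (v : U), totL n r (∑ s, c s • D s) v = (∑ s, c s • d s) v := by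
    intro c v
    rw [map_sum, Finset.sum_apply, Finset.sum_apply]
    refine Finset.sum_congr rfl fun s _ => ?_
    rw [map_smul, Pi.smul_apply, Pi.smul_apply, hd s]
    simp only [hD]
    rw [tot_dd]
    rfl
  have htZ : ∀ (c : S → ℤ) (v : Fin n), v ∉ U → totL n r (∑ s, c s • D s) v = 0 := by
    intro c v hv
    rw [map_sum, Finset.sum_apply]
    refine Finset.sum_eq_zero fun s _ => ?_
    rw [map_smul, Pi.smul_apply]
    simp only [hD]
    rw [tot_dd, (hA s).2 v hv, (hB s).2 v hv]
    simp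
  refine ⟨?_, ?_⟩
  · rw [Fintype.linearIndependent_iff]
    intro c hc s
    have h1 : tot (∑ s, c s • D s) = 0 := by
      funext v
      by_cases hv : v ∈ U
      · have := htU c ⟨v, hv⟩
        rw [hc] at this
        exact this
      · exact htZ c v hv
    have h2 := hf.ind _ (hDm c) h1
    rw [← hco c s, h2]
    rfl
  · intro x t ht hx
    obtain ⟨c, hc⟩ := (Submodule.mem_span_range_iff_exists_fun ℤ).1 hx
    -- the extension by zero
    set xx : Fin n → ℤ := fun v => if h : v ∈ U then x ⟨v, h⟩ else 0 with hxx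
    have hxU : ∀ v : U, xx v = x v := fun v => by
      simp only [hxx]
      rw [dif_pos v.2]
    have hxZ : ∀ v, v ∉ U → xx v = 0 := fun v hv => by
      simp only [hxx]
      rw [dif_neg hv]
    have h1 : t • xx = tot (∑ s, c s • D s) := by
      funext v
      by_cases hv : v ∈ U
      · have h2 := htU c ⟨v, hv⟩
        rw [hc] at h2
        refine Eq.trans ?_ h2.symm
        rw [Pi.smul_apply, Pi.smul_apply, hxU ⟨v, hv⟩]
      · refine Eq.trans ?_ (htZ c v hv).symm
        rw [Pi.smul_apply, hxZ v hv, smul_zero]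
    obtain ⟨z, hz, hzN⟩ := hf.exp xx t ht ⟨_, hDm c, h1⟩
    have h2 : t • z - (N : ℤ) • ∑ s, c s • D s = 0 := by
      refine hf.ind _ ?_ ?_
      · exact Submodule.sub_mem (relS f) (Submodule.smul_mem _ _ hz) (Submodule.smul_mem _ _ (hDm c))
      · show totL n r _ = 0
        rw [map_sub, map_smul, map_smul]
        show t • tot z - (N : ℤ) • tot (∑ s, c s • D s) = 0
        rw [← hzN, ← h1, smul_comm, sub_self]
    have h3 : t • z = (N : ℤ) • ∑ s, c s • D s := sub_eq_zero.1 h2
    set c' : S → ℤ := fun s => z (J s) (A s) with hc'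
    have h4 : ∀ s, t * c' s = N * c s := by
      intro s
      have h5 := congrFun h3 (J s)
      have h6 := DFunLike.congr_fun h5 (A s)
      rw [Pi.smul_apply, Pi.smul_apply, Finsupp.smul_apply, Finsupp.smul_apply, hco c s] at h6
      exact h6
    have h7 : t • z = t • ∑ s, c' s • D s := by
      rw [h3, Finset.smul_sum, Finset.smul_sum]
      refine Finset.sum_congr rfl fun s _ => ?_
      rw [smul_smul, smul_smul, h4 s]
    have h8 : z = ∑ s, c' s • D s := smul_right_injective _ ht h7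
    rw [Submodule.mem_span_range_iff_exists_fun ℤ]
    refine ⟨c', ?_⟩
    funext v
    rw [← htU c' v, ← h8]
    show tot z v = _
    rw [← hzN, Pi.smul_apply, Pi.smul_apply, hxU v]

end SDIAux

open SDIAux in
theorem t_SDI : S_SDI := by
  intro k _ n r N f hf _ U M₃ M₂ j₃ j₂ α₀ α₁ α₂ β₀ β₁ hs
  obtain ⟨inj₃, inj₂, disj, mem₃, ne₃, mem₂, ne₂⟩ := hs
  have a0 : ∀ i, α₀ i ∈ (f (j₃ i)).support ∧ ∀ v, v ∉ U → α₀ i v = 0 := fun i =>
    (mem₃ i _).2 (Or.inl rfl)
  have a1 : ∀ i, α₁ i ∈ (f (j₃ i)).support ∧ ∀ v, v ∉ U → α₁ i v = 0 := fun i =>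
    (mem₃ i _).2 (Or.inr (Or.inl rfl))
  have a2 : ∀ i, α₂ i ∈ (f (j₃ i)).support ∧ ∀ v, v ∉ U → α₂ i v = 0 := fun i =>
    (mem₃ i _).2 (Or.inr (Or.inr rfl))
  have b0 : ∀ i, β₀ i ∈ (f (j₂ i)).support ∧ ∀ v, v ∉ U → β₀ i v = 0 := fun i =>
    (mem₂ i _).2 (Or.inl rfl)
  have b1 : ∀ i, β₁ i ∈ (f (j₂ i)).support ∧ ∀ v, v ∉ U → β₁ i v = 0 := fun i =>
    (mem₂ i _).2 (Or.inr rfl)
  intro d
  obtain ⟨h1, h2⟩ := main f hf U (S := (Fin M₃ ⊕ Fin M₃) ⊕ Fin M₂)
    (Sum.elim (Sum.elim j₃ j₃) j₂) (Sum.elim (Sum.elim α₁ α₂) β₁) (Sum.elim (Sum.elim α₀ α₀) β₀)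
    (by
      rintro ((i | i) | i)
      · exact a1 i
      · exact a2 i
      · exact b1 i)
    (by
      rintro ((i | i) | i)
      · exact a0 i
      · exact a0 i
      · exact b0 i)
    (by
      rintro ((i | i) | i) ((i' | i') | i') h
      · obtain rfl : i = i' := inj₃ h
        exact ⟨(ne₃ i).1.symm, fun _ => rfl⟩
      · obtain rfl : i = i' := inj₃ h
        exact ⟨(ne₃ i).1.symm, fun h' => absurd h' (ne₃ i).2.2⟩
      · exact absurd h (disj i i')
      · obtain rfl : i = i' := inj₃ h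
        exact ⟨(ne₃ i).2.1.symm, fun h' => absurd h'.symm (ne₃ i).2.2⟩
      · obtain rfl : i = i' := inj₃ h
        exact ⟨(ne₃ i).2.1.symm, fun _ => rfl⟩
      · exact absurd h (disj i i')
      · exact absurd h.symm (disj i' i)
      · exact absurd h.symm (disj i' i)
      · obtain rfl : i = i' := inj₂ h
        exact ⟨(ne₂ i).symm, fun _ => rfl⟩)
    d (by
      rintro ((i | i) | i) <;> rfl)
  refine ⟨h1, h2, ?_⟩
  classical
  have h3 : ∀ i, 1 ≤ (f (j₃ i)).support.card - 2 := by
    intro i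
    have h4 : ({α₀ i, α₁ i, α₂ i} : Finset (Fin n →₀ ℕ)) ⊆ (f (j₃ i)).support := by
      intro α hα
      rw [Finset.mem_insert, Finset.mem_insert, Finset.mem_singleton] at hα
      exact ((mem₃ i α).2 hα).1
    have h5 := Finset.card_le_card h4
    rw [Finset.card_eq_three.2 ⟨_, _, _, (ne₃ i).1, (ne₃ i).2.1, (ne₃ i).2.2, rfl⟩] at h5
    omega
  calc M₃ = ∑ _i : Fin M₃, 1 := by simp
    _ ≤ ∑ i : Fin M₃, ((f (j₃ i)).support.card - 2) := Finset.sum_le_sum fun i _ => h3 i
    _ = ∑ j ∈ Finset.univ.image j₃, ((f j).support.card - 2) := by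
        rw [Finset.sum_image fun _ _ _ _ h => inj₃ h]
    _ ≤ ∑ j, ((f j).support.card - 2) := Finset.sum_le_sum_of_subset (Finset.subset_univ _)

end Pool.Agent.FMQ
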