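import Pool.Agent.FMQ.St

/-!
# Few monomials and quadratic equations (project FMQ), module STM: a stratum
-/

set_option autoImplicit false

namespace Pool.Agent.FMQ

open FMO (At Sm Comp CompX Hom Act Add Few Univ Kp Inv Laur)

theorem t_STM : M_STM := by
  intro hTOR hFLD hLAU k _ P hP m hm hres V _ ι f hfew U Z hUZ C _ _ _ φ hC
  rcases subsingleton_or_nontrivial C with h | h
  · exact hP.triv C h
  have : Fintype V := Fintype.ofFinite V
  obtain ⟨r, Λ, i1, i2, ⟨e⟩, hmon⟩ := hTOR k V ι f m hfew U Z hUZ C φ hC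
  obtain ⟨hft, hres'⟩ := hFLD k m Λ hmon
  have hΛ : P Λ := hres Λ (hres' hm)
  have hL : P (Laur r Λ) := hLAU k P hP Λ r hΛ
  exact hP.iso e.symm hL

end Pool.Agent.FMQ
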