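import Pool.Agent.FMO.STR
import Pool.Agent.FMQ.St

/-!
# FMQ: module STV, stratification by some of the variables (helper28)
-/

set_option autoImplicit false

open MvPolynomial

namespace Pool.Agent.FMQ

open FMO (Univ)

open FMO.STRAux in
theorem t_STV : S_STV := by
  classical
  intro k _ P hP V _ ι f W hbase
  have hfin : Fintype V := Fintype.ofFinite V
  have key : ∀ (n : ℕ) (U Z : Set V), U ⊆ W → Z ⊆ W → ∀ (C : Type) [CommRing C] [Algebra k C]
      [Algebra.FiniteType k C] (φ : V → C), Univ f U Z C φ →
      (Finset.univ.filter fun v => v ∈ W ∧ ¬ (v ∈ U ∨ v ∈ Z)).card = n → P C := by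
    intro n
    induction n using Nat.strong_induction_on with
    | _ n ih =>
      intro U Z hUW hZW C _ _ _ φ h hn
      by_cases hv : ∀ v ∈ W, v ∈ U ∨ v ∈ Z
      · exact hbase U Z hUW hZW hv C φ h
      · rw [not_forall] at hv
        obtain ⟨v, hv0⟩ := hv
        rw [Classical.not_imp, not_or] at hv0
        obtain ⟨hvW, hv1, hv2⟩ := hv0
        have hlt : ∀ U' Z' : Set V, U ⊆ U' → Z ⊆ Z' → (v ∈ U' ∨ v ∈ Z') →
            (Finset.univ.filter fun v => v ∈ W ∧ ¬ (v ∈ U' ∨ v ∈ Z')).card < n := by
          intro U' Z' hU hZ hv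
          rw [← hn]
          refine Finset.card_lt_card (Finset.ssubset_iff_subset_ne.2 ⟨fun w hw => ?_, fun he => ?_⟩)
          · rw [Finset.mem_filter] at hw ⊢
            exact ⟨hw.1, hw.2.1, fun h1 => hw.2.2 (h1.imp (fun h2 => hU h2) fun h2 => hZ h2)⟩
          · have h1 : v ∈ Finset.univ.filter fun v => v ∈ W ∧ ¬ (v ∈ U ∨ v ∈ Z) := by
              rw [Finset.mem_filter]
              exact ⟨Finset.mem_univ v, hvW, fun h2 => h2.elim hv1 hv2⟩
            rw [← he, Finset.mem_filter] at h1
            exact h1.2.2 hv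
        have hq : Algebra.FiniteType k (C ⧸ Ideal.span {φ v}) :=
          Algebra.FiniteType.of_surjective (Ideal.Quotient.mkₐ k (Ideal.span {φ v}))
            (Ideal.Quotient.mkₐ_surjective k _)
        have hl : Algebra.FiniteType k (Localization.Away (φ v)) := by
          have h1 : Algebra.FiniteType C (Localization.Away (φ v)) := inferInstance
          exact Algebra.FiniteType.trans (S := C) inferInstance h1
        refine hP.glue (φ v) (Ideal.Quotient.mkₐ k (Ideal.span {φ v}))
          (IsScalarTower.toAlgHom k C (Localization.Away (φ v))) (strat (φ v)) ?_ ?_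
        · exact ih _ (hlt U (insert v Z) subset_rfl (Set.subset_insert v Z)
            (Or.inr (Set.mem_insert v Z))) U (insert v Z) hUW (Set.insert_subset hvW hZW)
            (C ⧸ Ideal.span {φ v}) _ (quotient h v) rfl
        · exact ih _ (hlt (insert v U) Z (Set.subset_insert v U) subset_rfl
            (Or.inl (Set.mem_insert v U))) (insert v U) Z (Set.insert_subset hvW hUW) hZW
            (Localization.Away (φ v)) _ (localization h v) rfl
  intro C _ _ _ φ h
  exact key _ ∅ ∅ (Set.empty_subset _) (Set.empty_subset _) C φ h rfl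

end Pool.Agent.FMQ
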