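import Pool.Agent.FMQ.St2

/-!
# FMQ, THR: elimination
-/

set_option autoImplicit false

namespace Pool.Agent.FMQ

namespace THRAux

/-- The sums over `Fin (r + 1)` after one step. -/
theorem sums {r : ℕ} (c : Fin r → ℕ) (c' : Fin (r + 1) → ℕ) (j : Fin r) (h4 : 4 ≤ c j)
    (hj : c' (Fin.castSucc j) + 1 = c j) (hl : c' (Fin.last r) = 3)
    (ho : ∀ i, i ≠ j → c' (Fin.castSucc i) = c i) :
    ∑ i, (c' i - 2) = ∑ i, (c i - 2) ∧ ∑ i, (c' i - 3) + 1 = ∑ i, (c i - 3) := by
  rw [Fin.sum_univ_castSucc, Fin.sum_univ_castSucc, hl]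
  rw [← Finset.add_sum_erase Finset.univ (fun i => c' (Fin.castSucc i) - 2) (Finset.mem_univ j),
    ← Finset.add_sum_erase Finset.univ (fun i => c i - 2) (Finset.mem_univ j),
    ← Finset.add_sum_erase Finset.univ (fun i => c' (Fin.castSucc i) - 3) (Finset.mem_univ j),
    ← Finset.add_sum_erase Finset.univ (fun i => c i - 3) (Finset.mem_univ j)]
  have e2 : ∑ i ∈ Finset.univ.erase j, (c' (Fin.castSucc i) - 2) =
      ∑ i ∈ Finset.univ.erase j, (c i - 2) :=
    Finset.sum_congr rfl fun i hi => by rw [ho i (Finset.ne_of_mem_erase hi)]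
  have e3 : ∑ i ∈ Finset.univ.erase j, (c' (Fin.castSucc i) - 3) =
      ∑ i ∈ Finset.univ.erase j, (c i - 3) :=
    Finset.sum_congr rfl fun i hi => by rw [ho i (Finset.ne_of_mem_erase hi)]
  rw [e2, e3]
  constructor <;> omega

end THRAux

theorem t_THR : M_THR := by
  intro hONE k _ n r N f hf
  induction hm : ∑ j, ((f j).support.card - 3) using Nat.strong_induction_on generalizing n r with
  | _ m ih =>
    by_cases h : ∀ j, (f j).support.card ≤ 3
    · exact ⟨n, r, f, hf, h, rfl, ⟨AlgEquiv.refl⟩⟩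
    · push Not at h
      obtain ⟨j, hj⟩ := h
      obtain ⟨f', hD, h1, h2, h3, ⟨e⟩⟩ := hONE k n r N f hf j hj
      obtain ⟨s2, s3⟩ := THRAux.sums (fun i => (f i).support.card)
        (fun i => (f' i).support.card) j hj h1 h2 h3
      obtain ⟨n'', r'', f'', hD', hc, hs, ⟨e'⟩⟩ := ih (∑ j, ((f' j).support.card - 3))
        (by omega) (n + 1) (r + 1) f' hD rfl
      exact ⟨n'', r'', f'', hD', hc, hs.trans s2, ⟨e.trans e'⟩⟩

end Pool.Agent.FMQ
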