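import Pool.Agent.FMO.Gen1
import Pool.Agent.FMO.RES
import Pool.Agent.FMO.IMM
import Pool.Agent.FMO.SMC
import Pool.Agent.FMQ.BSF
import Pool.Agent.FMQ.CLF
import Pool.Agent.FMQ.CUR
import Pool.Agent.FMQ.DBL
import Pool.Agent.FMQ.DEL
import Pool.Agent.FMQ.ELN
import Pool.Agent.FMQ.EQS
import Pool.Agent.FMQ.EXU
import Pool.Agent.FMQ.FR1
import Pool.Agent.FMQ.FR2
import Pool.Agent.FMQ.FRE
import Pool.Agent.FMQ.GMD
import Pool.Agent.FMQ.GUT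
import Pool.Agent.FMQ.GUX
import Pool.Agent.FMQ.GX1
import Pool.Agent.FMQ.GXT
import Pool.Agent.FMQ.LAT
import Pool.Agent.FMQ.MIX
import Pool.Agent.FMQ.MXV
import Pool.Agent.FMQ.ONE
import Pool.Agent.FMQ.PRR
import Pool.Agent.FMQ.QU1
import Pool.Agent.FMQ.QU2
import Pool.Agent.FMQ.QU3
import Pool.Agent.FMQ.QUF
import Pool.Agent.FMQ.SDI
import Pool.Agent.FMQ.STM
import Pool.Agent.FMQ.STV
import Pool.Agent.FMQ.THR
import Pool.Agent.FMQ.UNQ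

/-!
# FMQ: assembly of the modules
-/

set_option autoImplicit false

namespace Pool.Agent.FMQ

universe v

theorem s_CUR : S_CUR := t_CUR FMO.t_CIN

theorem s_SMC : FMO.S_SMC := FMO.t_SMC FMO.t_CTR FMO.t_CIN

theorem s_BSF : S_BSF := t_BSF FMO.t_IMM s_SMC

theorem s_TOR : FMO.S_TOR := FMO.t_TOR FMO.t_TOZ

theorem s_FLD : FMO.S_FLD := FMO.t_FLD FMO.t_FLF

theorem s_STM : S_STM := t_STM s_TOR s_FLD FMO.t_LAU

theorem s_QU2 : S_QU2 := t_QU2 t_QU1 t_GMD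

theorem s_QU3 : S_QU3 := t_QU3 t_QU1 s_QU2

theorem s_DBL : S_DBL := t_DBL s_STM

theorem s_MIX : S_MIX :=
  t_MIX FMO.t_RES FMO.t_CIN t_CLF s_STM t_STV t_ELN t_EXU t_UNQ t_MXV s_QU3 s_DBL

theorem s_EQS : S_EQS := t_EQS FMO.t_RES FMO.t_CIN t_CLF

theorem s_FR1 : S_FR1 := t_FR1 t_EXU t_UNQ

theorem s_FR2 : S_FR2 := t_FR2 t_EXU t_GMD t_CLF FMO.t_LAU s_FR1

theorem s_GXT : S_GXT := t_GXT t_GUX t_GX1

theorem s_THR : S_THR := t_THR t_ONE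

theorem s_DEL : S_DEL :=
  t_DEL FMO.t_STR t_CLF s_THR t_GUT t_SDI t_LAT t_GUX s_GXT s_FR2

theorem s_QUF : S_QUF := t_QUF FMO.t_RES t_QU1

end Pool.Agent.FMQ
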