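import Pool.Agent.FMQ.Brg

/-!
# FMQ: the class in the language of the final statement
-/

set_option autoImplicit false

open CategoryTheory AlgebraicGeometry Polynomial

namespace FTQ.Brg

open Pool.Agent.Lib_helper55.Beil (Var)
open Pool.Agent.FMQ (FreeCl)
open LFQ (Zp)

universe v

variable {k : Type} [Field k]

theorem bun_of {Y X : Var k} {q : UQ.Mo Y X} (hq : q.Bun) : (nu q).Bun := by
  intro x
  obtain ⟨W, V, L, l, j, h1, h2, h3, h4, v, hv⟩ := hq x
  exact ⟨W, V, nu L, nu l, nu j, h1, h2, h3, h4, v, hv⟩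

theorem bun_to {Y X : Var k} {q : FTQ.Mo Y X} (hq : q.Bun) : (un q).Bun := by
  intro x
  obtain ⟨W, V, L, l, j, h1, h2, h3, h4, v, hv⟩ := hq x
  exact ⟨W, V, un L, un l, un j, h1, h2, h3, h4, v, hv⟩

/-- Descent along double covers. -/
theorem cover (B : Var k → Prop) (A : Type) [CommRing A] [Algebra k A] [Algebra.FiniteType k A]
    (b c : A) (h : FTQ.Bld B (FTQ.sdbl k A b c)) : FTQ.Bld B (FTQ.sp k A) := by
  have : Algebra.FiniteType k (AdjoinRoot (FTQ.dp b c)) := FTQ.ft_dp k b c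
  have : Module.Finite A (AdjoinRoot (FTQ.dp b c)) := (FTQ.dp_monic b c).finite_adjoinRoot
  have : Module.Free A (AdjoinRoot (FTQ.dp b c)) := (FTQ.dp_monic b c).free_adjoinRoot
  rcases subsingleton_or_nontrivial A with hA | hA
  · exact .empty _ (inferInstance : IsEmpty (PrimeSpectrum A))
  · exact .free A (AdjoinRoot (FTQ.dp b c)) (by rw [finrank_dp]; exact two_pos) h

theorem cone_eq (A : Type) [CommRing A] [Algebra k A] [Algebra.FiniteType k A] {n : ℕ}
    (a : Fin n → A) : FTQ.cone k A a = UQ.cone k A a := rfl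

/-- The class has the closure properties. -/
theorem clo (B : Var k → Prop) : LFQ.Clo (FTQ.Bld B) where
  iso := fun {X Y} s h => .iso (nu (UQ.ofIso s)) (inferInstance : IsIso s.e.hom) h
  empty := fun X h => .empty X h
  paste := fun {Z U X} a j hc hZ hU =>
    .paste (nu (UQ.ofCl a)) (nu (UQ.ofOp j)) (UQ.comp_of hc) hZ hU
  cut := fun {Z U X} a j hc hX hZ => .cut (nu (UQ.ofCl a)) (nu (UQ.ofOp j)) (UQ.comp_of hc) hX hZ
  third := fun {Z U X} a j hc hX hU =>
    .third (nu (UQ.ofCl a)) (nu (UQ.ofOp j)) (UQ.comp_of hc) hX hU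
  line := fun A _ _ _ h => .line A h
  unline := fun {Y X} L h => .unline (nu (UQ.ofLine L)) (UQ.line_ofLine L) h
  cover := fun A _ _ _ b c h => cover B A b c h
  etale := fun {V U} f hint h => .etale (nu (UQ.ofEt f)) (UQ.et_ofEt f) hint h
  bundle := fun {Y X U} C s j hs hc h =>
    .bundle (nu (UQ.ofBun C)) (nu (UQ.ofCl s)) (nu (UQ.ofOp j)) (bun_of (UQ.bun_ofBun C)) hs
      (UQ.comp_of hc) h
  odd := by
    intro A _ _ _ m a ha h
    have h1 : FTQ.Bld B (FTQ.cone k A a) := .odd A m a ha h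
    rw [cone_eq, UQ.cone_eq] at h1
    exact h1
  even := by
    intro h2 A _ _ _ m a ha h
    have h1 : FTQ.Bld B (FTQ.cone k A a) := .even A m a h2 ha h
    rw [cone_eq, UQ.cone_eq] at h1
    exact h1
  zeros := by
    intro A _ _ _ m f h
    obtain ⟨s⟩ := UQ.sas_iso (k := k) f
    exact .zeros A m f (.iso (nu (UQ.ofIso s)) (inferInstance : IsIso s.e.hom) h)

theorem free (B : Var k → Prop) : FreeCl (FTQ.Bld B) :=
  fun A C _ _ _ _ _ _ _ _ _ _ h0 h => .free A C h0 h

/-- A property with the closure properties holds for the class. -/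
theorem closed {P : Var k → Prop} (hP : LFQ.Clo P) (hF : FreeCl P) {B : Var k → Prop}
    (hB : ∀ X, B X → P X) {X : Var k} (h : FTQ.Bld B X) : P X := by
  induction h with
  | base X hX => exact hB X hX
  | empty X hX => exact hP.empty X hX
  | iso f hf _ ih =>
    obtain ⟨s⟩ := UQ.viso_of (un f) hf
    exact hP.iso s ih
  | paste a j hc _ _ ihZ ihU =>
    exact hP.paste (UQ.toCl (un a) hc.1) (UQ.toOp (un j) hc.2.1)
      (UQ.comp_to (a := un a) (j := un j) hc) ihZ ihU
  | cut a j hc _ _ ihX ihZ =>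
    exact hP.cut (UQ.toCl (un a) hc.1) (UQ.toOp (un j) hc.2.1)
      (UQ.comp_to (a := un a) (j := un j) hc) ihX ihZ
  | third a j hc _ _ ihX ihU =>
    exact hP.third (UQ.toCl (un a) hc.1) (UQ.toOp (un j) hc.2.1)
      (UQ.comp_to (a := un a) (j := un j) hc) ihX ihU
  | line A _ ih => exact hP.line A ih
  | unline q hq _ ih =>
    obtain ⟨L, -⟩ := UQ.line_exists (un q) hq
    exact hP.unline L ih
  | free A C h0 _ ih => exact hF A C h0 ih
  | etale f hf hint _ ih => exact hP.etale (UQ.toEt (un f) hf) hint ih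
  | bundle q s j hq hs hc _ ih =>
    obtain ⟨L, hL⟩ := UQ.bun_exists (un q) (bun_to hq)
    refine hP.bundle L (UQ.toCl (un s) hc.1) (UQ.toOp (un j) hc.2.1) ?_
      (UQ.comp_to (a := un s) (j := un j) hc) ih
    rw [hL]
    exact hs
  | odd A m a ha _ ih =>
    rw [cone_eq, UQ.cone_eq]
    exact hP.odd A m a ha ih
  | even A m a h2 ha _ ih =>
    rw [cone_eq, UQ.cone_eq]
    exact hP.even h2 A m a ha ih
  | zeros A m f _ ih =>
    obtain ⟨s⟩ := UQ.sas_iso (k := k) f
    exact hP.zeros A m f (hP.iso ⟨s.e.symm, by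
      rw [← s.comm]
      exact s.e.inv_hom_id_assoc _⟩ ih)

end FTQ.Brg
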