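import Pool.Agent.FMQ.Brg2
import Pool.Agent.FMQ.Asm

/-!
# FMQ: the results in the language of the final statement
-/

set_option autoImplicit false

open CategoryTheory AlgebraicGeometry Polynomial

namespace FTQ.Brg

open Pool.Agent.Lib_helper55.Beil (Var)
open Pool.Agent (FMQ.FreeCl)
open LFQ (Zp)

universe v

/-- The point is isomorphic to the variety without equations in `𝔸 ^ 0`. -/
theorem bij {k : Type} [Field k] (f : Fin 0 → MvPolynomial (Fin (0 + 0)) k) : Function.Bijective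
    (algebraMap k (MvPolynomial (Fin (0 + 0)) k ⧸ Ideal.span (Set.range f))) := by
  have hemp : IsEmpty (Fin (0 + 0)) := inferInstanceAs (IsEmpty (Fin 0))
  have hI : Ideal.span (Set.range f) = ⊥ := by
    rw [Set.range_eq_empty f, Ideal.span_empty]
  have hnt : Nontrivial (MvPolynomial (Fin (0 + 0)) k ⧸ Ideal.span (Set.range f)) := by
    rw [Ideal.Quotient.nontrivial_iff, hI]
    exact bot_ne_top
  refine ⟨(algebraMap k _).injective, fun y => ?_⟩
  obtain ⟨p, rfl⟩ := Ideal.Quotient.mk_surjective y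
  obtain ⟨c, rfl⟩ := MvPolynomial.C_surjective (Fin (0 + 0)) p
  exact ⟨c, rfl⟩

theorem pnt (k : Type) [Field k] (N m : ℕ) : FTQ.Bld (FTQ.Fermat N m) (FTQ.sp k k) := by
  have hbase : FTQ.Bld (FTQ.Fermat N m)
      (FTQ.szer k k (FTQ.ferm N (fun _ : Fin 0 => (0 : k)) fun _ => 0)) := by
    refine .base _ ⟨0, fun _ => 0, fun _ => 0, ?_, rfl⟩
    rw [Nat.card_of_isEmpty]
    exact Nat.zero_le m
  let f : FTQ.Mo (FTQ.szer k k (FTQ.ferm N (fun _ : Fin 0 => (0 : k)) fun _ => 0))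
      (FTQ.sp k k) :=
    { g := Spec.map (CommRingCat.ofHom (algebraMap k _))
      comm := by
        change Spec.map _ ≫ Spec.map _ = Spec.map _
        rw [← Spec.map_comp, ← CommRingCat.ofHom_comp] }
  refine .iso f ?_ hbase
  have h : IsIso (CommRingCat.ofHom (algebraMap k (MvPolynomial (Fin (0 + 0)) k ⧸
      Ideal.span (Set.range (FTQ.ferm N (fun _ : Fin 0 => (0 : k)) fun _ => 0))))) :=
    (ConcreteCategory.isIso_iff_bijective _).2 (bij _)
  change IsIso (Spec.map (CommRingCat.ofHom (algebraMap k (MvPolynomial (Fin (0 + 0)) k ⧸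
      Ideal.span (Set.range (FTQ.ferm N (fun _ : Fin 0 => (0 : k)) fun _ => 0))))))
  infer_instance

/-- The families. -/
theorem families (k : Type) [Field k] : FTQ.Families k where
  point := fun B hB => .base _ (hB _ (Pool.Agent.FMQ.s_CUR k).1)
  fermat := fun N m => pnt k N m
  proj := fun B A _ _ _ n ι f hf hA h X hX =>
    Pool.Agent.FMQ.t_PRR k (FTQ.Bld B) (clo B) A n ι f hf hA h X hX
  curves := (Pool.Agent.FMQ.s_CUR k).2
  few := fun m n ι f hf => Pool.Agent.FMO.t_FEW k m n ι f hf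
  mono := fun m n p hp => Pool.Agent.FMO.t_MNO k m n p hp
  eqs := fun m hm n ι f hf => (Pool.Agent.FMQ.s_EQS k _ (clo (FTQ.Res (FTQ.Comp k m)))).1 m hm
    (fun X h => .base X h) n ι f hf
  mix := fun h2 m hm n r ι f a e c hf ha hc he =>
    Pool.Agent.FMQ.s_MIX k h2 _ (clo (FTQ.Res (FTQ.Comp k m))) m hm
      (fun X h => .base X h) n r ι f a e c hf ha hc (fun j => by
        rcases he j with h | h <;> omega)
  dels := fun N hN m n r f hf hm =>
    Pool.Agent.FMQ.s_DEL k _ (clo (FTQ.Fermat N m)) (free _) N m hN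
      (fun X h => .base X h) n r f ⟨hf.ind, hf.exp⟩ hm
  quad := fun h2 Φ hΦ A _ _ _ n f hf hq =>
    Pool.Agent.FMQ.s_QUF k h2 _ (clo (FTQ.Res Φ)) Φ.P hΦ
      (fun X h => .base X h) A n f hf hq
  act := fun Φ hΦ n r w ι f hf => (Pool.Agent.FMQ.s_EQS k _ (clo (FTQ.Res Φ))).2 Φ.P hΦ
    (fun X h => .base X h) n r w ι f hf

theorem resol {k : Type} [Field k] (h : FTQ.Resol k) : Pool.Agent.FMQ.Resol k := by
  intro U hU
  obtain ⟨U', Y, a, b, h1, h2, h3, h4⟩ := h U hU
  exact ⟨U', Y, un a, un b, h1, h2, h3, h4⟩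

/-- The results for homology theories. -/
theorem built {k Λ : Type} [Field k] [Finite k] [CommRing Λ] [IsNoetherianRing Λ]
    (T : FTQ.BM.{v} k Λ) (h2 : IsUnit (2 : Λ)) (hT : T.Pub) : FTQ.Built T := by
  have hC : LFQ.Clo (th T).FG := LFQ.fgClo (pub hT) h2
  have hF : Pool.Agent.FMQ.FreeCl (th T).FG := Pool.Agent.FMQ.t_FRE k Λ (th T) (pub hT) (freeT hT)
  have small : ∀ Φ : FTQ.FP k, FTQ.Inv Φ → FTQ.Resol k → FTQ.SurfFG T Φ →
      ∀ X, FTQ.Res (FTQ.Sm Φ) X → T.FG X := fun Φ hΦ hR hS =>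
    Pool.Agent.FMQ.s_BSF k (th T).FG hC (fun X hX => (pub hT).fin.curves X hX) Φ.P hΦ (resol hR) hS
  exact
    { bld := fun B hB X hX => closed hC hF hB hX
      one := fun X hX => closed hC hF (fun X hX => (pub hT).fin.curves X fun x => by
        have h := @Pool.Agent.FMO.t_CTR k (X.X.residueField x) _ _ (X.toResidue x).toAlgebra 1 (hX x)
        exact h) hX
      small := fun Φ hΦ hR hS X hX => closed hC hF (small Φ hΦ hR hS) hX
      two := fun hR hS X hX => closed hC hF (fun X hX =>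
        small (FTQ.Comp k 2) (Pool.Agent.FMQ.s_SMC k).2.1 hR hS X
          ((Pool.Agent.FMQ.s_SMC k).2.2.2.2 X hX)) hX }

/-- The results for smooth projective varieties. -/
theorem lbuilt {k : Type} [Field k] [Finite k] {ℓ : Nat.Primes} {T : FTQ.BM.{v} k (Zp ℓ)}
    (F : FTQ.Fam k ℓ T) (hℓ : (ℓ : ℕ) ≠ 2) (hp : ¬ CharP k ℓ) (hT : T.Pub) : FTQ.LBuilt F := by
  have hB := built T (LFQ.isUnit_two hℓ) hT
  have link : ∀ (Y : Var k) (d : ℕ) (hY : FTQ.SPj Y d), T.FG Y ↔ F.L hY := fun Y d hY =>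
    LFQ.link (fam F) (pub hT) hp hY
  exact
    { link := link
      bld := fun B hBB Y d hY hYB => (link Y d hY).1 (hB.bld B hBB Y hYB)
      two := fun hR hS Y d hY hYB => (link Y d hY).1
        (hB.two hR (fun Y' hY' hYs hYc => (link Y' 2 hYs).2 (hS Y' hY' hYs hYc)) Y hYB) }

end FTQ.Brg
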