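import Pool.Agent.FMQ.St

/-!
# FMQ, module CLB: the class has the closure properties
-/

set_option autoImplicit false

open CategoryTheory AlgebraicGeometry Polynomial

namespace Pool.Agent.FMQ

open Pool.Agent.Lib_helper55.Beil (Var)

theorem t_CLB : S_CLB := by
  intro k _ B
  exact
    { iso := fun {X Y} s h => .iso (UQ.ofIso s) (inferInstance : IsIso s.e.hom) h
      empty := fun X h => .empty X h
      paste := fun {Z U X} a j hc hZ hU => .paste (UQ.ofCl a) (UQ.ofOp j) (UQ.comp_of hc) hZ hU
      cut := fun {Z U X} a j hc hX hZ => .cut (UQ.ofCl a) (UQ.ofOp j) (UQ.comp_of hc) hX hZ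
      third := fun {Z U X} a j hc hX hU => .third (UQ.ofCl a) (UQ.ofOp j) (UQ.comp_of hc) hX hU
      line := fun A _ _ _ h => .line A h
      unline := fun {Y X} L h => .unline (UQ.ofLine L) (UQ.line_ofLine L) h
      cover := fun A _ _ _ b c h => .cover A b c h
      etale := fun {V U} f hint h => .etale (UQ.ofEt f) (UQ.et_ofEt f) hint h
      bundle := fun {Y X U} C s j hs hc h =>
        .bundle (UQ.ofBun C) (UQ.ofCl s) (UQ.ofOp j) (UQ.bun_ofBun C) hs (UQ.comp_of hc) h
      odd := by
        intro A _ _ _ m a ha h
        have h1 : Bld B (UQ.cone k A a) := .odd A m a ha h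
        rw [UQ.cone_eq] at h1
        exact h1
      even := by
        intro h2 A _ _ _ m a ha h
        have h1 : Bld B (UQ.cone k A a) := .even A m a h2 ha h
        rw [UQ.cone_eq] at h1
        exact h1
      zeros := by
        intro A _ _ _ m f h
        obtain ⟨s⟩ := UQ.sas_iso (k := k) f
        exact .zeros A m f (.iso (UQ.ofIso s) (inferInstance : IsIso s.e.hom) h) }

end Pool.Agent.FMQ
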