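import Pool.Agent.FMQ.St

/-!
# Few monomials and quadratic equations, module CLO (helper7): the class
-/

set_option autoImplicit false

open CategoryTheory AlgebraicGeometry Polynomial

namespace Pool.Agent.FMQ

open Pool.Agent.Lib_helper55.Beil (Var)
open UQ (Pt Mo di gp im IDim DimLE sp spol sdbl sdia sas squo szer cone PSub Units)
open FMO (At Sm Comp CompX Hom Act Add Few Univ Kp Inv)
open LFQ (BM SPj Fam Zp)

universe v

theorem t_CLO : S_CLO := by
  intro k _ P hP hF B hB X h
  induction h with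
  | base X hX => exact hB X hX
  | empty X hX => exact hP.empty X hX
  | iso f hf _ ih =>
    obtain ⟨s⟩ := UQ.viso_of f hf
    exact hP.iso s ih
  | paste a j hc _ _ ihZ ihU =>
    exact hP.paste (UQ.toCl a hc.1) (UQ.toOp j hc.2.1) (UQ.comp_to hc) ihZ ihU
  | cut a j hc _ _ ihX ihZ =>
    exact hP.cut (UQ.toCl a hc.1) (UQ.toOp j hc.2.1) (UQ.comp_to hc) ihX ihZ
  | third a j hc _ _ ihX ihU =>
    exact hP.third (UQ.toCl a hc.1) (UQ.toOp j hc.2.1) (UQ.comp_to hc) ihX ihU
  | line A _ ih => exact hP.line A ih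
  | unline q hq _ ih =>
    obtain ⟨L, -⟩ := UQ.line_exists q hq
    exact hP.unline L ih
  | cover A b c _ ih => exact hP.cover A b c ih
  | free A C h0 _ ih => exact hF A C h0 ih
  | etale f hf hint _ ih => exact hP.etale (UQ.toEt f hf) hint ih
  | bundle q s j hq hs hc _ ih =>
    obtain ⟨L, hL⟩ := UQ.bun_exists q hq
    refine hP.bundle L (UQ.toCl s hc.1) (UQ.toOp j hc.2.1) ?_ (UQ.comp_to hc) ih
    rw [hL]
    exact hs
  | odd A m a ha _ ih =>
    rw [UQ.cone_eq]
    exact hP.odd A m a ha ih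
  | even A m a h2 ha _ ih =>
    rw [UQ.cone_eq]
    exact hP.even h2 A m a ha ih
  | zeros A m f _ ih =>
    obtain ⟨s⟩ := UQ.sas_iso (k := k) f
    exact hP.zeros A m f (hP.iso ⟨s.e.symm, by
      rw [← s.comm]
      exact s.e.inv_hom_id_assoc _⟩ ih)

end Pool.Agent.FMQ
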