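import Pool.Agent.FMQ.St2

/-!
# FMQ: assembly of the families
-/

set_option autoImplicit false

open CategoryTheory AlgebraicGeometry Polynomial

namespace Pool.Agent.FMQ

open Pool.Agent.Lib_helper55.Beil (Var)
open UQ (DimLE)
open FMO (CompX)

/-- **FAM**. -/
theorem t_FAM : M_FAM := by
  intro hCLB hPRR hCUR hPNT hMIX hDEL hQUF hEQS k _
  have hfree : ∀ B : Var k → Prop, FreeCl (Bld B) := fun B A C _ _ _ _ _ _ _ _ _ _ h0 h =>
    Bld.free A C h0 h
  exact
    { member := fun d B hB X hX => (hCLB k B).member (d := d)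
        (fun X h => Bld.base X (hB X h)) X (UQ.member_to hX)
      point := fun B hB => Bld.base _ (hB _ (hCUR k).1)
      fermat := fun N m => hPNT k N m
      proj := fun B A _ _ _ n ι f hf hA h X hX => hPRR k (Bld B) (hCLB k B) A n ι f hf hA h X hX
      curves := (hCUR k).2
      few := FMO.t_FEW k
      mono := FMO.t_MNO k
      eqs := fun m hm n ι f hf => (hEQS k (Bld (CompX m)) (hCLB k _)).1 m hm
        (fun X h => Bld.base X h) n ι f hf
      mix := fun h2 m hm n r ι f a e c hf ha hc he => hMIX k h2 (Bld (CompX m)) (hCLB k _) m hm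
        (fun X h => Bld.base X h) n r ι f a e c hf ha hc he
      dels := fun N hN m n r f hf hm => hDEL k (Bld (Fermat N m)) (hCLB k _) (hfree _) N m hN
        (fun X h => Bld.base X h) n r f hf hm
      quad := fun h2 Φ hΦ A _ _ _ n f hf hq => hQUF k h2 (Bld (Res Φ)) (hCLB k _) Φ hΦ
        (fun X h => Bld.base X h) A n f hf hq
      act := fun Φ hΦ n r w ι f hf => (hEQS k (Bld (Res Φ)) (hCLB k _)).2 Φ hΦ
        (fun X h => Bld.base X h) n r w ι f hf }

end Pool.Agent.FMQ
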