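import Pool.Agent.FMQ.St

/-!
# FMQ: the results for homology theories
-/

set_option autoImplicit false

open CategoryTheory AlgebraicGeometry Polynomial

namespace Pool.Agent.FMQ

open Pool.Agent.Lib_helper55.Beil (Var)
open UQ (DimLE gp)
open FMO (CompX Comp Sm At)
open LFQ (BM SPj Fam Zp)

universe v

/-- **FNL**. -/
theorem t_FNL : M_FNL.{v} := by
  intro hCLO hFRE hBSF hSMC
  have built : ∀ (k Λ : Type) [Field k] [Finite k] [CommRing Λ] [IsNoetherianRing Λ]
      (T : BM.{v} k Λ), IsUnit (2 : Λ) → T.Pub → FreeT T → Built T := by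
    intro k Λ _ _ _ _ T h2 hT hf
    have hC := LFQ.fgClo hT h2
    have hF := hFRE k Λ T hT hf
    have small : ∀ Φ : ∀ (F : Type) [Field F] [Algebra k F], Prop, FMO.Inv k Φ → Resol k →
        SurfFG T Φ → ∀ X, Res (Sm Φ) X → T.FG X := fun Φ hΦ hR hS =>
      hBSF k T.FG hC (fun X hX => hT.fin.curves X hX) Φ hΦ hR hS
    exact
      { bld := fun B hB => hCLO k T.FG hC hF B hB
        small := fun Φ hΦ hR hS => hCLO k T.FG hC hF _ (small Φ hΦ hR hS)
        two := fun hR hS => hCLO k T.FG hC hF _ fun X hX =>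
          small _ (hSMC k).2.1 hR hS X ((hSMC k).2.2.2.2 X hX) }
  refine ⟨built, ?_⟩
  intro k _ _ ℓ T F hℓ hp hT hf
  have h2 := LFQ.isUnit_two hℓ
  have hB := built k (Zp ℓ) T h2 hT hf
  refine ⟨fun B hBB Y d hY hYB => (LFQ.link F hT hp hY).1 (hB.bld B hBB Y hYB), ?_⟩
  intro hR hS
  have h := hB.two hR fun Y hY hYs hYc => (LFQ.link F hT hp hYs).2 (hS Y hY hYs hYc)
  exact ⟨h, fun Y d hY hYB => (LFQ.link F hT hp hY).1 (h Y hYB)⟩

end Pool.Agent.FMQ
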