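import Pool.Agent.FMQ.St2

/-!
# FMQ_GUT: a stratum as a universal algebra for characters (MP_cb388a_ag)
-/

set_option autoImplicit false

open Polynomial Multiplicative
open scoped Classical

namespace Pool.Agent.FMQ

open FMO (Univ)

namespace GUTAux

theorem hom_eq {V : Type} [Fintype V] [DecidableEq V] {A : Type} [CommGroup A]
    (ψ : Multiplicative (V → ℤ) →* A) (a : V → ℤ) :
    ψ (ofAdd a) = ∏ v, ψ (ofAdd (Pi.single v 1)) ^ a v := by
  have h : a = ∑ v, a v • (Pi.single v (1 : ℤ) : V → ℤ) := by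
    funext w
    rw [Finset.sum_apply, Finset.sum_eq_single w]
    · simp
    · intro v _ hv
      rw [Pi.smul_apply, Pi.single_eq_of_ne (Ne.symm hv), smul_zero]
    · intro h
      exact absurd (Finset.mem_univ w) h
  have h2 : ofAdd a = ∏ v, (ofAdd (Pi.single v (1 : ℤ) : V → ℤ)) ^ a v := by
    conv_lhs => rw [h]
    rw [ofAdd_sum]
    exact Finset.prod_congr rfl fun v _ => ofAdd_zsmul _ _
  rw [h2, map_prod]
  exact Finset.prod_congr rfl fun v _ => map_zpow _ _ _

/-- the character with given values -/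
noncomputable def mk {V : Type} [Fintype V] {A : Type} [CommGroup A] (x : V → A) :
    Multiplicative (V → ℤ) →* A where
  toFun a := ∏ v, x v ^ (toAdd a v)
  map_one' := by simp
  map_mul' a b := by
    rw [← Finset.prod_mul_distrib]
    refine Finset.prod_congr rfl fun v _ => ?_
    rw [toAdd_mul, Pi.add_apply, zpow_add]

theorem mk_single {V : Type} [Fintype V] [DecidableEq V] {A : Type} [CommGroup A] (x : V → A)
    (v : V) :
    mk x (ofAdd (Pi.single v 1)) = x v := by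
  change ∏ w, x w ^ ((Pi.single v (1 : ℤ) : V → ℤ) w) = x v
  rw [Finset.prod_eq_single v]
  · rw [Pi.single_eq_same, zpow_one]
  · intro w _ hw
    rw [Pi.single_eq_of_ne hw, zpow_zero]
  · intro h
    exact absurd (Finset.mem_univ v) h

section

variable {k : Type} [Field k] {n : ℕ} (U : Set (Fin n)) {D : Type} [CommRing D] [Algebra k D]

/-- the point of a character -/
noncomputable def pf (ψ : Multiplicative (U → ℤ) →* Dˣ) : Fin n → D := fun v =>
  if h : v ∈ U then (ψ (ofAdd (Pi.single (⟨v, h⟩ : U) 1)) : D) else 0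

/-- the surviving monomials -/
noncomputable def sv (p : MvPolynomial (Fin n) k) : Finset (Fin n →₀ ℕ) :=
  p.support.filter fun α => ∀ v, v ∉ U → α v = 0

theorem mem_sv (p : MvPolynomial (Fin n) k) (α : Fin n →₀ ℕ) :
    α ∈ sv U p ↔ α ∈ p.support ∧ ∀ v, v ∉ U → α v = 0 := by
  rw [sv, Finset.mem_filter]

theorem ev (ψ : Multiplicative (U → ℤ) →* Dˣ) (p : MvPolynomial (Fin n) k) :
    MvPolynomial.aeval (pf U ψ) p = ∑ α ∈ sv U p, p.coeff α • (ψ (ofAdd (rs U α)) : D) := by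
  rw [MvPolynomial.aeval_def, MvPolynomial.eval₂_eq', sv, Finset.sum_filter]
  refine Finset.sum_congr rfl fun α _ => ?_
  split_ifs with hα
  · rw [Algebra.smul_def]
    congr 1
    rw [hom_eq, Units.coe_prod]
    have h1 : ∀ v : U, ((ψ (ofAdd (Pi.single v 1)) ^ rs U α v : Dˣ) : D) =
        pf U ψ v ^ α v := by
      intro v
      have h2 : pf U ψ v = (ψ (ofAdd (Pi.single v 1)) : D) := by
        unfold pf
        rw [dif_pos v.2]
      rw [h2]
      unfold rs
      rw [zpow_natCast, Units.val_pow_eq_pow_val]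
    rw [Finset.prod_congr rfl fun v _ => h1 v,
      Finset.prod_set_coe (s := U) (f := fun v : Fin n => pf U ψ v ^ α v)]
    symm
    refine Finset.prod_subset (Finset.subset_univ _) fun v _ hv => ?_
    rw [Set.mem_toFinset] at hv
    rw [hα v hv, pow_zero]
  · push Not at hα
    obtain ⟨v, hv, hv'⟩ := hα
    have h3 : pf U ψ v ^ α v = 0 := by
      have h4 : pf U ψ v = 0 := by
        unfold pf
        rw [dif_neg hv]
      rw [h4, zero_pow hv']
    rw [Finset.prod_eq_zero (Finset.mem_univ v) h3, mul_zero]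

theorem unit_smul (c : k) (hc : c ≠ 0) (u : Dˣ) : IsUnit (c • (u : D)) := by
  rw [Algebra.smul_def]
  exact ((isUnit_iff_ne_zero.2 hc).map (algebraMap k D)).mul u.isUnit

theorem shift (ψ : Multiplicative (U → ℤ) →* Dˣ) (a b : U → ℤ) :
    (ψ (ofAdd b) : D) * (ψ (ofAdd (a - b)) : D) = (ψ (ofAdd a) : D) := by
  rw [← Units.val_mul, ← map_mul, ← ofAdd_add, add_sub_cancel]

theorem rel3 (ψ : Multiplicative (U → ℤ) →* Dˣ) (c0 c1 c2 : k) (a0 a1 a2 : U → ℤ)
    (h0 : c0 ≠ 0) :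
    c0 • (ψ (ofAdd a0) : D) + (c1 • (ψ (ofAdd a1) : D) + c2 • (ψ (ofAdd a2) : D)) = 0 ↔
    1 + (c1 / c0) • (ψ (ofAdd (a1 - a0)) : D) + (c2 / c0) • (ψ (ofAdd (a2 - a0)) : D) = 0 := by
  have h : c0 • (ψ (ofAdd a0) : D) + (c1 • (ψ (ofAdd a1) : D) + c2 • (ψ (ofAdd a2) : D)) =
      (c0 • (ψ (ofAdd a0) : D)) *
        (1 + (c1 / c0) • (ψ (ofAdd (a1 - a0)) : D) + (c2 / c0) • (ψ (ofAdd (a2 - a0)) : D)) := by
    rw [mul_add, mul_add, mul_one, smul_mul_smul_comm, smul_mul_smul_comm, shift, shift,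
      mul_div_cancel₀ _ h0, mul_div_cancel₀ _ h0, add_assoc]
  rw [h]
  exact (unit_smul c0 h0 _).mul_right_eq_zero

theorem rel2 (ψ : Multiplicative (U → ℤ) →* Dˣ) (c0 c1 : k) (a0 a1 : U → ℤ) (h0 : c0 ≠ 0) :
    c0 • (ψ (ofAdd a0) : D) + c1 • (ψ (ofAdd a1) : D) = 0 ↔
    1 + (c1 / c0) • (ψ (ofAdd (a1 - a0)) : D) + (0 : k) • (ψ (ofAdd (0 : U → ℤ)) : D) = 0 := by
  have h : c0 • (ψ (ofAdd a0) : D) + c1 • (ψ (ofAdd a1) : D) =
      (c0 • (ψ (ofAdd a0) : D)) *
        (1 + (c1 / c0) • (ψ (ofAdd (a1 - a0)) : D) + (0 : k) • (ψ (ofAdd (0 : U → ℤ)) : D)) := by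
    rw [zero_smul, add_zero, mul_add, mul_one, smul_mul_smul_comm, shift,
      mul_div_cancel₀ _ h0]
  rw [h]
  exact (unit_smul c0 h0 _).mul_right_eq_zero

end

end GUTAux

open GUTAux in
theorem t_GUT : S_GUT := by
  intro k _ n r f hf U Z hUZ C _ _ _ φ hφ
  have hdisj : ∀ v ∈ Z, v ∉ U := by
    intro v hZ hU
    have h1 := hφ.unit v hU
    rw [hφ.zero v hZ] at h1
    exact not_isUnit_zero h1
  -- the character of `C`
  let x : U → Cˣ := fun v => (hφ.unit v v.2).unit
  let χ : Multiplicative (U → ℤ) →* Cˣ := mk x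
  have hpf : pf U χ = φ := by
    funext v
    unfold pf
    split_ifs with h
    · have h1 : χ (ofAdd (Pi.single (⟨v, h⟩ : U) 1)) = x ⟨v, h⟩ := mk_single x _
      rw [h1]
      exact IsUnit.unit_spec _
    · exact (hφ.zero v ((hUZ v).resolve_left h)).symm
  -- surviving monomials
  have hcard : ∀ j, (sv U (f j)).card ≤ 3 := fun j =>
    (Finset.card_le_card (Finset.filter_subset _ _)).trans (hf j)
  have hcoef : ∀ j, ∀ α ∈ sv U (f j), (f j).coeff α ≠ 0 := fun j α hα =>
    MvPolynomial.mem_support_iff.1 (Finset.mem_filter.1 hα).1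
  have hne1 : ∀ j, (sv U (f j)).card ≠ 1 := by
    intro j h1
    obtain ⟨α, hα⟩ := Finset.card_eq_one.1 h1
    have h2 := hφ.sat j
    rw [← hpf, ev, hα, Finset.sum_singleton] at h2
    have h3 := unit_smul (D := C) ((f j).coeff α) (hcoef j α (by rw [hα]; simp))
      (χ (ofAdd (rs U α)))
    rw [h2] at h3
    exact not_isUnit_zero h3
  let I₃ : Finset (Fin r) := Finset.univ.filter fun j => (sv U (f j)).card = 3
  let I₂ : Finset (Fin r) := Finset.univ.filter fun j => (sv U (f j)).card = 2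
  let j₃ : Fin I₃.card → Fin r := fun i => (I₃.equivFin.symm i : Fin r)
  let j₂ : Fin I₂.card → Fin r := fun i => (I₂.equivFin.symm i : Fin r)
  have hj₃ : ∀ i, (sv U (f (j₃ i))).card = 3 := fun i =>
    (Finset.mem_filter.1 (I₃.equivFin.symm i).2).2
  have hj₂ : ∀ i, (sv U (f (j₂ i))).card = 2 := fun i =>
    (Finset.mem_filter.1 (I₂.equivFin.symm i).2).2
  have hs₃ : ∀ j, (sv U (f j)).card = 3 → ∃ i, j₃ i = j := by
    intro j hj
    have h1 : j ∈ I₃ := Finset.mem_filter.2 ⟨Finset.mem_univ _, hj⟩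
    exact ⟨I₃.equivFin ⟨j, h1⟩, by
      change ((I₃.equivFin.symm (I₃.equivFin ⟨j, h1⟩) : I₃) : Fin r) = j
      rw [Equiv.symm_apply_apply]⟩
  have hs₂ : ∀ j, (sv U (f j)).card = 2 → ∃ i, j₂ i = j := by
    intro j hj
    have h1 : j ∈ I₂ := Finset.mem_filter.2 ⟨Finset.mem_univ _, hj⟩
    exact ⟨I₂.equivFin ⟨j, h1⟩, by
      change ((I₂.equivFin.symm (I₂.equivFin ⟨j, h1⟩) : I₂) : Fin r) = j
      rw [Equiv.symm_apply_apply]⟩
  choose α₀ α₁ α₂ h01 h02 h12 hα using fun i => Finset.card_eq_three.1 (hj₃ i)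
  choose β₀ β₁ g01 hβ using fun i => Finset.card_eq_two.1 (hj₂ i)
  have hc₃ : ∀ i, (f (j₃ i)).coeff (α₀ i) ≠ 0 := fun i => hcoef _ _ (by rw [hα]; simp)
  have hc₂ : ∀ i, (f (j₂ i)).coeff (β₀ i) ≠ 0 := fun i => hcoef _ _ (by rw [hβ]; simp)
  -- the evaluation of the equations
  have e₃ : ∀ (D : Type) [CommRing D] [Algebra k D] (ψ : Multiplicative (U → ℤ) →* Dˣ) (i),
      MvPolynomial.aeval (pf U ψ) (f (j₃ i)) = 0 ↔
      1 + ((f (j₃ i)).coeff (α₁ i) / (f (j₃ i)).coeff (α₀ i)) •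
          (ψ (ofAdd (rs U (α₁ i) - rs U (α₀ i))) : D) +
        ((f (j₃ i)).coeff (α₂ i) / (f (j₃ i)).coeff (α₀ i)) •
          (ψ (ofAdd (rs U (α₂ i) - rs U (α₀ i))) : D) = 0 := by
    intro D _ _ ψ i
    rw [ev, hα, Finset.sum_insert (by simp [h01 i, h02 i]), Finset.sum_insert (by simp [h12 i]),
      Finset.sum_singleton]
    exact rel3 U ψ _ _ _ _ _ _ (hc₃ i)
  have e₂ : ∀ (D : Type) [CommRing D] [Algebra k D] (ψ : Multiplicative (U → ℤ) →* Dˣ) (i),
      MvPolynomial.aeval (pf U ψ) (f (j₂ i)) = 0 ↔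
      1 + ((f (j₂ i)).coeff (β₁ i) / (f (j₂ i)).coeff (β₀ i)) •
          (ψ (ofAdd (rs U (β₁ i) - rs U (β₀ i))) : D) +
        (0 : k) • (ψ (ofAdd (0 : U → ℤ)) : D) = 0 := by
    intro D _ _ ψ i
    rw [ev, hβ, Finset.sum_insert (by simp [g01 i]), Finset.sum_singleton]
    exact rel2 U ψ _ _ _ _ (hc₂ i)
  refine ⟨I₃.card, I₂.card, j₃, j₂, α₀, α₁, α₂, β₀, β₁,
    fun i => (f (j₃ i)).coeff (α₁ i) / (f (j₃ i)).coeff (α₀ i),
    fun i => (f (j₃ i)).coeff (α₂ i) / (f (j₃ i)).coeff (α₀ i),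
    fun i => (f (j₂ i)).coeff (β₁ i) / (f (j₂ i)).coeff (β₀ i), χ, ?_, ?_⟩
  · refine ⟨?_, ?_, ?_, ?_, fun i => ⟨h01 i, h02 i, h12 i⟩, ?_, g01⟩
    · exact Subtype.val_injective.comp I₃.equivFin.symm.injective
    · exact Subtype.val_injective.comp I₂.equivFin.symm.injective
    · intro i l h
      have h1 := hj₃ i
      rw [h, hj₂ l] at h1
      omega
    · intro i α
      rw [← mem_sv, hα]
      simp
    · intro i α
      rw [← mem_sv, hβ]
      simp
  · refine ⟨?_, ?_, ?_⟩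
    · intro j
      rcases j with i | i
      · have h1 := (e₃ C χ i).1 (by rw [hpf]; exact hφ.sat _)
        exact h1
      · have h1 := (e₂ C χ i).1 (by rw [hpf]; exact hφ.sat _)
        exact h1
    · intro D _ _ ψ hψ
      have hsat : ∀ j, MvPolynomial.aeval (pf U ψ) (f j) = 0 := by
        intro j
        have h3 := hcard j
        have h1 := hne1 j
        have h4 : (sv U (f j)).card = 0 ∨ (sv U (f j)).card = 2 ∨ (sv U (f j)).card = 3 := by
          omega
        rcases h4 with h4 | h4 | h4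
        · rw [ev, Finset.card_eq_zero.1 h4, Finset.sum_empty]
        · obtain ⟨i, rfl⟩ := hs₂ j h4
          exact (e₂ D ψ i).2 (hψ (Sum.inr i))
        · obtain ⟨i, rfl⟩ := hs₃ j h4
          exact (e₃ D ψ i).2 (hψ (Sum.inl i))
      obtain ⟨g, hg⟩ := hφ.lift D (pf U ψ) hsat
        (fun v hv => by
          unfold pf
          rw [dif_pos hv]
          exact Units.isUnit _)
        (fun v hv => by
          unfold pf
          rw [dif_neg (hdisj v hv)])
      refine ⟨g, fun a => ?_⟩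
      have hgen : ∀ v : U, Units.map (g : C →* D) (χ (ofAdd (Pi.single v 1))) =
          ψ (ofAdd (Pi.single v 1)) := by
        intro v
        apply Units.ext
        have h1 := hg v
        rw [← hpf] at h1
        unfold pf at h1
        rw [dif_pos v.2, dif_pos v.2] at h1
        exact h1
      have h2 : (Units.map (g : C →* D)).comp χ = ψ := by
        refine MonoidHom.ext fun b => ?_
        obtain ⟨b', rfl⟩ := ofAdd.surjective b
        rw [hom_eq, hom_eq ψ]
        exact Finset.prod_congr rfl fun v _ => by rw [MonoidHom.comp_apply, hgen]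
      exact congrArg (fun q : Multiplicative (U → ℤ) →* Dˣ => ((q a : Dˣ) : D)) h2
    · intro D _ _ g h hgh
      refine hφ.ext D g h fun v => ?_
      by_cases hv : v ∈ U
      · have h1 : φ v = (χ (ofAdd (Pi.single (⟨v, hv⟩ : U) 1)) : C) := by
          rw [← hpf]
          unfold pf
          rw [dif_pos hv]
        rw [h1]
        exact hgh _
      · rw [hφ.zero v ((hUZ v).resolve_left hv), map_zero, map_zero]

end Pool.Agent.FMQ
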