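import Pool.Agent.Lib_helper55.Beil.Defs
import Pool.Agent.LFQ.Coh

/-!
# Equations with few terms, quadratic equations and Weil-etale motivic (co)homology: definitions

Everything which the final statement uses is defined in this file, except for the varieties and the
dimension of points (`Pool/Agent/Lib_helper55/Beil/Defs.lean`) and the cohomology `Coh` of one smooth
projective variety (`Pool/Agent/LFQ/Coh.lean`).
-/

set_option autoImplicit false

open CategoryTheory AlgebraicGeometry Polynomial

namespace FTQ

open Pool.Agent.Lib_helper55.Beil (Var)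
open LFQ (Coh Zp Tors)

universe v

variable {k : Type} [Field k]

/-! ## Points and morphisms -/

/-- The points of a variety. -/
def Pt (X : Var k) : Type := X.X

/-- The variety `X` has dimension at most `n`. -/
def DimLE (X : Var k) (n : ℕ) : Prop := ∀ x : Pt X, X.dim x ≤ n

/-- The generic point of an integral variety. -/
noncomputable def gp (X : Var k) (h : IsIntegral X.X) : Pt X := genericPoint X.X

/-- The integral variety `X` has dimension `d`. -/
def IDim (X : Var k) (d : ℕ) : Prop := ∃ h : IsIntegral X.X, X.dim (gp X h) = d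

/-- A morphism of varieties. -/
structure Mo (X Y : Var k) where
  /-- the morphism of schemes -/
  g : X.X ⟶ Y.X
  comm : g ≫ Y.f = X.f

/-- The image of a point. -/
def im {X Y : Var k} (f : Mo X Y) (x : Pt X) : Pt Y := f.g x

/-- The morphism is a closed immersion. -/
def Mo.Cl {X Y : Var k} (f : Mo X Y) : Prop := IsClosedImmersion f.g

/-- The morphism is an open immersion. -/
def Mo.Op {X Y : Var k} (f : Mo X Y) : Prop := LocallyRingedSpace.IsOpenImmersion f.g.toLRSHom

/-- The morphism is proper. -/
def Mo.Pr {X Y : Var k} (f : Mo X Y) : Prop := IsProper f.g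

/-- The morphism is finite, etale and surjective. -/
def Mo.Et {X Y : Var k} (f : Mo X Y) : Prop := IsFinite f.g ∧ Etale f.g ∧ Surjective f.g

/-- The morphism `h` is the composition of `f` and `g`. -/
def Co {X Y Z : Var k} (f : Mo X Y) (g : Mo Y Z) (h : Mo X Z) : Prop := f.g ≫ g.g = h.g

/-- The morphism `f` is the identity. -/
def Mo.One {X : Var k} (f : Mo X X) : Prop := f.g = 𝟙 X.X

/-- The morphism `s` is a section of `q`. -/
def Sec {Y X : Var k} (q : Mo Y X) (s : Mo X Y) : Prop := s.g ≫ q.g = 𝟙 X.X

/-- The square is commutative. -/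
def Sq {A B C D : Var k} (a : Mo A B) (b : Mo A C) (c : Mo B D) (d : Mo C D) : Prop :=
  a.g ≫ c.g = b.g ≫ d.g

/-- The square is cartesian. -/
def Ca {A B C D : Var k} (a : Mo A B) (b : Mo A C) (c : Mo B D) (d : Mo C D) : Prop :=
  IsPullback a.g b.g c.g d.g

/-- `a` is a closed immersion, `j` is an open immersion, and their images are complementary. -/
def Compl {Z U X : Var k} (a : Mo Z X) (j : Mo U X) : Prop :=
  a.Cl ∧ j.Op ∧ ∀ x : Pt X, (∃ z, im a z = x) ↔ ¬ ∃ u, im j u = x

/-- `q` is the projection of the product of `X` and the affine line. -/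
def Mo.Line {Y X : Var k} (q : Mo Y X) : Prop :=
  ∃ t : Y.X ⟶ Spec (CommRingCat.of k[X]),
    IsPullback q.g t X.f (Spec.map (CommRingCat.ofHom (algebraMap k k[X])))

/-- `q` is, locally on `X`, the projection of the product with the affine line (for example the
projection of a line bundle). -/
def Mo.Bun {Y X : Var k} (q : Mo Y X) : Prop :=
  ∀ x : Pt X, ∃ (W V : Var k) (L : Mo W V) (l : Mo W Y) (j : Mo V X),
    L.Line ∧ l.Op ∧ j.Op ∧ Ca L l j q ∧ ∃ v, im j v = x

/-! ## Affine varieties -/

section Affine

variable (k) (A : Type) [CommRing A] [Algebra k A] [Algebra.FiniteType k A]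

/-- The spectrum of an algebra. -/
noncomputable def sp : Var k where
  X := Spec (CommRingCat.of A)
  f := Spec.map (CommRingCat.ofHom (algebraMap k A))
  sep := inferInstance
  lft := (HasRingHomProperty.Spec_iff (P := @LocallyOfFiniteType)).2
    (RingHom.finiteType_algebraMap.2 inferInstance)
  qc := inferInstance

/-- The projection `Spec C → Spec A`. -/
noncomputable def fm (C : Type) [CommRing C] [Algebra k C] [Algebra.FiniteType k C] [Algebra A C]
    [IsScalarTower k A C] : Mo (sp k C) (sp k A) where
  g := Spec.map (CommRingCat.ofHom (algebraMap A C))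
  comm := by
    change Spec.map _ ≫ Spec.map _ = Spec.map _
    rw [← Spec.map_comp, ← CommRingCat.ofHom_comp, IsScalarTower.algebraMap_eq k A C]

/-- The polynomial `t ^ 2 + b t + c`. -/
noncomputable def dp {A : Type} [CommRing A] (b c : A) : A[X] := X ^ 2 + C b * X + C c

lemma dp_monic {A : Type} [CommRing A] (b c : A) : (dp b c).Monic := by
  unfold dp
  monicity!

lemma ft_dp {A : Type} [CommRing A] [Algebra k A] [Algebra.FiniteType k A] (b c : A) :
    Algebra.FiniteType k (AdjoinRoot (dp b c)) := by
  have : Module.Finite A (AdjoinRoot (dp b c)) := (dp_monic b c).finite_adjoinRoot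
  exact Algebra.FiniteType.trans (S := A) inferInstance inferInstance

/-- The spectrum of `A[t] / (t ^ 2 + b t + c)`. -/
noncomputable def sdbl (b c : A) : Var k := @sp k _ (AdjoinRoot (dp b c)) _ _ (ft_dp k b c)

/-- The projection of the double cover. -/
noncomputable def dm (b c : A) : Mo (sdbl k A b c) (sp k A) where
  g := Spec.map (CommRingCat.ofHom (AdjoinRoot.of (dp b c)))
  comm := by
    change Spec.map _ ≫ Spec.map _ = Spec.map _
    rw [← Spec.map_comp, ← CommRingCat.ofHom_comp]
    rfl

/-- The morphism `s` is the involution `t ↦ - b - t` of the double cover. -/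
def Invo (b c : A) (s : Mo (sdbl k A b c) (sdbl k A b c)) : Prop :=
  ∃ h : AdjoinRoot (dp b c) →+* AdjoinRoot (dp b c),
    (∀ a, h (AdjoinRoot.of (dp b c) a) = AdjoinRoot.of (dp b c) a) ∧
    h (AdjoinRoot.root (dp b c)) = - AdjoinRoot.of (dp b c) b - AdjoinRoot.root (dp b c) ∧
    s.g = Spec.map (CommRingCat.ofHom h)

/-- The subvariety `f = 0` of the spectrum of `A`. -/
noncomputable def squo {ι : Type} (f : ι → A) : Var k := sp k (A ⧸ Ideal.span (Set.range f))

/-- The subvariety `f = 0` of the affine space over `A`. -/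
noncomputable def szer {n : ℕ} {ι : Type} (f : ι → MvPolynomial (Fin n) A) : Var k :=
  sp k (MvPolynomial (Fin n) A ⧸ Ideal.span (Set.range f))

/-- The variety `y ^ 2 - y = t_0 f_0 + ... + t_(m-1) f_(m-1)`. -/
noncomputable def sas {m : ℕ} (f : Fin m → A) : Var k :=
  sdbl k (MvPolynomial (Fin m) A) (-1) (-∑ j, MvPolynomial.X j * MvPolynomial.C (f j))

/-- The double cover `t ^ 2 = (-1) ^ m a_0 ... a_(n-1)`. -/
noncomputable def sdia (m : ℕ) {n : ℕ} (a : Fin n → A) : Var k :=
  sdbl k A 0 ((-1) ^ (m + 1) * ∏ j, a j)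

/-- The quadric cone `a_0 x_0 ^ 2 + ... + a_(n-1) x_(n-1) ^ 2 = 0` over `A`. -/
noncomputable def cone {n : ℕ} (a : Fin n → A) : Var k :=
  szer k A fun _ : Fin 1 => ∑ j, MvPolynomial.C (a j) * MvPolynomial.X j ^ 2

end Affine

/-- All `a j` are units. -/
def Units {A : Type} [CommRing A] {n : ℕ} (a : Fin n → A) : Prop := ∀ j, IsUnit (a j)

/-! ## Projective varieties -/

attribute [local instance] MvPolynomial.gradedAlgebra

/-- The grading of `R[x_0, ..., x_n]`. -/
noncomputable abbrev gr (R : Type) [CommRing R] (n : ℕ) :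
    ℕ → Submodule R (MvPolynomial (Fin (n + 1)) R) :=
  MvPolynomial.homogeneousSubmodule (Fin (n + 1)) R

/-- The projective space `Proj R[x_0, ..., x_n]`. -/
noncomputable abbrev PS (R : Type) [CommRing R] (n : ℕ) : Scheme.{0} := Proj (gr R n)

/-- The structure morphism of the projective space over `k`. -/
noncomputable def psf (k R : Type) [Field k] [CommRing R] [Algebra k R] (n : ℕ) :
    PS R n ⟶ Spec (CommRingCat.of k) :=
  Proj.toSpecZero (gr R n) ≫ Spec.map (CommRingCat.ofHom
    ((algebraMap R (gr R n 0)).comp (algebraMap k R)))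

/-- The homogeneous polynomials `f j` vanish at the point `p`. -/
def VanAt {R : Type} [CommRing R] {n : ℕ} {ι : Type} (f : ι → MvPolynomial (Fin (n + 1)) R)
    (p : ProjectiveSpectrum (gr R n)) : Prop := ∀ j, f j ∈ p.asHomogeneousIdeal.toIdeal

/-- `X` is a closed subvariety of the projective space over `R` which is, up to nilpotents, defined by
the homogeneous polynomials `f j`. -/
def PSub (k : Type) [Field k] {R : Type} [CommRing R] [Algebra k R] {n : ℕ} {ι : Type}
    (f : ι → MvPolynomial (Fin (n + 1)) R) (X : Var k) : Prop :=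
  ∃ g : X.X ⟶ PS R n, IsClosedImmersion g ∧ g ≫ psf k R n = X.f ∧
    ∀ p : ProjectiveSpectrum (gr R n), (∃ x : X.X, g x = p) ↔ VanAt f p

/-- `Y` is a smooth projective integral variety of dimension `d`. -/
def SPj (Y : Var k) (d : ℕ) : Prop :=
  Smooth Y.f ∧ IDim Y d ∧
    ∃ (n : ℕ) (g : Y.X ⟶ PS k n), IsClosedImmersion g ∧ g ≫ psf k k n = Y.f

/-! ## Homology theories -/

/-- Modules `H i n X` over the ring `Λ`, with their maps; the example is the Weil-etale Borel-Moore
motivic homology `H_n^W(X, ℤ(i)) ⊗ ℤ_ℓ`, that is the cohomology of the cone of `1 - F` on the etale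
Borel-Moore motivic homology of `Xbar`.  The push-forward is used for proper morphisms, the pull-back
for open immersions, finite etale and finite free coverings, the pull-back `lb` for line bundles, the
boundary map for complementary closed and open subvarieties. -/
structure BM (k : Type) [Field k] (Λ : Type) [CommRing Λ] where
  /-- the homology groups -/
  H : ℤ → ℤ → Var k → ModuleCat.{v} Λ
  /-- push-forward -/
  pf : ∀ (i n : ℤ) {X Y : Var k}, Mo X Y → (H i n X →ₗ[Λ] H i n Y)
  /-- pull-back -/
  pb : ∀ (i n : ℤ) {X Y : Var k}, Mo X Y → (H i n Y →ₗ[Λ] H i n X)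
  /-- pull-back to a line bundle -/
  lb : ∀ (i n : ℤ) {Y X : Var k}, Mo Y X → (H i n X →ₗ[Λ] H (i + 1) (n + 2) Y)
  /-- boundary map -/
  bd : ∀ (i n : ℤ) {Z U X : Var k}, Mo Z X → Mo U X → (H i (n + 1) U →ₗ[Λ] H i n Z)

section Theory

variable {Λ : Type} [CommRing Λ] (T : BM.{v} k Λ) {i n : ℤ}

/-- Push-forward. -/
def BM.P {X Y : Var k} (f : Mo X Y) (m : T.H i n X) : T.H i n Y := T.pf i n f m

/-- Pull-back. -/
def BM.R {X Y : Var k} (f : Mo X Y) (m : T.H i n Y) : T.H i n X := T.pb i n f m

/-- Pull-back to a line bundle. -/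
def BM.V {Y X : Var k} (q : Mo Y X) (m : T.H i n X) : T.H (i + 1) (n + 2) Y := T.lb i n q m

/-- Boundary. -/
def BM.B {Z U X : Var k} (a : Mo Z X) (j : Mo U X) (u : T.H i (n + 1) U) : T.H i n Z :=
  T.bd i n a j u

/-- All homology groups of `X` are finitely generated. -/
def BM.FG (X : Var k) : Prop := ∀ i n : ℤ, Module.Finite Λ (T.H i n X)

/-- The push-forward along proper morphisms. -/
structure BM.Push : Prop where
  one : ∀ (i n : ℤ) {X : Var k} (f : Mo X X), f.One → ∀ m : T.H i n X, T.P f m = m
  comp : ∀ (i n : ℤ) {X Y Z : Var k} (f : Mo X Y) (g : Mo Y Z) (h : Mo X Z), f.Pr → g.Pr →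
    Co f g h → ∀ m : T.H i n X, T.P g (T.P f m) = T.P h m
  base : ∀ (i n : ℤ) {U' X' U X : Var k} (j' : Mo U' X') (f' : Mo U' U) (f : Mo X' X)
    (j : Mo U X), f.Pr → j.Op → Ca j' f' f j → ∀ m : T.H i n X', T.R j (T.P f m) = T.P f' (T.R j' m)
  clopen : ∀ (i n : ℤ) {Z X : Var k} (a : Mo Z X), a.Cl → a.Op → ∀ m : T.H i n Z,
    T.R a (T.P a m) = m
  boundary : ∀ (i n : ℤ) {Z' U' X' Z U X : Var k} (a' : Mo Z' X') (j' : Mo U' X') (a : Mo Z X)
    (j : Mo U X) (r : Mo Z' Z) (s : Mo U' U) (f : Mo X' X), Compl a' j' → Compl a j → r.Pr → s.Pr →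
    f.Pr → Sq a' r f a → Sq j' s f j →
    ∀ u : T.H i (n + 1) U', T.P r (T.B a' j' u) = T.B a j (T.P s u)

/-- The localisation sequences are exact. -/
structure BM.Loc : Prop where
  atX : ∀ (i n : ℤ) {Z U X : Var k} (a : Mo Z X) (j : Mo U X), Compl a j →
    ∀ m : T.H i n X, T.R j m = 0 ↔ ∃ z : T.H i n Z, T.P a z = m
  atZ : ∀ (i n : ℤ) {Z U X : Var k} (a : Mo Z X) (j : Mo U X), Compl a j →
    ∀ z : T.H i n Z, T.P a z = 0 ↔ ∃ u : T.H i (n + 1) U, T.B a j u = z
  atU : ∀ (i n : ℤ) {Z U X : Var k} (a : Mo Z X) (j : Mo U X), Compl a j →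
    ∀ u : T.H i (n + 1) U, T.B a j u = 0 ↔ ∃ m : T.H i (n + 1) X, T.R j m = u

/-- The pull-back along line bundles: homotopy invariance, base change. -/
structure BM.Bundles : Prop where
  bij : ∀ (i n : ℤ) {Y X : Var k} (q : Mo Y X), q.Bun →
    Function.Bijective (T.V q : T.H i n X → T.H (i + 1) (n + 2) Y)
  push : ∀ (i n : ℤ) {Y X Y' X' : Var k} (q : Mo Y X) (q' : Mo Y' X') (r : Mo Y' Y) (s : Mo X' X),
    q.Bun → s.Pr → Ca q' r s q → ∀ m : T.H i n X', T.V q (T.P s m) = T.P r (T.V q' m)

/-- The push-forward of the pull-back along the covering `f` is the multiplication by `D`. -/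
def BM.Deg {V U : Var k} (f : Mo V U) (D : ℕ) : Prop :=
  ∀ (i n : ℤ) (m : T.H i n U), T.P f (T.R f m) = (D : Λ) • m

/-- The pull-back along coverings. -/
structure BM.Cov : Prop where
  etale : ∀ {V U : Var k} (f : Mo V U), f.Et → IsIntegral U.X → ∃ D : ℕ, D ≠ 0 ∧ T.Deg f D
  /-- a finite free algebra `C` over `A` -/
  free : ∀ (A C : Type) [CommRing A] [Algebra k A] [Algebra.FiniteType k A] [CommRing C]
    [Algebra k C] [Algebra.FiniteType k C] [Algebra A C] [IsScalarTower k A C] [Module.Free A C]
    [Module.Finite A C], T.Deg (fm k A C) (Module.finrank A C)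
  /-- the involution `s` of a double cover -/
  inv : ∀ (i n : ℤ) (A : Type) [CommRing A] [Algebra k A] [Algebra.FiniteType k A] (b c : A)
    (s : Mo (sdbl k A b c) (sdbl k A b c)), Invo k A b c s → ∀ m : T.H i n (sdbl k A b c),
      T.R (dm k A b c) (T.P (dm k A b c) m) = m + T.P s m

/-- Finiteness theorems. -/
structure BM.Finiteness : Prop where
  empty : ∀ (i n : ℤ) (X : Var k), IsEmpty (Pt X) → Subsingleton (T.H i n X)
  /-- the homology modulo `D` is finitely generated (finite coefficients) -/
  quot : ∀ (i n : ℤ) (X : Var k) (D : ℕ), D ≠ 0 → ∃ N : Submodule Λ (T.H i n X), N.FG ∧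
    ∀ m : T.H i n X, ∃ m' : T.H i n X, m - (D : Λ) • m' ∈ N
  /-- twists larger than the dimension: the rational motivic homology vanishes (weights) -/
  large : ∀ (i n : ℤ) (d : ℕ) (X : Var k), DimLE X d → (d : ℤ) < i → Module.Finite Λ (T.H i n X)
  /-- curves (Harder, Quillen, Grayson) -/
  curves : ∀ X : Var k, DimLE X 1 → T.FG X

/-- The published properties of the homology which are used. -/
structure BM.Pub : Prop where
  push : T.Push
  loc : T.Loc
  bundles : T.Bundles
  cov : T.Cov
  fin : T.Finiteness

end Theory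

/-- The cohomology of all smooth projective integral varieties `Y` over `k`: `C^i = H^i(Ybar, ℤ(n))`,
`H^i = H_W^i(Y, ℤ(n))`, and so on; `C^(2n+1)` is torsion, and `H_W^i(Y, ℤ(n)) ⊗ ℤ_ℓ` is the homology
group `T.H (d - n) (2 d - i) Y`. -/
structure Fam (k : Type) [Field k] (ℓ : Nat.Primes) (T : BM.{v} k (Zp ℓ)) where
  /-- the cohomology -/
  coh : ∀ {Y : Var k} {d : ℕ}, SPj Y d → Coh
  char : ∀ {Y : Var k} {d : ℕ} (h : SPj Y d), CharP k (coh h).p
  dim : ∀ {Y : Var k} {d : ℕ} (h : SPj Y d), (coh h).d = d
  above : ∀ {Y : Var k} {d : ℕ} (h : SPj Y d) (n : ℕ)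
    (x : (((coh h).W n).C (2 * (n : ℤ) + 1)).T), Tors x
  comp : ∀ {Y : Var k} {d : ℕ} (h : SPj Y d) (n : ℕ) (i : ℤ),
    Nonempty (T.H ((d : ℤ) - n) (2 * (d : ℤ) - i) Y ≃ₗ[Zp ℓ] (((coh h).W n).H i).tens ℓ)

/-- `L^n(Y)` for all `n`: all groups `H_W^i(Y, ℤ(n))` are finitely generated. -/
def Fam.L {ℓ : Nat.Primes} {T : BM.{v} k (Zp ℓ)} (F : Fam k ℓ T) {Y : Var k} {d : ℕ}
    (h : SPj Y d) : Prop := ∀ n : ℕ, (F.coh h).L n

/-! ## The class of varieties built from a given class -/

/-- The class of varieties over `k` which is built from the varieties with the property `B`. -/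
inductive Bld (B : Var k → Prop) : Var k → Prop
  /-- the varieties with the property `B` -/
  | base (X : Var k) : B X → Bld B X
  /-- the empty variety -/
  | empty (X : Var k) : IsEmpty (Pt X) → Bld B X
  /-- isomorphic varieties -/
  | iso {X Y : Var k} (f : Mo X Y) : IsIso f.g → Bld B X → Bld B Y
  /-- `X` is the disjoint union of the closed subvariety `Z` and the open subvariety `U` -/
  | paste {Z U X : Var k} (a : Mo Z X) (j : Mo U X) : Compl a j → Bld B Z → Bld B U → Bld B X
  /-- the complement `U` of the closed subvariety `Z` of `X` -/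
  | cut {Z U X : Var k} (a : Mo Z X) (j : Mo U X) : Compl a j → Bld B X → Bld B Z → Bld B U
  /-- the complement `Z` of the open subvariety `U` of `X` -/
  | third {Z U X : Var k} (a : Mo Z X) (j : Mo U X) : Compl a j → Bld B X → Bld B U → Bld B Z
  /-- the product with the affine line -/
  | line (A : Type) [CommRing A] [Algebra k A] [Algebra.FiniteType k A] :
      Bld B (sp k A) → Bld B (sp k A[X])
  /-- descent from the product `Y` of `X` and the affine line to `X` -/
  | unline {Y X : Var k} (q : Mo Y X) : q.Line → Bld B Y → Bld B X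
  /-- descent along a finite free covering `Spec C → Spec A` -/
  | free (A C : Type) [CommRing A] [Algebra k A] [Algebra.FiniteType k A] [CommRing C]
      [Algebra k C] [Algebra.FiniteType k C] [Algebra A C] [IsScalarTower k A C]
      [Module.Free A C] [Module.Finite A C] : 0 < Module.finrank A C →
      Bld B (sp k C) → Bld B (sp k A)
  /-- descent along the finite etale covering `V → U` of an integral variety -/
  | etale {V U : Var k} (f : Mo V U) : f.Et → IsIntegral U.X → Bld B V → Bld B U
  /-- the base `X` of a line bundle `Y → X`, if the complement `U` of the section `s` belongs to the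
  class -/
  | bundle {Y X U : Var k} (q : Mo Y X) (s : Mo X Y) (j : Mo U Y) :
      q.Bun → Sec q s → Compl s j → Bld B U → Bld B X
  /-- the quadric cone `a_0 x_0 ^ 2 + ... + a_2m x_2m ^ 2 = 0` over `Spec A`, where the `a_j` are
  units of `A` -/
  | odd (A : Type) [CommRing A] [Algebra k A] [Algebra.FiniteType k A] (m : ℕ)
      (a : Fin (2 * m + 1) → A) : Units a → Bld B (sp k A) → Bld B (cone k A a)
  /-- the quadric cone `a_0 x_0 ^ 2 + ... + a_(2m-1) x_(2m-1) ^ 2 = 0` over `Spec A`, where the `a_j` are
  units of `A`, if the double cover `t ^ 2 = (-1) ^ m a_0 ... a_(2m-1)` of `Spec A` belongs to the class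
  (characteristic different from two) -/
  | even (A : Type) [CommRing A] [Algebra k A] [Algebra.FiniteType k A] (m : ℕ)
      (a : Fin (2 * m) → A) : (2 : k) ≠ 0 → Units a → Bld B (sdia k A m a) → Bld B (cone k A a)
  /-- the subvariety `f_0 = ... = f_m = 0` of `Spec A`, if the hypersurface
  `y ^ 2 - y = t_0 f_0 + ... + t_m f_m` in the product with the affine space of dimension `m + 2`
  belongs to the class -/
  | zeros (A : Type) [CommRing A] [Algebra k A] [Algebra.FiniteType k A] (m : ℕ)
      (f : Fin (m + 1) → A) : Bld B (sas k A f) → Bld B (squo k A f)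

/-! ## Fields -/

/-- A property of fields over `k`. -/
structure FP (k : Type) [Field k] where
  /-- the field `F` has the property -/
  P : ∀ (F : Type) [Field F] [Algebra k F], Prop

/-- The property `Φ` does not depend on the isomorphism class. -/
def Inv (Φ : FP k) : Prop :=
  ∀ (F F' : Type) [Field F] [Algebra k F] [Field F'] [Algebra k F'], (F ≃ₐ[k] F') → Φ.P F → Φ.P F'

/-- The field `F` is contained in a compositum of `m` fields of transcendence degree at most one
over `k`. (`m = 2`, transcendence degree two: the function fields of the surfaces dominated by products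
of two curves.) -/
def Comp (k : Type) [Field k] (m : ℕ) : FP k where
  P F _ _ := ∃ (L : Type) (_ : Field L) (_ : Algebra k L) (e : F →ₐ[k] L)
    (K : Fin m → IntermediateField k L), (∀ j, Algebra.trdeg k (K j) ≤ 1) ∧ ∀ x, e x ∈ ⨆ j, K j

/-- The field `F` has transcendence degree at most one over `k`, or it has transcendence degree two and the
property `Φ`. -/
def Sm (Φ : FP k) : FP k where
  P F _ _ := Algebra.trdeg k F ≤ 1 ∨ (Algebra.trdeg k F = 2 ∧ Φ.P F)

/-- The residue field of `X` at the point `x` has the property `Φ`. -/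
def At (Φ : FP k) (X : Var k) (x : Pt X) : Prop :=
  @FP.P k _ Φ (X.X.residueField x) _ (X.toResidue x).toAlgebra

/-- All residue fields of `X` have the property `Φ`. -/
def Res (Φ : FP k) (X : Var k) : Prop := ∀ x : Pt X, At Φ X x

/-- The residue field of `A` at the prime `q`. -/
abbrev Kp {A : Type} [CommRing A] (q : PrimeSpectrum A) : Type := FractionRing (A ⧸ q.asIdeal)

/-- The value of `a` in the residue field. -/
noncomputable def val {A : Type} [CommRing A] (q : PrimeSpectrum A) (a : A) : Kp q :=
  algebraMap (A ⧸ q.asIdeal) (Kp q) (Ideal.Quotient.mk q.asIdeal a)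

/-! ## Systems of equations -/

/-- The polynomial `p` is a sum of two terms `c x^a s_1^(b_1) ... s_i^(b_i)` in the variables `x` and in
the polynomials `s_j`, `j < i`. -/
def Two {n m : ℕ} (s : Fin m → MvPolynomial (Fin n) k) (i : ℕ) (p : MvPolynomial (Fin n) k) :
    Prop :=
  ∃ g : MvPolynomial (Fin n ⊕ Fin m) k, g.support.card ≤ 2 ∧
    (∀ j : Fin m, Sum.inr j ∈ g.vars → (j : ℕ) < i) ∧
    MvPolynomial.aeval (Sum.elim MvPolynomial.X s) g = p

/-- The system `f` needs only `m` additions, in addition to one for every equation: there are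
polynomials `s_1, ..., s_m`, such that every `s_i` is a sum of two terms in the variables and the previous
`s_j`, and every `f_j` is a sum of two terms in the variables and the `s_j`. -/
def Add (m : ℕ) {n : ℕ} {ι : Type} (f : ι → MvPolynomial (Fin n) k) : Prop :=
  ∃ s : Fin m → MvPolynomial (Fin n) k, (∀ i : Fin m, Two s i (s i)) ∧ ∀ j, Two s m (f j)

/-- The equations have at most two monomials, except for at most `m` equations with at most three
monomials. -/
def Few (m : ℕ) {n : ℕ} {ι : Type} (f : ι → MvPolynomial (Fin n) k) : Prop :=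
  ∃ t : Finset ι, t.card ≤ m ∧ (∀ j ∈ t, (f j).support.card ≤ 3) ∧ ∀ j ∉ t, (f j).support.card ≤ 2

/-- The polynomial `p` is a term (or zero). -/
def Term {n : ℕ} (p : MvPolynomial (Fin n) k) : Prop := p.support.card ≤ 1

/-- The polynomial `∑ a_j x_j ^ (e_j) + c`, where `a_j` and `c` are polynomials in `y_1, ..., y_n`. -/
noncomputable def add {n r : ℕ} (a : Fin r → MvPolynomial (Fin n) k) (e : Fin r → ℕ)
    (c : MvPolynomial (Fin n) k) : MvPolynomial (Fin (n + r)) k :=
  ∑ j, MvPolynomial.rename (Fin.castAdd r) (a j) * MvPolynomial.X (Fin.natAdd n j) ^ e j +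
    MvPolynomial.rename (Fin.castAdd r) c

/-- The system `f_i(y) = 0`, `∑ a_j(y) x_j ^ (e_j) + c(y) = 0` in the variables
`y_1, ..., y_n, x_1, ..., x_r`. -/
noncomputable def sys {n r : ℕ} {ι : Type} (f : ι → MvPolynomial (Fin n) k)
    (a : Fin r → MvPolynomial (Fin n) k) (e : Fin r → ℕ) (c : MvPolynomial (Fin n) k) :
    ι ⊕ Unit → MvPolynomial (Fin (n + r)) k :=
  Sum.elim (fun i => MvPolynomial.rename (Fin.castAdd r) (f i)) fun _ => add a e c

/-- All polynomials are homogeneous of positive degree. -/
def Hom {R ι : Type} [CommRing R] {n : ℕ} (f : ι → MvPolynomial (Fin n) R) : Prop :=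
  ∀ j, ∃ d, 1 ≤ d ∧ (f j).IsHomogeneous d

/-! ## Systems of Delsarte type -/

/-- `z` assigns an integer to every monomial of every equation; the sum is zero for every equation. -/
def Rel {n r : ℕ} (f : Fin r → MvPolynomial (Fin n) k) (z : Fin r → (Fin n →₀ ℕ) →₀ ℤ) : Prop :=
  (∀ j, ∀ α, z j α ≠ 0 → α ∈ (f j).support) ∧ ∀ j, ((z j).sum fun _ c => c) = 0

/-- The sum of the exponents, with the coefficients `z`. -/
noncomputable def tot {n r : ℕ} (z : Fin r → (Fin n →₀ ℕ) →₀ ℤ) : Fin n → ℤ :=
  fun i => ∑ j, (z j).sum fun α c => c * (α i : ℤ)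

/-- A system of Delsarte type, of exponent `N`: the exponents of the equations are affinely independent
(all differences of two exponents of one equation together), and the torsion of the group `ℤ ^ n`
modulo these differences is killed by `N`. -/
structure Dels (N : ℕ) {n r : ℕ} (f : Fin r → MvPolynomial (Fin n) k) : Prop where
  ind : ∀ z, Rel f z → tot z = 0 → z = 0
  exp : ∀ (x : Fin n → ℤ) (t : ℤ), t ≠ 0 → (∃ z, Rel f z ∧ t • x = tot z) →
    ∃ z, Rel f z ∧ (N : ℤ) • x = tot z

/-- The equations `1 + c_j x_j ^ N + c'_j y_j ^ N = 0`. -/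
noncomputable def ferm (N : ℕ) {M : ℕ} (c c' : Fin M → k) : Fin M → MvPolynomial (Fin (M + M)) k :=
  fun j => 1 + MvPolynomial.C (c j) * MvPolynomial.X (Fin.castAdd M j) ^ N +
    MvPolynomial.C (c' j) * MvPolynomial.X (Fin.natAdd M j) ^ N

/-- `X` is a product of at most `m` affine Fermat curves `1 + c x ^ N + c' y ^ N = 0`, `c c' ≠ 0`, and of
lines and finite sets (the equations `1 + c x ^ N + c' y ^ N = 0` with `c c' = 0`). -/
def Fermat (N m : ℕ) (X : Var k) : Prop :=
  ∃ (M : ℕ) (c c' : Fin M → k), Nat.card {j // c j * c' j ≠ 0} ≤ m ∧ X = szer k k (ferm N c c')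

/-! ## Quadratic forms -/

/-- The matrix of second derivatives of a quadratic form. -/
noncomputable def gram {A : Type} [CommRing A] {n : ℕ} (f : MvPolynomial (Fin n) A) :
    Matrix (Fin n) (Fin n) A :=
  fun i j => MvPolynomial.coeff 0 (MvPolynomial.pderiv i (MvPolynomial.pderiv j f))

/-- `F` is obtained from `K` by the adjunction of a square root of `b`. -/
def Root {K : Type} [Field K] (b : K) (F : Type) [Field F] [Algebra K F] : Prop :=
  ∃ t : F, t ^ 2 = algebraMap K F b ∧ IntermediateField.adjoin K {t} = ⊤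

/-- The matrix `G` over the field `K` has odd rank, or a principal minor `d ≠ 0` of size the rank `r`,
such that `K` with a square root of `(-1) ^ (r / 2) d` has the property `Φ`. -/
def Disc (Φ : FP k) {K : Type} [Field K] [Algebra k K] {n : ℕ} (G : Matrix (Fin n) (Fin n) K) :
    Prop :=
  Odd G.rank ∨ ∃ s : Finset (Fin n), s.card = G.rank ∧
    (G.submatrix (fun i : s => i.1) fun i : s => i.1).det ≠ 0 ∧
    ∀ (F : Type) [Field F] [Algebra k F] [Algebra K F] [IsScalarTower k K F],
      Root ((-1) ^ (G.rank / 2) * (G.submatrix (fun i : s => i.1) fun i : s => i.1).det) F → Φ.P F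

/-- The residue field of `A` at `q` has the property `Φ`, and so has the discriminant double cover of the
quadratic form `f` at `q`, if the rank is even. -/
def Good (Φ : FP k) {A : Type} [CommRing A] [Algebra k A] {n : ℕ} (f : MvPolynomial (Fin n) A)
    (q : PrimeSpectrum A) : Prop :=
  Φ.P (Kp q) ∧ Disc Φ ((gram f).map (val q))

/-! ## Actions of tori -/

/-- The subfield of the residue field of `A` at `q` which is generated by the Laurent monomials of
degree zero in those elements `a_i` (of degree `w_i`) which do not vanish at `q`. -/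
noncomputable def Kw {n r : ℕ} {A : Type} [CommRing A] [Algebra k A] (w : Fin n → (Fin r → ℤ))
    (a : Fin n → A) (q : PrimeSpectrum A) : IntermediateField k (Kp q) :=
  IntermediateField.adjoin k {x | ∃ α : Fin n → ℤ, (∀ i, a i ∈ q.asIdeal → α i = 0) ∧
    ∑ i, α i • w i = 0 ∧ x = ∏ i, val q (a i) ^ α i}

/-- The intermediate field `K` has the property `Φ`. -/
def Has (Φ : FP k) {F : Type} [Field F] [Algebra k F] (K : IntermediateField k F) : Prop := Φ.P K

/-- For every prime `q` of `A`, the subfield of the residue field at `q` generated by the Laurent monomials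
of degree zero in those elements `a_i` (of degree `w_i`) which do not vanish at `q` has the property
`Φ`. -/
def Sma (Φ : FP k) {n r : ℕ} {A : Type} [CommRing A] [Algebra k A] (w : Fin n → (Fin r → ℤ))
    (a : Fin n → A) : Prop :=
  ∀ q : PrimeSpectrum A, Has Φ (Kw (k := k) w a q)

/-- The zero set of polynomials `f_j` which are homogeneous for the degrees `w_i ∈ ℤ^r` of the variables
(an affine variety with an action of a torus); at every point the field generated by the Laurent
monomials of degree zero in the coordinates which do not vanish has the property `Φ`. -/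
def Act (Φ : FP k) {n r : ℕ} (w : Fin n → (Fin r → ℤ)) {ι : Type}
    (f : ι → MvPolynomial (Fin n) k) : Prop :=
  (∀ j, ∃ d : Fin r → ℤ, (f j).IsWeightedHomogeneous w d) ∧
    Sma Φ w fun i => Ideal.Quotient.mk (Ideal.span (Set.range f)) (MvPolynomial.X i)

/-! ## Results -/

/-- Families of varieties in the classes built from `B`. -/
structure Families (k : Type) [Field k] : Prop where
  point : ∀ B : Var k → Prop, (∀ X, DimLE X 0 → B X) → Bld B (sp k k)
  fermat : ∀ N m : ℕ, Bld (Fermat N m) (sp k k)
  /-- homogeneous systems over `A`: from the affine to the projective zero set -/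
  proj : ∀ (B : Var k → Prop) (A : Type) [CommRing A] [Algebra k A] [Algebra.FiniteType k A]
    (n : ℕ) (ι : Type) (f : ι → MvPolynomial (Fin (n + 1)) A), Hom f → Bld B (sp k A) →
    Bld B (szer k A f) → ∀ X : Var k, PSub k f X → Bld B X
  curves : ∀ m : ℕ, 1 ≤ m → ∀ X : Var k, DimLE X 1 → Res (Comp k m) X
  /-- equations with at most two monomials, and `m` equations with three -/
  few : ∀ (m n : ℕ) (ι : Type) (f : ι → MvPolynomial (Fin n) k), Few m f → Add m f
  /-- one equation with at most `m + 2` monomials -/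
  mono : ∀ (m n : ℕ) (p : MvPolynomial (Fin n) k), p.support.card ≤ m + 2 →
    Add m fun _ : Fin 1 => p
  /-- systems of equations with `m` additional additions -/
  eqs : ∀ m : ℕ, 1 ≤ m → ∀ (n : ℕ) (ι : Type) (f : ι → MvPolynomial (Fin n) k), Add m f →
    Bld (Res (Comp k m)) (szer k k f)
  /-- in addition one equation `∑ a_j(y) x_j ^ (e_j) + c(y) = 0`, where the `a_j` and `c` are terms and
  `e_j` is one or two, with any number of new variables `x_j` -/
  mix : (2 : k) ≠ 0 → ∀ m : ℕ, 1 ≤ m → ∀ (n r : ℕ) (ι : Type) (f : ι → MvPolynomial (Fin n) k)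
    (a : Fin r → MvPolynomial (Fin n) k) (e : Fin r → ℕ) (c : MvPolynomial (Fin n) k), Add m f →
    (∀ j, Term (a j)) → Term c → (∀ j, e j = 1 ∨ e j = 2) →
    Bld (Res (Comp k m)) (szer k k (sys f a e c))
  /-- systems of Delsarte type -/
  dels : ∀ N : ℕ, 0 < N → ∀ (m n r : ℕ) (f : Fin r → MvPolynomial (Fin n) k), Dels N f →
    ∑ j, ((f j).support.card - 2) ≤ m → Bld (Fermat N m) (szer k k f)
  /-- a quadratic form over an affine variety, the points of which are small, with small discriminant
  double covers -/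
  quad : (2 : k) ≠ 0 → ∀ Φ : FP k, Inv Φ → ∀ (A : Type) [CommRing A] [Algebra k A]
    [Algebra.FiniteType k A] (n : ℕ) (f : MvPolynomial (Fin n) A), f.IsHomogeneous 2 →
    (∀ q, Good Φ f q) → Bld (Res Φ) (szer k A fun _ : Fin 1 => f)
  /-- affine varieties with an action of a torus -/
  act : ∀ Φ : FP k, Inv Φ → ∀ (n r : ℕ) (w : Fin n → (Fin r → ℤ)) (ι : Type)
    (f : ι → MvPolynomial (Fin n) k), Act Φ w f → Bld (Res Φ) (szer k k f)

/-- Every integral surface is birationally equivalent to a smooth projective surface (Abhyankar). -/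
def Resol (k : Type) [Field k] : Prop :=
  ∀ U : Var k, IDim U 2 → ∃ (U' Y : Var k) (a : Mo U' U) (b : Mo U' Y),
    a.Op ∧ b.Op ∧ Nonempty (Pt U') ∧ SPj Y 2

section

variable {Λ : Type} [CommRing Λ] (T : BM.{v} k Λ)

/-- Finite generation for the smooth projective surfaces whose function field has the property `Φ`. -/
def SurfFG (Φ : FP k) : Prop :=
  ∀ (Y : Var k) (h : IsIntegral Y.X), SPj Y 2 → At Φ Y (gp Y h) → T.FG Y

/-- The results for a homology theory. -/
structure Built : Prop where
  /-- finite generation extends from `B` to the class built from `B` -/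
  bld : ∀ B : Var k → Prop, (∀ X, B X → T.FG X) → ∀ X, Bld B X → T.FG X
  /-- finite generation for the class built from the varieties of dimension at most one -/
  one : ∀ X, Bld (Res (Comp k 1)) X → T.FG X
  /-- finite generation for varieties with small residue fields -/
  small : ∀ Φ : FP k, Inv Φ → Resol k → SurfFG T Φ → ∀ X, Bld (Res (Sm Φ)) X → T.FG X
  /-- finite generation for the class built from the varieties whose residue fields are contained in
  composita of two fields of transcendence degree at most one -/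
  two : Resol k → SurfFG T (Comp k 2) → ∀ X, Bld (Res (Comp k 2)) X → T.FG X

end

/-- The question `Q1` for smooth projective varieties in the classes built from `B`. -/
structure LBuilt {ℓ : Nat.Primes} {T : BM.{v} k (Zp ℓ)} (F : Fam k ℓ T) : Prop where
  /-- `L^n(Y)` for all `n` is equivalent to finite generation of the homology of `Y` -/
  link : ∀ (Y : Var k) (d : ℕ) (hY : SPj Y d), T.FG Y ↔ F.L hY
  bld : ∀ B : Var k → Prop, (∀ X, B X → T.FG X) → ∀ (Y : Var k) (d : ℕ) (hY : SPj Y d), Bld B Y →
    F.L hY
  /-- `Q1` for the surfaces whose function fields are contained in composita of two fields of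
  transcendence degree one implies it for the class built from the varieties whose residue fields have
  this property -/
  two : Resol k → (∀ (Y : Var k) (h : IsIntegral Y.X) (hY : SPj Y 2), At (Comp k 2) Y (gp Y h) →
    F.L hY) → ∀ (Y : Var k) (d : ℕ) (hY : SPj Y d), Bld (Res (Comp k 2)) Y → F.L hY

end FTQ
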