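import Pool.Agent.FMQ.St2

/-!
# Project FMQ (MP_cb388a_ag), module PNT: the point
-/

set_option autoImplicit false

open CategoryTheory AlgebraicGeometry

namespace Pool.Agent.FMQ

open UQ (Mo sp szer)

namespace PNTAux

variable {k : Type} [Field k]

theorem bij (f : Fin 0 → MvPolynomial (Fin (0 + 0)) k) : Function.Bijective
    (algebraMap k (MvPolynomial (Fin (0 + 0)) k ⧸ Ideal.span (Set.range f))) := by
  have hemp : IsEmpty (Fin (0 + 0)) := inferInstanceAs (IsEmpty (Fin 0))
  have hI : Ideal.span (Set.range f) = ⊥ := by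
    rw [Set.range_eq_empty f, Ideal.span_empty]
  have hnt : Nontrivial (MvPolynomial (Fin (0 + 0)) k ⧸ Ideal.span (Set.range f)) := by
    rw [Ideal.Quotient.nontrivial_iff, hI]
    exact bot_ne_top
  refine ⟨(algebraMap k _).injective, fun y => ?_⟩
  obtain ⟨p, rfl⟩ := Ideal.Quotient.mk_surjective y
  obtain ⟨c, rfl⟩ := MvPolynomial.C_surjective (Fin (0 + 0)) p
  exact ⟨c, rfl⟩

end PNTAux

open PNTAux in
/-- **PNT**: the point belongs to the class. -/
theorem t_PNT : S_PNT := by
  intro k _ N m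
  have hbase : Bld (Fermat N m) (szer k k (ferm N (fun _ : Fin 0 => (0 : k)) fun _ => 0)) := by
    refine Bld.base _ ⟨0, fun _ => 0, fun _ => 0, ?_, rfl⟩
    rw [Nat.card_of_isEmpty]
    exact Nat.zero_le m
  let f : Mo (szer k k (ferm N (fun _ : Fin 0 => (0 : k)) fun _ => 0)) (sp k k) :=
    { g := Spec.map (CommRingCat.ofHom (algebraMap k _))
      comm := by
        change Spec.map _ ≫ Spec.map _ = Spec.map _
        rw [← Spec.map_comp, ← CommRingCat.ofHom_comp] }
  refine Bld.iso f ?_ hbase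
  have h : IsIso (CommRingCat.ofHom (algebraMap k (MvPolynomial (Fin (0 + 0)) k ⧸
      Ideal.span (Set.range (ferm N (fun _ : Fin 0 => (0 : k)) fun _ => 0))))) :=
    (ConcreteCategory.isIso_iff_bijective _).2 (bij _)
  change IsIso (Spec.map (CommRingCat.ofHom (algebraMap k (MvPolynomial (Fin (0 + 0)) k ⧸
      Ideal.span (Set.range (ferm N (fun _ : Fin 0 => (0 : k)) fun _ => 0))))))
  infer_instance

end Pool.Agent.FMQ
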