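import Pool.Agent.FMQ.St

/-!
# FMQ, module UNQ: uniqueness of universal algebras, change of names (helper34)
-/

set_option autoImplicit false

namespace Pool.Agent.FMQ

open FMO (Univ)

theorem t_UNQ : S_UNQ := by
  intro k _
  refine ⟨?_, ?_⟩
  · intro V ι f U Z C D _ _ _ _ φ ψ h h'
    obtain ⟨g, hg⟩ := h.lift D ψ h'.sat h'.unit h'.zero
    obtain ⟨g', hg'⟩ := h'.lift C φ h.sat h.unit h.zero
    have h1 : g'.comp g = AlgHom.id k C :=
      h.ext C _ _ fun v => by rw [AlgHom.comp_apply, hg, hg', AlgHom.id_apply]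
    have h2 : g.comp g' = AlgHom.id k D :=
      h'.ext D _ _ fun v => by rw [AlgHom.comp_apply, hg', hg, AlgHom.id_apply]
    exact ⟨AlgEquiv.ofAlgHom g g' h2 h1, hg⟩
  · intro V V' ι s f C _ _ φ h
    refine ⟨fun j => ?_, fun v hv => absurd hv (Set.notMem_empty v),
      fun v hv => absurd hv (Set.notMem_empty v), ?_, ?_⟩
    · have h1 := h.sat j
      rwa [MvPolynomial.aeval_rename] at h1
    · intro D _ _ ψ hψ _ _
      obtain ⟨g, hg⟩ := h.lift D (ψ ∘ s.symm) (fun j => by
        rw [MvPolynomial.aeval_rename]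
        have h1 : (ψ ∘ s.symm) ∘ s = ψ := by
          funext v
          simp
        rw [h1]
        exact hψ j) (fun v hv => absurd hv (Set.notMem_empty v))
        (fun v hv => absurd hv (Set.notMem_empty v))
      refine ⟨g, fun v => ?_⟩
      rw [Function.comp_apply, hg, Function.comp_apply, Equiv.symm_apply_apply]
    · intro D _ _ g g' hgg
      refine h.ext D g g' fun v => ?_
      have h1 := hgg (s.symm v)
      rwa [Function.comp_apply, Equiv.apply_symm_apply] at h1

end Pool.Agent.FMQ
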